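import Pool.Agent.Lib.MP_76ba2b_nt.Walk

set_option autoImplicit false

namespace Pool.Agent.Lib.MP_76ba2b_nt

open Finset

/-- Residues `u i t` of `ξ / 4 ^ t` modulo `3 ^ (n - i)` with weights `w`. -/
structure Dat (w0 : ℝ) (n : ℕ) (ξ : ℤ) (u : ℕ → ℕ → ℤ) (w : ℕ → ℕ → ℝ) : Prop where
  unit : ¬ (3 : ℤ) ∣ ξ
  small : ∀ i t, i < n → 2 * |u i t| < 3 ^ (n - i)
  cong : ∀ i t, i < n → (3 : ℤ) ^ (n - i) ∣ 4 ^ t * u i t - ξ
  nonneg : ∀ i t, 0 ≤ w i t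
  le_one : ∀ i t, w i t ≤ 1
  wn : ∀ i t, n ≤ i → w i t = 1
  white : ∀ i t, i < n → 3 ^ (n - i) < 16 * |u i t| → w i t ≤ w0

variable {w0 : ℝ} {n : ℕ} {ξ : ℤ} {u : ℕ → ℕ → ℤ} {w : ℕ → ℕ → ℝ}

lemma Dat.ne_zero (D : Dat w0 n ξ u w) {i t : ℕ} (hi : i < n) : u i t ≠ 0 := by
  intro h
  have h1 := D.cong i t hi
  rw [h, mul_zero, zero_sub, dvd_neg] at h1
  exact D.unit ((dvd_pow_self 3 (by omega)).trans h1)

lemma exists_odd_part (a : ℤ) (ha : a ≠ 0) : ∃ (h : ℕ) (v : ℤ), a = 2 ^ h * v ∧ Odd v := by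
  obtain ⟨h, m, hm, e⟩ := Nat.exists_eq_two_pow_mul_odd (Int.natAbs_ne_zero.mpr ha)
  rcases Int.natAbs_eq a with h1 | h1
  · refine ⟨h, m, ?_, by exact_mod_cast hm⟩
    rw [h1, e]; push_cast; ring
  · refine ⟨h, -m, ?_, Odd.neg (by exact_mod_cast hm)⟩
    rw [h1, e]; push_cast; ring

lemma odd_abs_pos {v : ℤ} (hv : Odd v) : 1 ≤ |v| := by
  have : v ≠ 0 := by rintro rfl; simp at hv
  exact Int.one_le_abs this

lemma Dat.up (D : Dat w0 n ξ u w) {i t h τ r x : ℕ} {v : ℤ} (hi : i < n)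
    (hu : u i t = 2 ^ h * v) (hv : Odd v) (hτ : 2 * τ = h + r) (hr : 1 ≤ r)
    (hx : 2 * |v| * 3 ^ x ≤ 3 ^ (n - i)) :
    i + x < n ∧ (3 ^ (n - (i + x)) ≤ 2 * 2 ^ r * |u (i + x) (t + τ)|) ∧ ∃ κ : ℤ, Odd κ ∧
      |κ| ≤ 2 ^ r ∧ 2 ^ r * u (i + x) (t + τ) = v + κ * 3 ^ (n - (i + x)) := by
  have hv1 := odd_abs_pos hv
  have h3x : (0 : ℤ) < 3 ^ x := by positivity
  have hlt : i + x < n := by
    by_contra hc
    have : (3 : ℤ) ^ (n - i) ≤ 3 ^ x := pow_le_pow_right₀ (by norm_num) (by omega)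
    nlinarith
  set m' := n - (i + x) with hm'
  have hm : n - i = m' + x := by omega
  set u' := u (i + x) (t + τ) with hu'
  have c1 : (3 : ℤ) ^ m' ∣ 4 ^ t * (2 ^ h * v) - ξ := by
    have := D.cong i t hi
    rw [hu, hm] at this
    exact (pow_dvd_pow 3 (Nat.le_add_right _ _)).trans this
  have c2 : (3 : ℤ) ^ m' ∣ 4 ^ (t + τ) * u' - ξ := D.cong _ _ hlt
  have e4 : (4 : ℤ) ^ τ = 2 ^ h * 2 ^ r := by
    rw [← pow_add, ← hτ, pow_mul]; norm_num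
  have c3 : (3 : ℤ) ^ m' ∣ (4 ^ t * 2 ^ h) * (2 ^ r * u' - v) := by
    have := dvd_sub c2 c1
    rw [pow_add, e4] at this
    have e : (4 : ℤ) ^ t * (2 ^ h * 2 ^ r) * u' - ξ - (4 ^ t * (2 ^ h * v) - ξ) =
      (4 ^ t * 2 ^ h) * (2 ^ r * u' - v) := by ring
    rwa [e] at this
  have cop : IsCoprime ((3 : ℤ) ^ m') (4 ^ t * 2 ^ h) := by
    apply IsCoprime.mul_right
    · exact IsCoprime.pow (by norm_num [Int.isCoprime_iff_gcd_eq_one])
    · exact IsCoprime.pow (by norm_num [Int.isCoprime_iff_gcd_eq_one])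
  obtain ⟨κ, hκ⟩ := cop.dvd_of_dvd_mul_left c3
  have heq : 2 ^ r * u' = v + κ * 3 ^ m' := by linarith
  have hκodd : Odd κ := by
    have he : Even (2 ^ r * u') := by
      apply Even.mul_right
      exact (Int.even_pow' (by omega)).mpr (by norm_num)
    rw [heq] at he
    by_contra hc
    have hk : Even κ := Int.not_odd_iff_even.mp hc
    have : Odd (v + κ * 3 ^ m') := hv.add_even (hk.mul_right _)
    exact (Int.not_odd_iff_even.mpr he) this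
  have hκ1 := odd_abs_pos hκodd
  have h3m : (0 : ℤ) < 3 ^ m' := by positivity
  have hv2 : 2 * |v| ≤ 3 ^ m' := by
    rw [hm, pow_add] at hx
    exact le_of_mul_le_mul_right hx h3x
  have hs : 2 * |u'| < 3 ^ m' := D.small _ _ hlt
  have h2r : (2 : ℤ) ≤ 2 ^ r := by
    calc (2 : ℤ) = 2 ^ 1 := by norm_num
      _ ≤ 2 ^ r := pow_le_pow_right₀ (by norm_num) hr
  have a1 : |κ| * 3 ^ m' ≤ 2 ^ r * |u'| + |v| := by
    have e : κ * 3 ^ m' = 2 ^ r * u' + -v := by linarith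
    have : |κ * 3 ^ m'| ≤ |2 ^ r * u'| + |-v| := by rw [e]; exact abs_add_le _ _
    rw [abs_mul, abs_mul, abs_neg, abs_of_pos h3m, abs_of_pos (by positivity : (0 : ℤ) < 2 ^ r)]
      at this
    exact this
  refine ⟨hlt, ?_, κ, hκodd, ?_, heq⟩
  · nlinarith
  · by_contra hc
    push Not at hc
    have : (2 ^ r + 1) * 3 ^ m' ≤ |κ| * 3 ^ m' := mul_le_mul_of_nonneg_right hc h3m.le
    nlinarith [abs_nonneg u']

lemma Dat.exit (D : Dat w0 n ξ u w) (hw1 : w0 ≤ 1) {i t h : ℕ} {v : ℤ} (hi : i < n)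
    (hb : 16 * |u i t| ≤ 3 ^ (n - i)) (hu : u i t = 2 ^ h * v) (hv : Odd v) :
    Bn (2 * (h / 2 + 1)) (fun x => w (i + x) (t + (h / 2 + 1))) ≤ (1 + w0) / 2 := by
  obtain ⟨r, hr, hr1, hr2⟩ : ∃ r, 2 * (h / 2 + 1) = h + r ∧ 1 ≤ r ∧ r ≤ 2 :=
    ⟨2 - h % 2, by omega, by omega, by omega⟩
  have h3 : (0 : ℝ) < 3 ^ (n - i) := by positivity
  have a1 : Bn (2 * (h / 2 + 1)) (fun x => w (i + x) (t + (h / 2 + 1))) ≤
      Bn (2 * (h / 2 + 1))
        (fun x => w0 + ((1 - w0) * (2 * |(v : ℝ)| / 3 ^ (n - i))) * (3 : ℝ) ^ x) := by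
    apply Bn_mono
    intro x _
    by_cases hx : 2 * |v| * 3 ^ x ≤ 3 ^ (n - i)
    · obtain ⟨hlt, hw, -⟩ := D.up hi hu hv hr hr1 hx
      have h4 : (2 : ℤ) ^ r ≤ 4 := by
        calc (2 : ℤ) ^ r ≤ 2 ^ 2 := pow_le_pow_right₀ (by norm_num) hr2
          _ = 4 := by norm_num
      have h5 : (0 : ℤ) < 3 ^ (n - (i + x)) := by positivity
      have := D.white (i + x) (t + (h / 2 + 1)) hlt (by nlinarith [abs_nonneg (u (i + x) (t + (h / 2 + 1)))])
      have h6 : 0 ≤ ((1 - w0) * (2 * |(v : ℝ)| / 3 ^ (n - i))) * (3 : ℝ) ^ x := by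
        have : 0 ≤ 1 - w0 := by linarith
        positivity
      linarith
    · push Not at hx
      have hx' : (3 : ℝ) ^ (n - i) ≤ 2 * |(v : ℝ)| * 3 ^ x := by exact_mod_cast hx.le
      have h7 : 1 ≤ (2 * |(v : ℝ)| / 3 ^ (n - i)) * (3 : ℝ) ^ x := by
        rw [div_mul_eq_mul_div, le_div_iff₀ h3]; linarith
      have := D.le_one (i + x) (t + (h / 2 + 1))
      nlinarith
  refine a1.trans ?_
  rw [Bn_add, Bn_const, Bn_mul, Bn_pow, hr]
  have hb' : 16 * (2 ^ h * |(v : ℝ)|) ≤ 3 ^ (n - i) := by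
    rw [hu, abs_mul, abs_of_pos (by positivity : (0 : ℤ) < 2 ^ h)] at hb
    exact_mod_cast hb
  have h4 : (2 : ℝ) ^ r ≤ 4 := by
    calc (2 : ℝ) ^ r ≤ 2 ^ 2 := pow_le_pow_right₀ (by norm_num) hr2
      _ = 4 := by norm_num
  have h8 : (2 * |(v : ℝ)| / 3 ^ (n - i)) * ((1 + 3) / 2) ^ (h + r) ≤ 1 / 2 := by
    rw [show ((1 : ℝ) + 3) / 2 = 2 by norm_num, pow_add, div_mul_eq_mul_div, div_le_iff₀ h3]
    have : 0 ≤ 2 ^ h * |(v : ℝ)| := by positivity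
    nlinarith
  have : 0 ≤ 1 - w0 := by linarith
  nlinarith

open Classical in
/-- Points beyond column `n`, or of height at least `s`. -/
noncomputable def bad (n : ℕ) (u : ℕ → ℕ → ℤ) (s i t : ℕ) : ℝ :=
  if n ≤ i ∨ (2 : ℤ) ^ s ∣ u i t then 1 else 0

lemma bad_nonneg (s i t : ℕ) : 0 ≤ bad n u s i t := by unfold bad; split_ifs <;> norm_num

lemma Dat.hex (D : Dat w0 n ξ u w) (hw1 : w0 ≤ 1) (s i t : ℕ) (hb : bad n u s i t < 1) :
    ∃ τ ≤ s + 1, Bn (2 * τ) (fun x => w (i + x) (t + τ)) ≤ (1 + w0) / 2 := by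
  have h1 : ¬ (n ≤ i ∨ (2 : ℤ) ^ s ∣ u i t) := by
    intro h; simp [bad, h] at hb
  push Not at h1
  by_cases hw : 3 ^ (n - i) < 16 * |u i t|
  · refine ⟨0, by omega, ?_⟩
    have := D.white i t h1.1 hw
    simp only [mul_zero, Bn_zero, add_zero]
    linarith
  · obtain ⟨h, v, hu, hv⟩ := exists_odd_part _ (D.ne_zero (t := t) h1.1)
    refine ⟨h / 2 + 1, ?_, D.exit hw1 h1.1 (not_lt.mp hw) hu hv⟩
    have : h < s := by
      by_contra hc
      exact h1.2 (hu ▸ (pow_dvd_pow 2 (by omega)).mul_right v)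
    omega

lemma Dat.pair (D : Dat w0 n ξ u w) {i t h τ r s x d : ℕ} {v : ℤ} (hi : i < n)
    (hu : u i t = 2 ^ h * v) (hv : Odd v) (hτ : 2 * τ = h + r) (hr : 1 ≤ r)
    (hx : 2 * |v| * 3 ^ x ≤ 3 ^ (n - i)) (hx' : 2 * |v| * 3 ^ (x + d) ≤ 3 ^ (n - i))
    (h1 : (2 : ℤ) ^ s ∣ u (i + x) (t + τ)) (h2 : (2 : ℤ) ^ s ∣ u (i + (x + d)) (t + τ)) :
    d ≤ r ∨ s ≤ 2 * d := by
  obtain ⟨-, -, κ1, o1, b1, e1⟩ := D.up hi hu hv hτ hr hx
  obtain ⟨hlt, -, κ2, o2, b2, e2⟩ := D.up hi hu hv hτ hr hx'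
  set m2 := n - (i + (x + d)) with hm2
  have hm1 : n - (i + x) = m2 + d := by omega
  rw [hm1] at e1
  have c1 : (2 : ℤ) ^ (r + s) ∣ 3 ^ m2 * (κ1 * 3 ^ d - κ2) := by
    have a1 : (2 : ℤ) ^ (r + s) ∣ 2 ^ r * u (i + x) (t + τ) := by
      rw [pow_add]; exact mul_dvd_mul_left _ h1
    have a2 : (2 : ℤ) ^ (r + s) ∣ 2 ^ r * u (i + (x + d)) (t + τ) := by
      rw [pow_add]; exact mul_dvd_mul_left _ h2
    have := dvd_sub a1 a2
    rw [e1, e2] at this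
    have e : v + κ1 * 3 ^ (m2 + d) - (v + κ2 * 3 ^ m2) = 3 ^ m2 * (κ1 * 3 ^ d - κ2) := by ring
    rwa [e] at this
  have cop : IsCoprime ((2 : ℤ) ^ (r + s)) (3 ^ m2) :=
    IsCoprime.pow (by norm_num [Int.isCoprime_iff_gcd_eq_one])
  have c2 := cop.dvd_of_dvd_mul_left c1
  have k1 := odd_abs_pos o1
  have h3 : (0 : ℤ) < 3 ^ d := by positivity
  by_cases hz : κ1 * 3 ^ d - κ2 = 0
  · left
    have e : |κ2| = |κ1| * 3 ^ d := by
      rw [show κ2 = κ1 * 3 ^ d by linarith, abs_mul, abs_of_pos h3]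
    have a1 : (3 : ℤ) ^ d ≤ 2 ^ r := by nlinarith
    have a2 : (2 : ℤ) ^ d ≤ 3 ^ d := pow_le_pow_left₀ (by norm_num) (by norm_num) d
    exact (pow_le_pow_iff_right₀ (by norm_num : (1 : ℤ) < 2)).mp (a2.trans a1)
  · rcases Nat.eq_zero_or_pos d with hd | hd
    · left; omega
    right
    have a1 : (2 : ℤ) ^ (r + s) ≤ |κ1 * 3 ^ d - κ2| := Int.le_of_dvd (abs_pos.mpr hz) ((dvd_abs _ _).mpr c2)
    have a2 : |κ1 * 3 ^ d - κ2| ≤ |κ1| * 3 ^ d + |κ2| := by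
      have := abs_sub (κ1 * 3 ^ d) κ2
      rwa [abs_mul, abs_of_pos h3] at this
    have a3 : (2 : ℤ) ^ r * 2 ^ s ≤ 2 ^ r * (3 ^ d + 1) := by
      rw [← pow_add]; nlinarith
    have a4 : (2 : ℤ) ^ s ≤ 3 ^ d + 1 := le_of_mul_le_mul_left a3 (by positivity)
    have a5 : (3 : ℤ) ^ d < 4 ^ d := pow_lt_pow_left₀ (by norm_num) (by norm_num) (by omega)
    have a6 : (2 : ℤ) ^ s ≤ 2 ^ (2 * d) := by
      rw [pow_mul]; norm_num; omega
    exact (pow_le_pow_iff_right₀ (by norm_num : (1 : ℤ) < 2)).mp a6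

lemma five_lt {h x : ℕ} (H : (2 : ℤ) ^ h < 3 ^ x) : 5 * h < 8 * x := by
  have a1 : ((2 : ℤ) ^ h) ^ 5 < (3 ^ x) ^ 5 := pow_lt_pow_left₀ H (by positivity) (by norm_num)
  have a2 : ((3 : ℤ) ^ x) ^ 5 ≤ 2 ^ (8 * x) := by
    rw [← pow_mul, mul_comm x 5, pow_mul, pow_mul]
    exact pow_le_pow_left₀ (by norm_num) (by norm_num) x
  rw [← pow_mul] at a1
  have := (pow_lt_pow_iff_right₀ (by norm_num : (1 : ℤ) < 2)).mp (a1.trans_le a2)
  omega

lemma Dat.window_aux (D : Dat w0 n ξ u w) {i t h k G : ℕ} {v : ℤ} (hi : i < n) (hG : 0 < G)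
    (hb : 16 * |u i t| ≤ 3 ^ (n - i)) (hu : u i t = 2 ^ h * v) (hv : Odd v) :
    Bn (2 * (h / 2 + 1 + k)) (fun x => bad n u (2 * G) (i + x) (t + (h / 2 + 1 + k))) ≤
      Real.exp ((2 * k + 2) / 5 - h / 50) + ((2 * k + 3) / G + G * (2 / Real.sqrt (h + 1))) := by
  classical
  obtain ⟨r, hr, hr1, hr2⟩ : ∃ r, 2 * (h / 2 + 1 + k) = h + r ∧ 1 ≤ r ∧ r ≤ 2 * k + 2 :=
    ⟨2 - h % 2 + 2 * k, by omega, by omega, by omega⟩
  set τ := h / 2 + 1 + k with hτ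
  let g1 : ℕ → ℝ := fun x => if 2 * |v| * 3 ^ x ≤ 3 ^ (n - i) then 0 else 1
  let g2 : ℕ → ℝ := fun x =>
    if 2 * |v| * 3 ^ x ≤ 3 ^ (n - i) ∧ (2 : ℤ) ^ (2 * G) ∣ u (i + x) (t + τ) then 1 else 0
  have a1 : Bn (2 * τ) (fun x => bad n u (2 * G) (i + x) (t + τ)) ≤
      Bn (2 * τ) (fun x => g1 x + g2 x) := by
    apply Bn_mono
    intro x _
    by_cases hx : 2 * |v| * 3 ^ x ≤ 3 ^ (n - i)
    · have hlt := (D.up hi hu hv hr hr1 hx).1
      simp only [g1, g2, bad, hx, if_true, true_and, zero_add, not_le.mpr hlt, false_or, le_refl]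
    · simp only [g1, g2, bad, hx, if_false, false_and, add_zero]
      split_ifs <;> norm_num
  rw [Bn_add] at a1
  have hv1 := odd_abs_pos hv
  have hrr : (r : ℝ) ≤ 2 * k + 2 := by exact_mod_cast hr2
  have hLr : ((2 * τ : ℕ) : ℝ) = h + r := by rw [hr]; push_cast; ring
  have a2 : Bn (2 * τ) g1 ≤ Real.exp ((2 * k + 2) / 5 - h / 50) := by
    refine (tail_up (2 * τ) (1 / 10) (h / 4 - r) (by norm_num) g1 ?_ ?_).trans ?_
    · intro x; simp only [g1]; split_ifs <;> norm_num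
    · intro x hx
      simp only [g1]
      split_ifs with hc
      · exact le_rfl
      · exfalso
        push Not at hc
        rw [hu, abs_mul, abs_of_pos (by positivity : (0 : ℤ) < 2 ^ h)] at hb
        have h2 : (2 : ℤ) ^ h < 3 ^ x := by
          have : (0 : ℤ) < 2 ^ h := by positivity
          nlinarith
        have h3 : (5 : ℝ) * h < 8 * x := by exact_mod_cast five_lt h2
        rw [hLr] at hx
        linarith
    · apply Real.exp_le_exp.mpr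
      rw [hLr]
      have : (0 : ℝ) ≤ k := by positivity
      nlinarith
  have a3 : Bn (2 * τ) g2 ≤ (2 * k + 3) / G + G * (2 / Real.sqrt (h + 1)) := by
    refine (Bn_sparse (2 * τ) G hG (2 * k + 3) g2 ?_ ?_ ?_).trans ?_
    · intro x; simp only [g2]; split_ifs <;> norm_num
    · intro x; simp only [g2]; split_ifs <;> norm_num
    · intro x
      simp only [g2]
      rw [Finset.sum_boole]
      set J := (range G).filter (fun j => 2 * |v| * 3 ^ (x + j) ≤ 3 ^ (n - i) ∧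
        (2 : ℤ) ^ (2 * G) ∣ u (i + (x + j)) (t + τ)) with hJ
      rcases J.eq_empty_or_nonempty with he | hne
      · rw [he]; simp; positivity
      · have hj0 := J.min'_mem hne
        set j0 := J.min' hne
        have hsub : J ⊆ Icc j0 (j0 + (2 * k + 2)) := by
          intro j hj
          have hle : j0 ≤ j := J.min'_le j hj
          obtain ⟨d, rfl⟩ := Nat.exists_eq_add_of_le hle
          rw [hJ, mem_filter, mem_range] at hj hj0
          have := D.pair (x := x + j0) (d := d) (s := 2 * G) hi hu hv hr hr1 hj0.2.1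
            (by rw [add_assoc]; exact hj.2.1) hj0.2.2 (by rw [add_assoc x]; exact hj.2.2)
          rw [mem_Icc]
          omega
        have := card_le_card hsub
        rw [Nat.card_Icc] at this
        have h2 : J.card ≤ 2 * k + 3 := by omega
        exact_mod_cast h2
    · have h1 : Real.sqrt (h + 1) ≤ Real.sqrt (((2 * τ : ℕ) : ℝ) + 1) := by
        apply Real.sqrt_le_sqrt
        rw [hLr]
        have : (0 : ℝ) ≤ r := by positivity
        linarith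
      have h2 : 0 < Real.sqrt ((h : ℝ) + 1) := Real.sqrt_pos.mpr (by positivity)
      gcongr
  linarith

lemma window (γ : ℝ) (hγ : 0 < γ) (k : ℕ) : ∃ s h0 : ℕ, ∀ {w0 : ℝ} {n : ℕ} {ξ : ℤ}
    {u : ℕ → ℕ → ℤ} {w : ℕ → ℕ → ℝ}, Dat w0 n ξ u w → ∀ {i t h : ℕ} {v : ℤ}, i < n →
    16 * |u i t| ≤ 3 ^ (n - i) → u i t = 2 ^ h * v → Odd v → h0 ≤ h →
    Bn (2 * (h / 2 + 1 + k)) (fun x => bad n u s (i + x) (t + (h / 2 + 1 + k))) ≤ γ := by
  obtain ⟨G, hG⟩ := exists_nat_gt ((2 * k + 3) / (γ / 3))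
  have hG0 : (0 : ℝ) < G := lt_of_le_of_lt (by positivity) hG
  have hG1 : (2 * (k : ℝ) + 3) / G ≤ γ / 3 := by
    rw [div_lt_iff₀ (by positivity)] at hG
    rw [div_le_iff₀ hG0]; linarith
  have t1 : Filter.Tendsto (fun h : ℕ => Real.exp ((2 * k + 2) / 5 - h / 50)) Filter.atTop
      (nhds 0) := by
    apply Real.tendsto_exp_atBot.comp
    apply Filter.tendsto_atBot_add_const_left
    exact Filter.tendsto_neg_atTop_atBot.comp
      (tendsto_natCast_atTop_atTop.atTop_div_const (by norm_num))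
  have t2 : Filter.Tendsto (fun h : ℕ => (G : ℝ) * (2 / Real.sqrt (h + 1))) Filter.atTop
      (nhds 0) := by
    have : Filter.Tendsto (fun h : ℕ => Real.sqrt (h + 1)) Filter.atTop Filter.atTop :=
      Real.tendsto_sqrt_atTop.comp
        (Filter.tendsto_atTop_add_const_right _ 1 tendsto_natCast_atTop_atTop)
    simpa using (this.const_div_atTop 2).const_mul (G : ℝ)
  obtain ⟨h0, hh0⟩ := Filter.eventually_atTop.mp
    ((t1.eventually (ge_mem_nhds (show (0 : ℝ) < γ / 3 by positivity))).and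
      (t2.eventually (ge_mem_nhds (show (0 : ℝ) < γ / 3 by positivity))))
  refine ⟨2 * G, h0, ?_⟩
  intro w0 n ξ u w D i t h v hi hb hu hv hh
  have := D.window_aux (k := k) hi (by exact_mod_cast hG0) hb hu hv
  have h2 := hh0 h hh
  linarith [h2.1, h2.2]

end Pool.Agent.Lib.MP_76ba2b_nt
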