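import Mathlib

set_option autoImplicit false

namespace Pool.Agent.Lib.MP_76ba2b_nt

open Finset

/-- Average of `g` over the number of heads in `L` fair coin flips. -/
noncomputable def Bn : ℕ → (ℕ → ℝ) → ℝ
  | 0, g => g 0
  | L + 1, g => (Bn L g + Bn L (fun x => g (x + 1))) / 2

lemma Bn_zero (g : ℕ → ℝ) : Bn 0 g = g 0 := rfl

lemma Bn_succ (L : ℕ) (g : ℕ → ℝ) :
    Bn (L + 1) g = (Bn L g + Bn L (fun x => g (x + 1))) / 2 := rfl

lemma Bn_two (g : ℕ → ℝ) : Bn 2 g = (g 0 + 2 * g 1 + g 2) / 4 := by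
  simp only [Bn_succ, Bn_zero]; ring

lemma Bn_mono (L : ℕ) : ∀ {g g' : ℕ → ℝ}, (∀ x ≤ L, g x ≤ g' x) → Bn L g ≤ Bn L g' := by
  induction L with
  | zero => intro g g' h; exact h 0 le_rfl
  | succ L ih =>
    intro g g' h
    rw [Bn_succ, Bn_succ]
    have h1 := ih (g := g) (g' := g') (fun x hx => h x (by omega))
    have h2 := ih (g := fun x => g (x + 1)) (g' := fun x => g' (x + 1))
      (fun x hx => h (x + 1) (by omega))
    linarith

lemma Bn_add (L : ℕ) : ∀ g g' : ℕ → ℝ, Bn L (fun x => g x + g' x) = Bn L g + Bn L g' := by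
  induction L with
  | zero => intro g g'; rfl
  | succ L ih =>
    intro g g'
    rw [Bn_succ, Bn_succ, Bn_succ, ih g g', ih (fun x => g (x + 1)) (fun x => g' (x + 1))]
    ring

lemma Bn_mul (L : ℕ) (c : ℝ) : ∀ g : ℕ → ℝ, Bn L (fun x => c * g x) = c * Bn L g := by
  induction L with
  | zero => intro g; rfl
  | succ L ih =>
    intro g
    rw [Bn_succ, Bn_succ, ih g, ih (fun x => g (x + 1))]
    ring

lemma Bn_sub (L : ℕ) (g g' : ℕ → ℝ) : Bn L (fun x => g x - g' x) = Bn L g - Bn L g' := by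
  have h1 := Bn_add L g (fun x => (-1) * g' x)
  rw [Bn_mul] at h1
  have h2 : (fun x => g x - g' x) = fun x => g x + (-1) * g' x := by funext x; ring
  rw [h2, h1]; ring

lemma Bn_const (L : ℕ) (c : ℝ) : Bn L (fun _ => c) = c := by
  induction L with
  | zero => rfl
  | succ L ih => rw [Bn_succ, ih]; ring

lemma Bn_sum {ι : Type} (L : ℕ) (s : Finset ι) (g : ι → ℕ → ℝ) :
    Bn L (fun x => ∑ j ∈ s, g j x) = ∑ j ∈ s, Bn L (g j) := by
  classical
  induction s using Finset.induction_on with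
  | empty => simp [Bn_const]
  | insert a s ha ih =>
    simp only [Finset.sum_insert ha]
    rw [Bn_add, ih]

lemma Bn_nonneg (L : ℕ) {g : ℕ → ℝ} (h : ∀ x, 0 ≤ g x) : 0 ≤ Bn L g := by
  have := Bn_mono L (g := fun _ => 0) (g' := g) (fun x _ => h x)
  rwa [Bn_const] at this

lemma Bn_le_const (L : ℕ) {g : ℕ → ℝ} {c : ℝ} (h : ∀ x ≤ L, g x ≤ c) : Bn L g ≤ c := by
  have := Bn_mono L (g := g) (g' := fun _ => c) h
  rwa [Bn_const] at this

lemma Bn_add_len (L M : ℕ) : ∀ g : ℕ → ℝ,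
    Bn (L + M) g = Bn L (fun x => Bn M (fun y => g (x + y))) := by
  induction M with
  | zero => intro g; simp [Bn_zero]
  | succ M ih =>
    intro g
    rw [← add_assoc, Bn_succ, ih g, ih (fun x => g (x + 1))]
    simp only [Bn_succ]
    have := Bn_add L (fun x => Bn M (fun y => g (x + y))) (fun x => Bn M (fun y => g (x + y + 1)))
    have h2 := Bn_mul L (1 / 2) (fun x => Bn M (fun y => g (x + y)) + Bn M (fun y => g (x + y + 1)))
    rw [this] at h2
    have h3 : (fun x => (Bn M (fun y => g (x + y)) + Bn M (fun y => g (x + (y + 1)))) / 2) =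
        fun x => 1 / 2 * (Bn M (fun y => g (x + y)) + Bn M (fun y => g (x + y + 1))) := by
      funext x; simp only [add_assoc]; ring
    rw [h3, h2]; ring

lemma Bn_pow (L : ℕ) (z : ℝ) : Bn L (fun x => z ^ x) = ((1 + z) / 2) ^ L := by
  induction L with
  | zero => simp [Bn_zero]
  | succ L ih =>
    rw [Bn_succ, ih]
    have : (fun x => z ^ (x + 1)) = fun x => z * z ^ x := by funext x; ring
    rw [this, Bn_mul, ih]; ring

lemma Bn_exp (L : ℕ) (l : ℝ) :
    Bn L (fun x => Real.exp (l * (2 * (x : ℝ) - L))) ≤ Real.exp (l ^ 2 * L / 2) := by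
  have h1 : (fun x : ℕ => Real.exp (l * (2 * (x : ℝ) - L))) =
      fun x : ℕ => Real.exp (-l) ^ L * Real.exp (2 * l) ^ x := by
    funext x
    rw [← Real.exp_nat_mul, ← Real.exp_nat_mul, ← Real.exp_add]; congr 1; ring
  rw [h1, Bn_mul, Bn_pow, ← mul_pow]
  have h2 : Real.exp (-l) * ((1 + Real.exp (2 * l)) / 2) = Real.cosh l := by
    rw [Real.cosh_eq]
    have : Real.exp (-l) * Real.exp (2 * l) = Real.exp l := by
      rw [← Real.exp_add]; congr 1; ring
    linarith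
  rw [h2]
  have h3 : Real.exp (l ^ 2 * L / 2) = Real.exp (l ^ 2 / 2) ^ L := by
    rw [← Real.exp_nat_mul]; congr 1; ring
  rw [h3]
  exact pow_le_pow_left₀ (Real.cosh_pos l).le (Real.cosh_le_exp_half_sq l) L

/-- Upper tail. -/
lemma tail_up (L : ℕ) (l y : ℝ) (hl : 0 ≤ l) (g : ℕ → ℝ) (hg1 : ∀ x, g x ≤ 1)
    (hg : ∀ x : ℕ, 2 * (x : ℝ) - L < y → g x ≤ 0) :
    Bn L g ≤ Real.exp (l ^ 2 * L / 2 - l * y) := by
  have h1 : Bn L g ≤ Bn L (fun x => Real.exp (-(l * y)) * Real.exp (l * (2 * (x : ℝ) - L))) := by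
    apply Bn_mono
    intro x _
    rw [← Real.exp_add]
    by_cases h : 2 * (x : ℝ) - L < y
    · exact (hg x h).trans (Real.exp_pos _).le
    · refine (hg1 x).trans (Real.one_le_exp ?_)
      push Not at h
      nlinarith
  rw [Bn_mul] at h1
  refine h1.trans ?_
  rw [sub_eq_add_neg, Real.exp_add, mul_comm]
  exact mul_le_mul_of_nonneg_right (Bn_exp L l) (Real.exp_pos _).le

/-- Lower tail. -/
lemma tail_lo (L : ℕ) (l y : ℝ) (hl : 0 ≤ l) (g : ℕ → ℝ) (hg1 : ∀ x, g x ≤ 1)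
    (hg : ∀ x : ℕ, -y < 2 * (x : ℝ) - L → g x ≤ 0) :
    Bn L g ≤ Real.exp (l ^ 2 * L / 2 - l * y) := by
  have h1 : Bn L g ≤
      Bn L (fun x => Real.exp (-(l * y)) * Real.exp ((-l) * (2 * (x : ℝ) - L))) := by
    apply Bn_mono
    intro x _
    rw [← Real.exp_add]
    by_cases h : -y < 2 * (x : ℝ) - L
    · exact (hg x h).trans (Real.exp_pos _).le
    · refine (hg1 x).trans (Real.one_le_exp ?_)
      push Not at h
      nlinarith
  rw [Bn_mul] at h1
  refine h1.trans ?_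
  rw [sub_eq_add_neg, Real.exp_add, mul_comm]
  have := Bn_exp L (-l)
  rw [neg_sq] at this
  exact mul_le_mul_of_nonneg_right this (Real.exp_pos _).le

lemma Bn_stein (L : ℕ) : ∀ g : ℕ → ℝ,
    Bn (L + 1) (fun x => (2 * (x : ℝ) - (L + 1)) * g x) =
      ((L : ℝ) + 1) / 2 * Bn L (fun x => g (x + 1) - g x) := by
  induction L with
  | zero => intro g; simp [Bn_succ, Bn_zero]; ring
  | succ L ih =>
    intro g
    rw [Bn_succ (L + 1)]
    have e1 := ih g
    have e2 := ih (fun x => g (x + 1))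
    have a1 : (fun x : ℕ => (2 * (x : ℝ) - (((L + 1 : ℕ) : ℝ) + 1)) * g x) =
        fun x : ℕ => (2 * (x : ℝ) - (L + 1)) * g x - g x := by
      funext x; push_cast; ring
    have a2 : (fun x : ℕ => (2 * (((x + 1 : ℕ)) : ℝ) - (((L + 1 : ℕ) : ℝ) + 1)) * g (x + 1)) =
        fun x : ℕ => (2 * (x : ℝ) - (L + 1)) * g (x + 1) + g (x + 1) := by
      funext x; push_cast; ring
    rw [a1, a2, Bn_sub, Bn_add, e1, e2]
    have e3 : Bn (L + 1) (fun x => g (x + 1) - g x) =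
        Bn (L + 1) (fun x => g (x + 1)) - Bn (L + 1) g := Bn_sub _ _ _
    have e4 := Bn_succ L (fun x => g (x + 1) - g x)
    push_cast
    rw [e3] at e4 ⊢
    linear_combination (-((L : ℝ) + 1) / 2) * e4

lemma Bn_sq (L : ℕ) : Bn L (fun x => (2 * (x : ℝ) - L) ^ 2) = L := by
  cases L with
  | zero => simp [Bn_zero]
  | succ L =>
    have h := Bn_stein L (fun x => 2 * (x : ℝ) - (L + 1))
    have a1 : (fun x : ℕ => (2 * (x : ℝ) - ((L + 1 : ℕ) : ℝ)) ^ 2) =
        fun x : ℕ => (2 * (x : ℝ) - (L + 1)) * (2 * (x : ℝ) - (L + 1)) := by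
      funext x; push_cast; ring
    have a2 : (fun x : ℕ => 2 * ((x + 1 : ℕ) : ℝ) - (L + 1) - (2 * (x : ℝ) - (L + 1))) =
        fun _ => (2 : ℝ) := by
      funext x; push_cast; ring
    rw [a1, h, a2, Bn_const]; push_cast; ring

lemma Bn_shift (L : ℕ) (g : ℕ → ℝ) (h0 : ∀ x, 0 ≤ g x) (h1 : ∀ x, g x ≤ 1) :
    Bn L g ≤ Bn L (fun x => g (x + 1)) + 2 / Real.sqrt (L + 1) := by
  have hs := Bn_stein L g
  rw [Bn_sub] at hs
  set s := Real.sqrt ((L : ℝ) + 1) with hsdef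
  have hL : (0 : ℝ) < (L : ℝ) + 1 := by positivity
  have hpos : 0 < s := Real.sqrt_pos.mpr hL
  have hss : s * s = (L : ℝ) + 1 := Real.mul_self_sqrt hL.le
  have hb : Bn (L + 1) (fun x => (-(1 / (2 * s))) * (2 * (x : ℝ) - ((L + 1 : ℕ) : ℝ)) ^ 2 + (-(s / 2))) ≤
      Bn (L + 1) (fun x => (2 * (x : ℝ) - (L + 1)) * g x) := by
    apply Bn_mono
    intro x _
    push_cast
    set y := 2 * (x : ℝ) - (L + 1)
    have hy : -(1 / (2 * s)) * y ^ 2 + -(s / 2) ≤ -|y| := by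
      have : 1 / (2 * s) * y ^ 2 + s / 2 - |y| = (|y| - s) ^ 2 / (2 * s) := by
        rw [← sq_abs y]; field_simp; ring
      have h2 : 0 ≤ (|y| - s) ^ 2 / (2 * s) := by positivity
      linarith
    have h3 : -|y| ≤ y * g x := by
      have := h0 x; have := h1 x
      rcases abs_cases y with h | h <;> nlinarith
    linarith
  rw [Bn_add, Bn_mul, Bn_sq, Bn_const, hs] at hb
  push_cast at hb
  have e : -(1 / (2 * s)) * ((L : ℝ) + 1) + -(s / 2) = -s := by
    rw [← hss]; field_simp; ring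
  rw [e, ← hss] at hb
  have : Bn L g - Bn L (fun x => g (x + 1)) ≤ 2 / s := by
    rw [le_div_iff₀ hpos]; nlinarith
  linarith

lemma Bn_shift_iter (L : ℕ) (g : ℕ → ℝ) (h0 : ∀ x, 0 ≤ g x) (h1 : ∀ x, g x ≤ 1) (j : ℕ) :
    Bn L g ≤ Bn L (fun x => g (x + j)) + j * (2 / Real.sqrt (L + 1)) := by
  induction j with
  | zero => simp
  | succ j ih =>
    have := Bn_shift L (fun x => g (x + j)) (fun x => h0 _) (fun x => h1 _)
    have e : (fun x => g (x + 1 + j)) = fun x => g (x + (j + 1)) := by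
      funext x; congr 1; ring
    rw [e] at this
    push_cast
    linarith

/-- A sparse set is rarely hit. -/
lemma Bn_sparse (L G : ℕ) (hG : 0 < G) (c : ℝ) (g : ℕ → ℝ) (h0 : ∀ x, 0 ≤ g x)
    (h1 : ∀ x, g x ≤ 1) (hc : ∀ x, ∑ j ∈ range G, g (x + j) ≤ c) :
    Bn L g ≤ c / G + G * (2 / Real.sqrt (L + 1)) := by
  have hGr : (0 : ℝ) < G := by exact_mod_cast hG
  have hs : 0 ≤ 2 / Real.sqrt ((L : ℝ) + 1) := by positivity
  have a1 : ∑ _j ∈ range G, Bn L g ≤
      ∑ j ∈ range G, (Bn L (fun x => g (x + j)) + G * (2 / Real.sqrt (L + 1))) := by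
    apply sum_le_sum
    intro j hj
    refine (Bn_shift_iter L g h0 h1 j).trans ?_
    have : (j : ℝ) ≤ G := by exact_mod_cast (mem_range.mp hj).le
    nlinarith
  rw [sum_add_distrib] at a1
  have a2 : Bn L (fun x => ∑ j ∈ range G, g (x + j)) ≤ c := Bn_le_const L (fun x _ => hc x)
  rw [Bn_sum L (range G) (fun j x => g (x + j))] at a2
  simp only [sum_const, card_range, nsmul_eq_mul] at a1
  have : Bn L g - G * (2 / Real.sqrt (L + 1)) ≤ c / G := by
    rw [le_div_iff₀ hGr]; nlinarith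
  linarith

end Pool.Agent.Lib.MP_76ba2b_nt
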