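import Pool.Agent.Lib.MP_76ba2b_nt.Arith

set_option autoImplicit false

namespace Pool.Agent.Lib.MP_76ba2b_nt

open Finset

lemma poly_exp_bdd (A : ℕ) (c : ℝ) (hc : 0 < c) :
    ∃ C : ℝ, 0 ≤ C ∧ ∀ m : ℕ, ((m : ℝ) + 1) ^ A * Real.exp (-(c * m)) ≤ C := by
  refine ⟨A.factorial / c ^ A * Real.exp c, by positivity, ?_⟩
  intro m
  have h1 : (c * ((m : ℝ) + 1)) ^ A / A.factorial ≤ Real.exp (c * (m + 1)) :=
    Real.pow_div_factorial_le_exp _ (by positivity) A
  have hf : (0 : ℝ) < A.factorial := by exact_mod_cast A.factorial_pos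
  rw [div_le_iff₀ hf, mul_pow] at h1
  have h2 : ((m : ℝ) + 1) ^ A ≤ A.factorial / c ^ A * Real.exp (c * (m + 1)) := by
    rw [div_mul_eq_mul_div, le_div_iff₀ (by positivity)]; linarith
  calc ((m : ℝ) + 1) ^ A * Real.exp (-(c * m))
      ≤ A.factorial / c ^ A * Real.exp (c * (m + 1)) * Real.exp (-(c * m)) := by gcongr
    _ = A.factorial / c ^ A * Real.exp c := by
      rw [mul_assoc, ← Real.exp_add]; congr 2; ring

lemma exists_small_pow (A : ℕ) (ρ ρ' : ℝ) (h : ρ < ρ') :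
    ∃ s : ℝ, 0 < s ∧ (1 + s) ^ A * ρ ≤ ρ' := by
  have hc : ContinuousAt (fun s : ℝ => (1 + s) ^ A * ρ) 0 := by fun_prop
  have h1 : ∀ᶠ s in nhds (0 : ℝ), (1 + s) ^ A * ρ ≤ ρ' := by
    apply hc.eventually (ge_mem_nhds _)
    simpa using h
  obtain ⟨s, hs, hs'⟩ := ((h1.filter_mono nhdsWithin_le_nhds).and
    (self_mem_nhdsWithin (a := (0 : ℝ)) (s := Set.Ioi 0))).exists
  exact ⟨s, hs', hs⟩

variable {w0 : ℝ} {n : ℕ} {ξ : ℤ} {u : ℕ → ℕ → ℤ} {w : ℕ → ℕ → ℝ}

/-- Short crossings contract. -/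
lemma Dat.short (D : Dat w0 n ξ u w) {A : ℕ} {q ρ s : ℝ} (hs : 0 < s) (hq0 : 0 ≤ q)
    (hq : ∀ H t i, WP w H t (past n) i * (((n - i : ℕ) : ℝ) + 1) ^ A ≤ q) {H t i τ : ℕ}
    (hτ : Bn (2 * τ) (fun x => w (i + x) (t + τ)) ≤ ρ)
    (hA : (2 * τ + 2) * (1 + s) ≤ s * (((n - i : ℕ) : ℝ) + 1)) :
    WP w H t (past n) i * (((n - i : ℕ) : ℝ) + 1) ^ A ≤ (1 + s) ^ A * ρ * q := by
  set M : ℝ := ((n - i : ℕ) : ℝ) + 1 with hM
  have hM0 : 0 < M := by positivity
  have a0 := WP_past_mono D.nonneg D.wn (τ + 1) H t i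
  rw [add_comm H] at a0
  have a1 := WP_exit D.nonneg D.le_one τ H t i (past_nonneg n)
  have a2 : Bn (2 * τ) (fun x => w (i + x) (t + τ) *
        Bn 2 (fun y => WP w H (t + τ + 1) (past n) (i + x + y))) ≤
      Bn (2 * τ) (fun x => (q * (1 + s) ^ A / M ^ A) * w (i + x) (t + τ)) := by
    apply Bn_mono
    intro x hx
    rw [mul_comm _ (w _ _)]
    apply mul_le_mul_of_nonneg_left _ (D.nonneg _ _)
    apply Bn_le_const
    intro y hy
    have b1 := hq H (t + τ + 1) (i + x + y)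
    set M' : ℝ := ((n - (i + x + y) : ℕ) : ℝ) + 1 with hM'
    have b2 : M ≤ (1 + s) * M' := by
      have : n - i ≤ n - (i + x + y) + (2 * τ + 2) := by omega
      have : ((n - i : ℕ) : ℝ) ≤ ((n - (i + x + y) : ℕ) : ℝ) + (2 * τ + 2) := by exact_mod_cast this
      nlinarith
    have b3 : M ^ A ≤ (1 + s) ^ A * M' ^ A := by
      rw [← mul_pow]; exact pow_le_pow_left₀ hM0.le b2 A
    rw [le_div_iff₀ (by positivity)]
    have b4 := WP_nonneg D.nonneg H (t + τ + 1) (i + x + y) (past_nonneg n)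
    have b5 : (0 : ℝ) ≤ (1 + s) ^ A := by positivity
    nlinarith [mul_le_mul_of_nonneg_left b3 b4, mul_le_mul_of_nonneg_left b1 b5]
  rw [Bn_mul] at a2
  have a3 : WP w H t (past n) i ≤ (q * (1 + s) ^ A / M ^ A) * ρ :=
    (a0.trans a1).trans (a2.trans (mul_le_mul_of_nonneg_left hτ (by positivity)))
  rw [div_mul_eq_mul_div, le_div_iff₀ (by positivity)] at a3
  linarith

/-- Long crossings contract. -/
lemma Dat.long (D : Dat w0 n ξ u w) {A P : ℕ} {q γ : ℝ} (hq0 : 0 ≤ q)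
    (hq : ∀ H t i, WP w H t (past n) i * (((n - i : ℕ) : ℝ) + 1) ^ A ≤ q) {H t i τ : ℕ}
    (hτ : 5 * (2 * τ) ≤ 8 * (n - i) + 10)
    (hZ : Bn (2 * τ) (fun x => WP w P (t + τ) (fun _ => 1) (i + x)) ≤ γ) :
    WP w H t (past n) i * (((n - i : ℕ) : ℝ) + 1) ^ A ≤ 10 ^ A * γ * q +
      Real.exp (P + 1) * ((((n - i : ℕ) : ℝ) + 1) ^ A * Real.exp (-(1 / 100 * (n - i : ℕ)))) := by
  set m := n - i with hm
  set M : ℝ := (m : ℝ) + 1 with hM
  have hM0 : 0 < M := by positivity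
  have a0 := WP_past_mono D.nonneg D.wn (τ + P) H t i
  rw [add_comm H, add_assoc, WP_add] at a0
  have a1 := WP_le_Bn D.nonneg D.le_one τ t i
    (g := fun x => WP w (P + H) (t + τ) (past n) x)
    (fun x => WP_nonneg D.nonneg _ _ _ (past_nonneg n))
  let g : ℕ → ℝ := fun x => if 10 * (x + 2 * P) ≤ 9 * m then 0 else 1
  have a2 : Bn (2 * τ) (fun x => WP w (P + H) (t + τ) (past n) (i + x)) ≤
      Bn (2 * τ) (fun x => (q * 10 ^ A / M ^ A) * WP w P (t + τ) (fun _ => 1) (i + x) + g x) := by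
    apply Bn_mono
    intro x _
    have b0 : 0 ≤ WP w P (t + τ) (fun _ => 1) (i + x) :=
      WP_nonneg D.nonneg _ _ _ (fun _ => zero_le_one)
    by_cases hx : 10 * (x + 2 * P) ≤ 9 * m
    · simp only [g, hx, if_true, add_zero]
      rw [WP_add, ← WP_mul]
      apply WP_mono D.nonneg
      intro y hy
      have b1 := hq H (t + τ + P) (i + x + y)
      set M' : ℝ := ((n - (i + x + y) : ℕ) : ℝ) + 1 with hM'
      have b2 : M ≤ 10 * M' := by
        have : m ≤ 10 * (n - (i + x + y)) := by omega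
        have : (m : ℝ) ≤ 10 * ((n - (i + x + y) : ℕ) : ℝ) := by exact_mod_cast this
        linarith
      have b3 : M ^ A ≤ 10 ^ A * M' ^ A := by
        rw [← mul_pow]; exact pow_le_pow_left₀ hM0.le b2 A
      rw [mul_one, le_div_iff₀ (by positivity)]
      have b4 := WP_nonneg D.nonneg H (t + τ + P) (i + x + y) (past_nonneg n)
      have b5 : (0 : ℝ) ≤ 10 ^ A := by positivity
      nlinarith [mul_le_mul_of_nonneg_left b3 b4, mul_le_mul_of_nonneg_left b1 b5]
    · simp only [g, hx, if_false]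
      have b1 := WP_le_one D.nonneg D.le_one (P + H) (t + τ) (i + x) (past_nonneg n) (past_le_one n)
      have : 0 ≤ (q * 10 ^ A / M ^ A) * WP w P (t + τ) (fun _ => 1) (i + x) := by positivity
      linarith
  rw [Bn_add, Bn_mul] at a2
  have hτ' : 5 * ((2 * τ : ℕ) : ℝ) ≤ 8 * m + 10 := by exact_mod_cast hτ
  have a3 : Bn (2 * τ) g ≤ Real.exp (P + 1) * Real.exp (-(1 / 100 * m)) := by
    refine (tail_up (2 * τ) (1 / 10) (m / 5 - 4 * P - 2) (by norm_num) g ?_ ?_).trans ?_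
    · intro x; simp only [g]; split_ifs <;> norm_num
    · intro x hx
      simp only [g]
      split_ifs with hc
      · exact le_rfl
      · exfalso
        push Not at hc
        have : 9 * (m : ℝ) < 10 * (x + 2 * P) := by exact_mod_cast hc
        linarith
    · rw [← Real.exp_add]
      apply Real.exp_le_exp.mpr
      have : (0 : ℝ) ≤ P := by positivity
      have : (0 : ℝ) ≤ m := by positivity
      linarith
  have a4 : WP w H t (past n) i ≤ (q * 10 ^ A / M ^ A) * γ +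
      Real.exp (P + 1) * Real.exp (-(1 / 100 * m)) := by
    have := mul_le_mul_of_nonneg_left hZ (show 0 ≤ q * 10 ^ A / M ^ A by positivity)
    linarith
  have hMA : 0 < M ^ A := by positivity
  calc WP w H t (past n) i * M ^ A ≤ ((q * 10 ^ A / M ^ A) * γ +
      Real.exp (P + 1) * Real.exp (-(1 / 100 * m))) * M ^ A := by gcongr
    _ = _ := by field_simp

theorem decay (w0 : ℝ) (hw0 : 0 ≤ w0) (hw1 : w0 < 1) (A : ℕ) : ∃ C : ℝ, ∀ {n : ℕ} {ξ : ℤ}
    {u : ℕ → ℕ → ℤ} {w : ℕ → ℕ → ℝ}, Dat w0 n ξ u w → ∀ H t i,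
      WP w H t (past n) i * (((n - i : ℕ) : ℝ) + 1) ^ A ≤ C := by
  set ρ0 := (1 + w0) / 2 with hρ0
  set ρ1 := (1 + ρ0) / 2 with hρ1
  have h01 : ρ0 < ρ1 := by simp only [hρ0, hρ1]; linarith
  have h0 : 0 < ρ0 := by simp only [hρ0]; linarith
  have h1 : ρ1 < 1 := by simp only [hρ0, hρ1]; linarith
  obtain ⟨s, hs, hsA⟩ := exists_small_pow A ρ0 ρ1 h01
  set γ := ρ1 / (3 * 10 ^ A) with hγ
  have hγ0 : 0 < γ := by have : 0 < ρ1 := by linarith
                         positivity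
  obtain ⟨R, hR⟩ := exists_pow_lt_of_lt_one hγ0 (h01.trans h1)
  choose S h0' hS using fun k => window (γ / 2 ^ k) (by positivity) k
  obtain ⟨P, hP⟩ := many_white ρ0 h0.le R S
  set h0 := (range P).sup h0' with hh0
  obtain ⟨m0, hm0⟩ := exists_nat_ge ((h0 + 4) * (1 + s) / s)
  obtain ⟨C1, hC10, hC1⟩ := poly_exp_bdd A (1 / 100) (by norm_num)
  set C2 := Real.exp (P + 1) * C1 + ((m0 : ℝ) + 1) ^ A with hC2
  refine ⟨C2 / (1 - ρ1), ?_⟩
  intro n ξ u w D
  let F : ℕ × ℕ × ℕ → ℝ := fun p =>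
    WP w p.1 p.2.1 (past n) p.2.2 * (((n - p.2.2 : ℕ) : ℝ) + 1) ^ A
  have hQ1 : ∀ H t i, WP w H t (past n) i ≤ 1 :=
    fun H t i => WP_le_one D.nonneg D.le_one _ _ _ (past_nonneg n) (past_le_one n)
  have hQ0 : ∀ H t i, 0 ≤ WP w H t (past n) i :=
    fun H t i => WP_nonneg D.nonneg _ _ _ (past_nonneg n)
  have hle : ∀ H t i (k : ℕ), n - i ≤ k →
      WP w H t (past n) i * (((n - i : ℕ) : ℝ) + 1) ^ A ≤ ((k : ℝ) + 1) ^ A := by
    intro H t i k hk
    have : ((n - i : ℕ) : ℝ) ≤ k := by exact_mod_cast hk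
    calc WP w H t (past n) i * (((n - i : ℕ) : ℝ) + 1) ^ A ≤ 1 * ((k : ℝ) + 1) ^ A := by
          gcongr; exact hQ1 _ _ _
      _ = _ := one_mul _
  have hbdd : BddAbove (Set.range F) := by
    refine ⟨((n : ℝ) + 1) ^ A, ?_⟩
    rintro _ ⟨p, rfl⟩
    exact hle _ _ _ n (Nat.sub_le _ _)
  set q := ⨆ p, F p with hqdef
  have hq : ∀ H t i, WP w H t (past n) i * (((n - i : ℕ) : ℝ) + 1) ^ A ≤ q :=
    fun H t i => le_ciSup hbdd (H, t, i)
  have hq0 : 0 ≤ q := le_trans (mul_nonneg (hQ0 0 0 0) (by positivity)) (hq 0 0 0)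
  have hρq : 0 ≤ ρ1 * q := mul_nonneg (by linarith) hq0
  have he0 : 0 ≤ Real.exp (P + 1) * C1 := by positivity
  have hm00 : (0 : ℝ) ≤ ((m0 : ℝ) + 1) ^ A := by positivity
  have key : ∀ H t i, WP w H t (past n) i * (((n - i : ℕ) : ℝ) + 1) ^ A ≤ ρ1 * q + C2 := by
    intro H t i
    by_cases hm : n - i ≤ m0
    · have := hle H t i m0 hm
      linarith
    push Not at hm
    have hi : i < n := by omega
    have hmr : (h0 + 4) * (1 + s) ≤ s * (((n - i : ℕ) : ℝ) + 1) := by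
      rw [div_le_iff₀ hs] at hm0
      have : (m0 : ℝ) ≤ ((n - i : ℕ) : ℝ) := by exact_mod_cast hm.le
      nlinarith
    have short : ∀ τ : ℕ, Bn (2 * τ) (fun x => w (i + x) (t + τ)) ≤ ρ0 →
        (2 * τ + 2) * (1 + s) ≤ s * (((n - i : ℕ) : ℝ) + 1) →
        WP w H t (past n) i * (((n - i : ℕ) : ℝ) + 1) ^ A ≤ ρ1 * q + C2 := by
      intro τ hτ hA
      have := D.short hs hq0 hq (H := H) hτ hA
      have := mul_le_mul_of_nonneg_right hsA hq0
      linarith
    have hh00 : (0 : ℝ) ≤ h0 := by positivity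
    by_cases hw : 3 ^ (n - i) < 16 * |u i t|
    · apply short 0
      · have := D.white i t hi hw
        simp only [mul_zero, Bn_zero, add_zero]
        linarith
      · push_cast; nlinarith
    push Not at hw
    obtain ⟨h, v, hu, hv⟩ := exists_odd_part _ (D.ne_zero (t := t) hi)
    by_cases hh : h < h0
    · apply short (h / 2 + 1) (D.exit hw1.le hi hw hu hv)
      have : 2 * (h / 2 + 1) + 2 ≤ h0 + 4 := by omega
      have : 2 * ((h / 2 + 1 : ℕ) : ℝ) + 2 ≤ h0 + 4 := by exact_mod_cast this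
      nlinarith
    push Not at hh
    have hτ : 5 * (2 * (h / 2 + 1)) ≤ 8 * (n - i) + 10 := by
      have hv1 := odd_abs_pos hv
      rw [hu, abs_mul, abs_of_pos (by positivity : (0 : ℤ) < 2 ^ h)] at hw
      have h2 : (2 : ℤ) ^ h < 3 ^ (n - i) := by
        have : (0 : ℤ) < 2 ^ h := by positivity
        nlinarith
      have := five_lt h2
      omega
    have hZ : Bn (2 * (h / 2 + 1))
        (fun x => WP w P (t + (h / 2 + 1)) (fun _ => 1) (i + x)) ≤ 3 * γ := by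
      have b1 : Bn (2 * (h / 2 + 1))
          (fun x => WP w P (t + (h / 2 + 1)) (fun _ => 1) (i + x)) ≤ Bn (2 * (h / 2 + 1))
          (fun x => ρ0 ^ R + ∑ k ∈ range P, Bn (2 * k)
            (fun y => bad n u (S k) (i + x + y) (t + (h / 2 + 1) + k))) :=
        Bn_mono _ (fun x _ => hP w (bad n u) D.nonneg D.le_one bad_nonneg (D.hex hw1.le) _ _)
      rw [Bn_add, Bn_const, Bn_sum _ (range P) (fun k x => Bn (2 * k)
            (fun y => bad n u (S k) (i + x + y) (t + (h / 2 + 1) + k)))] at b1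
      have b2 : ∑ k ∈ range P, Bn (2 * (h / 2 + 1)) (fun x => Bn (2 * k)
            (fun y => bad n u (S k) (i + x + y) (t + (h / 2 + 1) + k))) ≤
          ∑ k ∈ range P, γ * (1 / 2) ^ k := by
        apply sum_le_sum
        intro k hk
        have c1 := hS k D hi hw hu hv ((Finset.le_sup (f := h0') hk).trans hh)
        rw [mul_add, Bn_add_len] at c1
        simp only [add_assoc] at c1 ⊢
        rw [one_div, inv_pow, ← div_eq_mul_inv]
        exact c1
      rw [← mul_sum] at b2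
      have b3 := sum_geometric_two_le P
      nlinarith
    have := D.long hq0 hq (H := H) hτ hZ
    have e : 10 ^ A * (3 * γ) = ρ1 := by rw [hγ]; field_simp
    rw [e] at this
    have h5 := mul_le_mul_of_nonneg_left (hC1 (n - i)) (Real.exp_pos (P + 1)).le
    linarith
  have hq1 : q ≤ ρ1 * q + C2 := ciSup_le (fun p => key _ _ _)
  intro H t i
  refine (hq H t i).trans ?_
  rw [le_div_iff₀ (by linarith)]
  linarith

end Pool.Agent.Lib.MP_76ba2b_nt
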