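import Mathlib

set_option autoImplicit false

namespace Pool.Agent.Lib.MP_76ba2b_nt

/-- The `3x+1` function. -/
def T (n : ℕ) : ℕ := if n % 2 = 0 then n / 2 else (3 * n + 1) / 2

end Pool.Agent.Lib.MP_76ba2b_nt
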