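import Pool.Agent.Lib.MP_76ba2b_nt.Mean
import Pool.Agent.Lib.MP_76ba2b_nt.Decay

set_option autoImplicit false

namespace Pool.Agent.Lib.MP_76ba2b_nt

open Finset

/-- The additive character `e(a / N)`. -/
noncomputable def EE (N : ℕ) (a : ℤ) : ℂ := Complex.exp (((2 * Real.pi * a / N : ℝ) : ℂ) * Complex.I)

lemma EE_add (N : ℕ) (a b : ℤ) : EE N (a + b) = EE N a * EE N b := by
  unfold EE; rw [← Complex.exp_add]; congr 1; push_cast; ring

lemma EE_zero (N : ℕ) : EE N 0 = 1 := by simp [EE]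

lemma norm_EE (N : ℕ) (a : ℤ) : ‖EE N a‖ = 1 := Complex.norm_exp_ofReal_mul_I _

lemma conj_EE (N : ℕ) (a : ℤ) : (starRingEnd ℂ) (EE N a) = EE N (-a) := by
  unfold EE
  rw [← Complex.exp_conj, map_mul, Complex.conj_ofReal, Complex.conj_I]
  congr 1; push_cast; ring

lemma EE_pow (N : ℕ) (a : ℤ) (b : ℕ) : EE N (a * b) = EE N a ^ b := by
  unfold EE; rw [← Complex.exp_nat_mul]; congr 1; push_cast; ring

lemma EE_eq_one_iff {N : ℕ} (hN : 0 < N) (a : ℤ) : EE N a = 1 ↔ (N : ℤ) ∣ a := by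
  have hN' : (N : ℂ) ≠ 0 := by exact_mod_cast hN.ne'
  have hpi : (Real.pi : ℂ) ≠ 0 := by exact_mod_cast Real.pi_ne_zero
  unfold EE
  rw [Complex.exp_eq_one_iff]
  constructor
  · rintro ⟨k, hk⟩
    refine ⟨k, ?_⟩
    push_cast at hk
    field_simp at hk
    exact_mod_cast hk
  · rintro ⟨k, rfl⟩
    exact ⟨k, by push_cast; field_simp⟩

lemma EE_congr {N : ℕ} (hN : 0 < N) {a b : ℤ} (h : (N : ℤ) ∣ a - b) : EE N a = EE N b := by
  rw [show a = b + (a - b) by ring, EE_add, (EE_eq_one_iff hN _).mpr h, mul_one]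

lemma EE_cancel (N d : ℕ) (hd : 0 < d) (a : ℤ) : EE (d * N) (d * a) = EE N a := by
  have hd' : (d : ℝ) ≠ 0 := by exact_mod_cast hd.ne'
  unfold EE; congr 3; push_cast
  rw [mul_left_comm, mul_div_mul_left _ _ hd']

lemma EE_orth {N : ℕ} (hN : 0 < N) (a : ℤ) :
    ∑ b ∈ range N, EE N (a * b) = if (N : ℤ) ∣ a then (N : ℂ) else 0 := by
  simp only [EE_pow]
  split_ifs with h
  · simp [(EE_eq_one_iff hN a).mpr h]
  · have h1 : EE N a ≠ 1 := fun hc => h ((EE_eq_one_iff hN a).mp hc)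
    have h2 : EE N a ^ N = 1 := by
      rw [← EE_pow, EE_eq_one_iff hN]; exact Dvd.intro_left _ rfl
    rw [geom_sum_eq h1, h2, sub_self, zero_div]

lemma parseval {ι : Type} {N : ℕ} (hN : 0 < N) (W : Finset ι) (α : ι → ℂ) (x : ι → ℤ) :
    ((∑ b ∈ range N, ‖∑ w ∈ W, α w * EE N (x w * b)‖ ^ 2 : ℝ) : ℂ) =
      ∑ w ∈ W, ∑ w' ∈ W, α w * (starRingEnd ℂ) (α w') *
        (if (N : ℤ) ∣ x w - x w' then (N : ℂ) else 0) := by
  push_cast
  simp only [← Complex.mul_conj', map_sum, map_mul, conj_EE, sum_mul_sum]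
  simp only [← EE_orth hN, mul_sum]
  rw [sum_comm]
  apply sum_congr rfl; intro w _
  rw [sum_comm]
  apply sum_congr rfl; intro w' _
  apply sum_congr rfl; intro b _
  rw [show (x w - x w') * (b : ℤ) = x w * b + -(x w' * b) by ring, EE_add]; ring

lemma parseval_inj {ι : Type} {N : ℕ} (hN : 0 < N) (W : Finset ι) (α : ι → ℂ) (x : ι → ℤ)
    (hx : ∀ w ∈ W, ∀ w' ∈ W, (N : ℤ) ∣ x w - x w' → w' = w) :
    ∑ b ∈ range N, ‖∑ w ∈ W, α w * EE N (x w * b)‖ ^ 2 = N * ∑ w ∈ W, ‖α w‖ ^ 2 := by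
  have := parseval hN W α x
  apply Complex.ofReal_injective
  rw [this]; push_cast
  rw [mul_sum]
  apply sum_congr rfl; intro w hw
  rw [sum_eq_single w]
  · rw [sub_self, if_pos (dvd_zero _), Complex.mul_conj']; ring
  · intro w' hw' hne
    rw [if_neg (fun h => hne (hx w hw w' hw' h)), mul_zero]
  · intro h; exact absurd hw h

lemma parseval_card {ι : Type} {N : ℕ} (hN : 0 < N) (W : Finset ι) (x : ι → ℤ) (J : ℝ)
    (hx : ∀ w ∈ W, ∑ w' ∈ W, (if (N : ℤ) ∣ x w - x w' then (1 : ℝ) else 0) ≤ J) :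
    ∑ b ∈ range N, ‖∑ w ∈ W, EE N (x w * b)‖ ^ 2 ≤ N * (W.card * J) := by
  have := parseval hN W (fun _ => 1) x
  simp only [one_mul, map_one] at this
  have e : ∑ b ∈ range N, ‖∑ w ∈ W, EE N (x w * b)‖ ^ 2 =
      ∑ w ∈ W, N * ∑ w' ∈ W, (if (N : ℤ) ∣ x w - x w' then (1 : ℝ) else 0) := by
    apply Complex.ofReal_injective
    rw [this]; push_cast
    apply sum_congr rfl; intro w _
    rw [mul_sum]
    apply sum_congr rfl; intro w' _
    split_ifs <;> simp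
  rw [e, ← mul_sum]
  apply mul_le_mul_of_nonneg_left _ (by positivity)
  calc _ ≤ ∑ _w ∈ W, J := sum_le_sum hx
    _ = _ := by rw [sum_const, nsmul_eq_mul]

lemma dd_expand (j : ℕ) (w : List Bool) (b : ℕ) :
    (dd j w b : ℂ) = ∑ ξ ∈ range (3 ^ j), EE (3 ^ j) ((2 ^ w.length * b - off w) * ξ) := by
  rw [EE_orth (by positivity), dd]
  have : 2 ^ w.length * b ≡ off w [MOD 3 ^ j] ↔
      ((3 ^ j : ℕ) : ℤ) ∣ 2 ^ w.length * (b : ℤ) - off w := by
    rw [Nat.modEq_iff_dvd, ← dvd_neg]; push_cast; rw [neg_sub]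
  simp only [this]
  split_ifs <;> simp

lemma dd_expand_le {m i : ℕ} (hm : m ≤ i) (w : List Bool) (b : ℕ) :
    (dd m w b : ℂ) = ∑ ξ ∈ (range (3 ^ i)).filter (fun ξ => 3 ^ (i - m) ∣ ξ),
      EE (3 ^ i) ((2 ^ w.length * b - off w) * ξ) := by
  rw [dd_expand]
  obtain ⟨d, rfl⟩ := Nat.exists_eq_add_of_le hm
  rw [Nat.add_sub_cancel_left]
  have hd : 0 < 3 ^ d := by positivity
  apply sum_bij (fun ξ _ => 3 ^ d * ξ)
  · intro ξ hξ
    rw [mem_filter, mem_range, pow_add, mul_comm (3 ^ m)]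
    exact ⟨Nat.mul_lt_mul_of_pos_left (mem_range.mp hξ) hd, Dvd.intro _ rfl⟩
  · intro a _ b _ h
    exact Nat.eq_of_mul_eq_mul_left hd h
  · intro ξ hξ
    rw [mem_filter, mem_range, pow_add, mul_comm (3 ^ m)] at hξ
    obtain ⟨c, rfl⟩ := hξ.2
    exact ⟨c, mem_range.mpr (Nat.lt_of_mul_lt_mul_left hξ.1), rfl⟩
  · intro ξ _
    rw [pow_add, mul_comm (3 ^ m), ← EE_cancel (3 ^ m) (3 ^ d) hd]
    congr 1; push_cast; ring

lemma dd_sub_expand {m i : ℕ} (hm : m ≤ i) (w : List Bool) (b : ℕ) :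
    ((dd i w b - dd m w b : ℝ) : ℂ) = ∑ ξ ∈ (range (3 ^ i)).filter (fun ξ => ¬ 3 ^ (i - m) ∣ ξ),
      EE (3 ^ i) ((2 ^ w.length * b - off w) * ξ) := by
  push_cast
  rw [dd_expand_le hm, dd_expand i, ← sum_filter_add_sum_filter_not _ (fun ξ => 3 ^ (i - m) ∣ ξ)]
  ring

lemma exists_rep (ξ : ℤ) (m t : ℕ) :
    ∃ v : ℤ, 2 * |v| < 3 ^ m ∧ (3 : ℤ) ^ m ∣ 4 ^ t * v - ξ := by
  obtain ⟨a, b, hab⟩ : IsCoprime ((4 : ℤ) ^ t) (3 ^ m) :=
    IsCoprime.pow (by norm_num [Int.isCoprime_iff_gcd_eq_one])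
  have hN : (0 : ℤ) < 3 ^ m := by positivity
  have hodd : Odd ((3 : ℤ) ^ m) := Odd.pow (by decide)
  obtain ⟨c, hc⟩ := hodd
  have h0 := Int.emod_nonneg (a * ξ) hN.ne'
  have h1 := Int.emod_lt_of_pos (a * ξ) hN
  have h2 := Int.emod_add_mul_ediv (a * ξ) (3 ^ m)
  set r := a * ξ % 3 ^ m
  set q := a * ξ / 3 ^ m
  by_cases h : 2 * r < 3 ^ m
  · refine ⟨r, by rwa [abs_of_nonneg h0], -(4 ^ t * q) - b * ξ, ?_⟩
    linear_combination (4 ^ t) * h2 + ξ * hab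
  · refine ⟨r - 3 ^ m, ?_, -(4 ^ t * q) - b * ξ - 4 ^ t, ?_⟩
    · rw [abs_of_nonpos (by linarith)]; omega
    · linear_combination (4 ^ t) * h2 + ξ * hab

/-- The weight attached to a residue. -/
noncomputable def wt (n : ℕ) (u : ℕ → ℕ → ℤ) (i t : ℕ) : ℝ :=
  if i < n then (3 + Real.cos (2 * Real.pi * u i t / ((3 ^ (n - i) : ℕ) : ℝ))) / 4 else 1

lemma exists_dat (n : ℕ) (ξ : ℤ) (hξ : ¬ (3 : ℤ) ∣ ξ) :
    ∃ u, Dat ((3 + Real.cos (Real.pi / 8)) / 4) n ξ u (wt n u) := by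
  choose u hu using fun i t => exists_rep ξ (n - i) t
  refine ⟨u, hξ, fun i t _ => (hu i t).1, fun i t _ => (hu i t).2, ?_, ?_, ?_, ?_⟩
  · intro i t; unfold wt; split_ifs
    · have := Real.neg_one_le_cos (2 * Real.pi * u i t / ((3 ^ (n - i) : ℕ) : ℝ)); linarith
    · norm_num
  · intro i t; unfold wt; split_ifs
    · have := Real.cos_le_one (2 * Real.pi * u i t / ((3 ^ (n - i) : ℕ) : ℝ)); linarith
    · norm_num
  · intro i t hi; unfold wt; rw [if_neg (by omega)]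
  · intro i t hi hw
    unfold wt; rw [if_pos hi]
    have h1 : 2 * |(u i t : ℝ)| < 3 ^ (n - i) := by exact_mod_cast (hu i t).1
    have h2 : (3 : ℝ) ^ (n - i) < 16 * |(u i t : ℝ)| := by exact_mod_cast hw
    have h3 : (0 : ℝ) < 3 ^ (n - i) := by positivity
    have hpi := Real.pi_pos
    have e : Real.cos (2 * Real.pi * u i t / ((3 ^ (n - i) : ℕ) : ℝ)) =
        Real.cos (2 * Real.pi * |(u i t : ℝ)| / 3 ^ (n - i)) := by
      rw [← Real.cos_abs, abs_div, abs_mul, abs_of_pos (by positivity : 0 < 2 * Real.pi)]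
      push_cast; rw [abs_of_pos h3]
    rw [e]
    have : Real.cos (2 * Real.pi * |(u i t : ℝ)| / 3 ^ (n - i)) ≤ Real.cos (Real.pi / 8) := by
      apply Real.cos_le_cos_of_nonneg_of_le_pi (by positivity)
      · rw [div_le_iff₀ h3]; nlinarith
      · rw [le_div_iff₀ h3]; nlinarith
    linarith

lemma norm_one_add_EE (N : ℕ) (a : ℤ) :
    ‖1 + EE N a‖ ^ 2 = 2 + 2 * Real.cos (2 * Real.pi * a / N) := by
  unfold EE
  rw [Complex.sq_norm, Complex.normSq_apply]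
  simp only [Complex.add_re, Complex.one_re, Complex.exp_ofReal_mul_I_re, Complex.add_im,
    Complex.one_im, Complex.exp_ofReal_mul_I_im]
  nlinarith [Real.sin_sq_add_cos_sq (2 * Real.pi * a / N)]

/-- Character sum over the words with a prescribed number of odd steps. -/
noncomputable def AA (n : ℕ) (η : ℤ) (κ L i : ℕ) : ℂ :=
  ∑ v ∈ Str L, if ones v + i = κ then EE (3 ^ n) (η * 3 ^ i * off v) else 0

lemma AA_succ (n : ℕ) (η : ℤ) (κ L i : ℕ) :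
    AA n η κ (L + 1) i = AA n η κ L i + EE (3 ^ n) (η * 3 ^ i * 2 ^ L) * AA n η κ L (i + 1) := by
  unfold AA
  rw [sum_Str_succ, mul_sum]
  congr 1
  apply sum_congr rfl
  intro v hv
  simp only [ones, off]
  rw [mem_Str.mp hv, show ones v + 1 + i = ones v + (i + 1) by ring]
  split_ifs
  · rw [← EE_add]; congr 1; push_cast; ring
  · simp

lemma AA_bound {n : ℕ} {η : ℤ} {κ H0 : ℕ} {u : ℕ → ℕ → ℤ} {w0 : ℝ} (hκ : n ≤ κ)
    (D : Dat w0 n (η * 4 ^ H0) u (wt n u)) (H : ℕ) : ∀ t i, H + t = H0 + 1 →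
    ‖AA n η κ (2 * H) i‖ ^ 2 ≤ (4 ^ H) ^ 2 * WP (wt n u) H t (past n) i := by
  induction H with
  | zero =>
    intro t i _
    simp only [AA, mul_zero, sum_Str_zero, ones, zero_add, WP_zero, past]
    split_ifs with h1 h2 h3
    · simp [norm_EE]
    · omega
    · simp
    · simp
  | succ H ih =>
    intro t i ht
    rw [show 2 * (H + 1) = 2 * H + 1 + 1 by ring, AA_succ, AA_succ, AA_succ, WP_succ, Bn_two]
    have i0 := ih (t + 1) i (by omega)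
    have i1 := ih (t + 1) (i + 1) (by omega)
    have i2 := ih (t + 1) (i + 1 + 1) (by omega)
    set A0 := AA n η κ (2 * H) i
    set A1 := AA n η κ (2 * H) (i + 1)
    set A2 := AA n η κ (2 * H) (i + 1 + 1)
    set y := η * 3 ^ i * 2 ^ (2 * H) with hy
    have e1 : η * 3 ^ i * 2 ^ (2 * H + 1) = y + y := by rw [hy]; ring
    rw [e1, EE_add]
    set z := EE (3 ^ n) y with hz
    set z' := EE (3 ^ n) (η * 3 ^ (i + 1) * 2 ^ (2 * H))
    have hzn : ‖z‖ = 1 := norm_EE _ _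
    have hzn' : ‖z'‖ = 1 := norm_EE _ _
    have a1 : ‖A0 + z * A1 + z * z * (A1 + z' * A2)‖ ≤ ‖A0‖ + ‖1 + z‖ * ‖A1‖ + ‖A2‖ := by
      rw [show A0 + z * A1 + z * z * (A1 + z' * A2) = A0 + z * (1 + z) * A1 + z * z * z' * A2 by ring]
      refine (norm_add₃_le).trans (le_of_eq ?_)
      simp only [norm_mul, hzn, hzn', one_mul]
    have a2 : 2 + ‖1 + z‖ ^ 2 / 2 ≤ 4 * wt n u i t := by
      unfold wt
      split_ifs with hi
      · have c1 := D.cong i t hi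
        have c2 : (3 : ℤ) ^ (n - i) ∣ 4 ^ t * (η * 2 ^ (2 * H) - u i t) := by
          rw [show H0 = H + t by omega] at c1
          have := dvd_neg.mpr c1
          rw [show -(4 ^ t * u i t - η * 4 ^ (H + t)) = 4 ^ t * (η * 2 ^ (2 * H) - u i t) by
            rw [pow_mul]; ring] at this
          exact this
        have c3 := (IsCoprime.pow (m := n - i) (n := t)
          (show IsCoprime (3 : ℤ) 4 by norm_num [Int.isCoprime_iff_gcd_eq_one])).dvd_of_dvd_mul_left c2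
        have e2 : z = EE (3 ^ (n - i)) (u i t) := by
          rw [hz, hy, show 3 ^ n = 3 ^ i * 3 ^ (n - i) by rw [← pow_add]; congr 1; omega,
            show η * 3 ^ i * 2 ^ (2 * H) = ((3 ^ i : ℕ) : ℤ) * (η * 2 ^ (2 * H)) by push_cast; ring,
            EE_cancel _ _ (by positivity)]
          exact EE_congr (by positivity) (by exact_mod_cast c3)
        rw [e2, norm_one_add_EE]; linarith
      · have : ‖1 + z‖ ≤ 2 := by
          refine (norm_add_le _ _).trans ?_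
          rw [hzn, norm_one]; norm_num
        nlinarith [norm_nonneg (1 + z)]
    simp only [add_zero]
    rw [show i + 2 = i + 1 + 1 by ring]
    set Q0 := WP (wt n u) H (t + 1) (past n) i
    set Q1 := WP (wt n u) H (t + 1) (past n) (i + 1)
    set Q2 := WP (wt n u) H (t + 1) (past n) (i + 1 + 1)
    set c := ‖1 + z‖
    have a3 : (‖A0‖ + c * ‖A1‖ + ‖A2‖) ^ 2 ≤
        (2 + c ^ 2 / 2) * (‖A0‖ ^ 2 + 2 * ‖A1‖ ^ 2 + ‖A2‖ ^ 2) := by
      nlinarith [sq_nonneg (‖A0‖ - ‖A2‖), sq_nonneg (c * ‖A0‖ / 2 - 2 * ‖A1‖ / 2 * 1 * 2 / 2),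
        sq_nonneg (c * ‖A0‖ - 2 * ‖A1‖), sq_nonneg (c * ‖A2‖ - 2 * ‖A1‖)]
    have a4 : ‖A0‖ ^ 2 + 2 * ‖A1‖ ^ 2 + ‖A2‖ ^ 2 ≤ (4 ^ H) ^ 2 * (Q0 + 2 * Q1 + Q2) := by linarith
    have a5 : 0 ≤ ‖A0‖ ^ 2 + 2 * ‖A1‖ ^ 2 + ‖A2‖ ^ 2 := by positivity
    calc _ ≤ (‖A0‖ + c * ‖A1‖ + ‖A2‖) ^ 2 := pow_le_pow_left₀ (norm_nonneg _) a1 2
      _ ≤ (4 * wt n u i t) * (‖A0‖ ^ 2 + 2 * ‖A1‖ ^ 2 + ‖A2‖ ^ 2) :=
        a3.trans (mul_le_mul_of_nonneg_right a2 a5)
      _ ≤ (4 * wt n u i t) * ((4 ^ H) ^ 2 * (Q0 + 2 * Q1 + Q2)) :=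
        mul_le_mul_of_nonneg_left a4 (by have := D.nonneg i t; positivity)
      _ = _ := by ring

theorem char_decay (A : ℕ) : ∃ C : ℝ, 0 ≤ C ∧ ∀ (n : ℕ) (η : ℤ) (κ H : ℕ), ¬ (3 : ℤ) ∣ η → n ≤ κ →
    ‖AA n η κ (2 * H) 0‖ ^ 2 ≤ (4 ^ H) ^ 2 * (C / ((n : ℝ) + 1) ^ A) := by
  have h1 : Real.cos (Real.pi / 8) < 1 := by
    rw [← Real.cos_zero]
    have := Real.pi_pos
    exact Real.cos_lt_cos_of_nonneg_of_le_pi le_rfl (by linarith) (by linarith)
  have h0 := Real.neg_one_le_cos (Real.pi / 8)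
  obtain ⟨C, hC⟩ := decay ((3 + Real.cos (Real.pi / 8)) / 4) (by linarith) (by linarith) A
  refine ⟨max C 0, le_max_right _ _, ?_⟩
  intro n η κ H hη hκ
  obtain ⟨u, D⟩ := exists_dat n (η * 4 ^ H) (by
    intro h
    rcases Int.prime_three.dvd_or_dvd h with h | h
    · exact hη h
    · have := Int.prime_three.dvd_of_dvd_pow h
      norm_num at this)
  refine (AA_bound hκ D H 1 0 rfl).trans (mul_le_mul_of_nonneg_left ?_ (by positivity))
  rw [le_div_iff₀ (by positivity)]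
  exact (hC D H 1 0).trans (le_max_left _ _)

end Pool.Agent.Lib.MP_76ba2b_nt
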