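import Pool.Agent.Lib.MP_76ba2b_nt.Tele

set_option autoImplicit false

namespace Pool.Agent.Lib.MP_76ba2b_nt

open Finset

lemma four_pow_three_pow (K : ℕ) : ∃ c : ℤ, (4 : ℤ) ^ 3 ^ K = 1 + 3 ^ (K + 1) * (1 + 3 * c) := by
  induction K with
  | zero => exact ⟨0, by norm_num⟩
  | succ K ih =>
    obtain ⟨c, hc⟩ := ih
    refine ⟨c + 3 ^ K * (1 + 3 * c) ^ 2 + 3 ^ (2 * K) * (1 + 3 * c) ^ 3, ?_⟩
    rw [pow_succ, pow_mul, hc]; ring

lemma exists_two_pow_int (a b : ℤ) (ha : ¬ 3 ∣ a) (hb : ¬ 3 ∣ b) (K : ℕ) :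
    ∃ j : ℕ, (3 : ℤ) ^ (K + 1) ∣ 2 ^ j * a - b := by
  induction K with
  | zero =>
    by_cases h : (3 : ℤ) ∣ a - b
    · exact ⟨0, by simpa using h⟩
    · refine ⟨1, ?_⟩
      have h1 : a % 3 = 1 ∨ a % 3 = 2 := by omega
      have h2 : b % 3 = 1 ∨ b % 3 = 2 := by omega
      norm_num
      rcases h1 with h1 | h1 <;> rcases h2 with h2 | h2 <;> omega
  | succ K ih =>
    obtain ⟨j, y, hy⟩ := ih
    obtain ⟨c, hc⟩ := four_pow_three_pow K
    have e : ∀ n : ℕ, (2 : ℤ) ^ (j + 2 * 3 ^ K * n) = 2 ^ j * (4 ^ 3 ^ K) ^ n := by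
      intro n; rw [pow_add, pow_mul, pow_mul]; norm_num
    have h2 : (2 : ℤ) ^ j * a = b + 3 ^ (K + 1) * y := by linarith
    have : (3 : ℤ) ∣ y ∨ (3 : ℤ) ∣ y + b ∨ (3 : ℤ) ∣ y + 2 * b := by
      have h1 : y % 3 = 0 ∨ y % 3 = 1 ∨ y % 3 = 2 := by omega
      have h2 : b % 3 = 1 ∨ b % 3 = 2 := by omega
      rcases h1 with h1 | h1 | h1 <;> rcases h2 with h2 | h2 <;> omega
    rcases this with ⟨z, hz⟩ | ⟨z, hz⟩ | ⟨z, hz⟩
    · exact ⟨j, z, by rw [hy, hz]; ring⟩
    · refine ⟨j + 2 * 3 ^ K * 1, z + b * c + 3 ^ K * y * (1 + 3 * c), ?_⟩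
      rw [e, hc, mul_right_comm, h2, show y = 3 * z - b by linarith]; ring
    · refine ⟨j + 2 * 3 ^ K * 2, z + 2 * b * c + 3 ^ K * b * (1 + 3 * c) ^ 2 +
        2 * 3 ^ K * y * (1 + 3 * c) + 3 ^ (2 * K + 1) * y * (1 + 3 * c) ^ 2, ?_⟩
      rw [e, hc, mul_right_comm, h2, show y = 3 * z - 2 * b by linarith]; ring

lemma exists_two_pow (a b : ℕ) (ha : ¬ 3 ∣ a) (hb : ¬ 3 ∣ b) (K J : ℕ) :
    ∃ j, J ≤ j ∧ 2 ^ j * a ≡ b [MOD 3 ^ K] := by
  obtain ⟨j, hj⟩ := exists_two_pow_int a b (by exact_mod_cast ha) (by exact_mod_cast hb) K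
  have h1 : 2 ^ j * a ≡ b [MOD 3 ^ K] := by
    apply Nat.ModEq.symm
    rw [Nat.modEq_iff_dvd]; push_cast
    exact (pow_dvd_pow 3 (Nat.le_succ K)).trans hj
  have h2 : 2 ^ Nat.totient (3 ^ K) ≡ 1 [MOD 3 ^ K] :=
    Nat.ModEq.pow_totient (Nat.Coprime.pow_right _ (by norm_num))
  have h3 : 0 < Nat.totient (3 ^ K) := Nat.totient_pos.mpr (by positivity)
  refine ⟨Nat.totient (3 ^ K) * J + j, by nlinarith, ?_⟩
  have h4 := (h2.pow J).mul h1
  rw [one_pow, one_mul, ← mul_assoc, ← pow_mul, ← pow_add] at h4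
  exact h4

lemma iterate_two_pow (j a : ℕ) : T^[j] (2 ^ j * a) = a := by
  induction j with
  | zero => simp
  | succ j ih => rw [Function.iterate_succ_apply, pow_succ', mul_assoc, T_two_mul, ih]

lemma exists_nonperiodic (a : ℕ) (ha : 0 < a) :
    ∃ J, ∀ j, J ≤ j → ∀ p, 0 < p → T^[p] (2 ^ j * a) ≠ 2 ^ j * a := by
  by_cases h : ∃ p0, 0 < p0 ∧ T^[p0] a = a
  · obtain ⟨p0, hp0, h⟩ := h
    refine ⟨(range p0).sup (fun n => T^[n] a), fun j hj p hp hc => ?_⟩
    have h1 : Function.IsPeriodicPt T p (2 ^ j * a) := hc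
    have h2 : T^[p * j] (2 ^ j * a) = 2 ^ j * a := h1.mul_const j
    obtain ⟨d, hd⟩ : ∃ d, p * j = d + j := ⟨p * j - j, by have := Nat.le_mul_of_pos_left j hp; omega⟩
    rw [hd, Function.iterate_add_apply, iterate_two_pow,
      ← Function.IsPeriodicPt.iterate_mod_apply (f := T) (n := p0) h] at h2
    have h3 : T^[d % p0] a ≤ (range p0).sup (fun n => T^[n] a) :=
      Finset.le_sup (f := fun n => T^[n] a) (mem_range.mpr (Nat.mod_lt _ hp0))
    have h4 : j < 2 ^ j := Nat.lt_two_pow_self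
    nlinarith
  · refine ⟨0, fun j _ p hp hc => h ⟨p, hp, ?_⟩⟩
    conv_lhs => rw [← iterate_two_pow j a]
    rw [← Function.iterate_add_apply, add_comm, Function.iterate_add_apply, hc, iterate_two_pow]

lemma discrete_ivt (f : ℕ → ℝ) (x : ℝ) (hf : ∀ t, f (t + 1) ≤ 2 * f t) (a : ℕ) (ha : f a < x) :
    ∀ b, a ≤ b → x ≤ f b → ∃ t ∈ Ioc a b, x ≤ f t ∧ f t < 2 * x := by
  intro b hab
  induction b, hab using Nat.le_induction with
  | base => intro h; linarith
  | succ b hab ih =>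
    intro h
    by_cases hb : x ≤ f b
    · obtain ⟨t, ht, h'⟩ := ih hb
      rw [mem_Ioc] at ht
      exact ⟨t, mem_Ioc.mpr ⟨ht.1, by omega⟩, h'⟩
    · exact ⟨b + 1, mem_Ioc.mpr ⟨by omega, le_rfl⟩, h, by linarith [hf b]⟩

lemma endp_take_le (w : List Bool) (s t : ℕ) : endp (w.take (t + 1)) s ≤ 2 * endp (w.take t) s := by
  rw [List.take_add_one]
  cases w[t]? with
  | none => simp; omega
  | some x => exact endp_snoc_le _ _ _

lemma valid_take {w : List Bool} {s : ℕ} (h : valid w s) (t : ℕ) : valid (w.take t) s := by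
  rw [← List.take_append_drop t w] at h
  exact ((valid_append _ _ s).mp h).1

/-- The set of integers in `[x, 2x)` that iterate to `a`. -/
def window_set (a : ℕ) (x : ℝ) : Set ℕ := {m | x ≤ m ∧ (m : ℝ) < 2 * x ∧ ∃ k, T^[k] m = a}

lemma window_finite (a : ℕ) (x : ℝ) : (window_set a x).Finite :=
  (Set.finite_lt_nat ⌈2 * x⌉₊).subset (fun _ hm => Nat.lt_ceil.mpr hm.2.1)

/-- First passage into the window. -/
lemma landing {a s j0 L L2 M m0 K : ℕ} {x D : ℝ} {G : Finset (List Bool)} (hx : 1 ≤ x)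
    (hs : T^[j0] s = a) (hnp : ∀ p, 0 < p → T^[p] s ≠ s)
    (hG : ∀ w ∈ G, w.length = L2 ∧ (valid w s → (endp (w.take L) s : ℝ) < x ∧ x ≤ endp w s))
    (hL : L ≤ L2) (hm : m0 ≤ M) (hK : L2 + M ≤ L + K) (hKx : (3 : ℝ) ^ K ≤ x)
    (hD : D ≤ (∑ w ∈ G, dl w s * gg M (endp w s)) / 2 ^ L2) :
    D ≤ s / x * ((window_set a x).ncard * 3 ^ m0 + 4 * x * Mean K (var m0 K)) := by
  classical
  let land : List Bool → Prop := fun w => valid w s ∧ x ≤ endp w s ∧ (endp w s : ℝ) < 2 * x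
  have hnn : ∀ w, 0 ≤ dl w s * gg M (endp w s) := fun w => mul_nonneg (dl_nonneg _ _) (gg_nonneg _ _)
  have a1 : ∑ w ∈ G, dl w s * gg M (endp w s) ≤ ∑ w ∈ Str L2, ∑ t ∈ Ioc L L2,
      if land (w.take t) then dl w s * gg M (endp w s) else 0 := by
    refine le_trans (sum_le_sum (g := fun w => ∑ t ∈ Ioc L L2,
      if land (w.take t) then dl w s * gg M (endp w s) else 0) ?_)
      (sum_le_sum_of_subset_of_nonneg (fun w hw => mem_Str.mpr (hG w hw).1)
        (fun w _ _ => sum_nonneg (fun t _ => by split_ifs; exacts [hnn w, le_rfl])))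
    intro w hw
    by_cases hv : valid w s
    · obtain ⟨b1, b2⟩ := (hG w hw).2 hv
      obtain ⟨t, ht, c1, c2⟩ := discrete_ivt (fun t => (endp (w.take t) s : ℝ)) x
        (fun t => by exact_mod_cast endp_take_le w s t) L b1 L2 hL
        (by rw [List.take_of_length_le (hG w hw).1.le]; exact b2)
      refine le_trans (le_of_eq ?_) (single_le_sum (f := fun t =>
        if land (w.take t) then dl w s * gg M (endp w s) else 0)
        (fun t _ => by split_ifs; exacts [hnn w, le_rfl]) ht)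
      rw [if_pos ⟨valid_take hv t, c1, c2⟩]
    · rw [dl_of_not_valid hv, zero_mul]
      exact sum_nonneg (fun t _ => by split_ifs <;> exact le_rfl)
  have hx0 : 0 < x := by linarith
  have a2 : ∀ t ∈ Ioc L L2, ∑ w ∈ Str L2,
      (if land (w.take t) then dl w s * gg M (endp w s) else 0) ≤
      2 ^ L2 * (s / x * ∑ w ∈ (Str t).filter land, (3 ^ m0 + var m0 K (endp w s))) := by
    intro t ht
    rw [mem_Ioc] at ht
    obtain ⟨d, rfl⟩ := Nat.exists_eq_add_of_le ht.2
    rw [sum_Str_add, sum_filter, mul_sum, mul_sum]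
    apply sum_le_sum
    intro w hw
    have hl := mem_Str.mp hw
    simp only [List.take_left' hl]
    split_ifs with h
    · simp only [dl_append, endp_append, mul_assoc, ← mul_sum]
      have c1 : ∑ v ∈ Str d, dl v (endp w s) * gg M (endp v (endp w s)) =
          2 ^ d * gg (d + M) (endp w s) := by
        rw [gg_add]; field_simp
      have c2 : gg (d + M) (endp w s) ≤ 3 ^ m0 + var m0 K (endp w s) := by
        have := abs_sub_le_var (M := m0) (j := d + M) (K := K) (by omega) (by omega) (endp w s)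
        have := gg_le m0 (endp w s)
        linarith [(abs_le.mp ‹|_| ≤ _›).2]
      have c3 : dl w s ≤ 2 ^ t * (s / x) := by
        rw [dl_of_valid h.1, ← mul_div_assoc, le_div_iff₀ hx0]
        have e := endp_eq w s h.1
        rw [hl] at e
        have e2 : (3 : ℝ) ^ ones w * endp w s ≤ 2 ^ t * s := by
          exact_mod_cast (show 3 ^ ones w * endp w s ≤ 2 ^ t * s by omega)
        exact (mul_le_mul_of_nonneg_left h.2.1 (by positivity)).trans e2
      rw [c1, pow_add]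
      have := gg_nonneg (d + M) (endp w s)
      calc dl w s * (2 ^ d * gg (d + M) (endp w s))
          ≤ (2 ^ t * (s / x)) * (2 ^ d * (3 ^ m0 + var m0 K (endp w s))) := by gcongr
        _ = _ := by ring
    · simp
  rw [sum_comm] at a1
  have a3 := a1.trans (sum_le_sum a2)
  rw [← mul_sum, ← mul_sum, sum_sigma'] at a3
  refine hD.trans ?_
  rw [div_le_iff₀ (by positivity), mul_comm]
  refine a3.trans (mul_le_mul_of_nonneg_left (mul_le_mul_of_nonneg_left ?_ (by positivity))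
    (by positivity))
  set U := (Ioc L L2).sigma (fun t => (Str t).filter land) with hU
  have hUm : ∀ p ∈ U, p.2.length = p.1 ∧ land p.2 := by
    intro p hp
    rw [hU, mem_sigma, mem_filter, mem_Str] at hp
    exact hp.2
  have inj : Set.InjOn (fun p : (_ : ℕ) × List Bool => endp p.2 s) U := by
    rintro ⟨t, w⟩ hp ⟨t', w'⟩ hp' he
    obtain ⟨b1, b2⟩ := hUm _ hp
    obtain ⟨b1', b2'⟩ := hUm _ hp'
    simp only at b1 b2 b1' b2' he
    have c1 := iterate_endp w s b2.1
    have c2 := iterate_endp w' s b2'.1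
    rw [b1] at c1
    rw [b1', ← he] at c2
    have htt : t = t' := by
      rcases lt_trichotomy t t' with h | h | h
      · exfalso
        apply hnp (t' - t) (by omega)
        conv_lhs => rw [← c1]
        rw [← Function.iterate_add_apply, Nat.sub_add_cancel h.le, c2]
      · exact h
      · exfalso
        apply hnp (t - t') (by omega)
        conv_lhs => rw [← c2]
        rw [← Function.iterate_add_apply, Nat.sub_add_cancel h.le, c1]
    subst htt
    rw [endp_inj w w' s (b1.trans b1'.symm) b2.1 b2'.1 he]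
  rw [← sum_image (f := fun c => (3 : ℝ) ^ m0 + var m0 K c) inj, sum_add_distrib, sum_const,
    nsmul_eq_mul]
  set S := U.image (fun p : (_ : ℕ) × List Bool => endp p.2 s) with hS
  have hSsub : (S : Set ℕ) ⊆ window_set a x := by
    intro c hc
    obtain ⟨p, hp, rfl⟩ := mem_image.mp (mem_coe.mp hc)
    obtain ⟨-, b2⟩ := hUm p hp
    exact ⟨b2.2.1, b2.2.2, j0 + p.2.length, by
      rw [Function.iterate_add_apply, iterate_endp _ _ b2.1, hs]⟩
  apply add_le_add
  · have := Set.ncard_le_ncard hSsub (window_finite a x)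
    rw [Set.ncard_coe_finset] at this
    have : (S.card : ℝ) ≤ (window_set a x).ncard := by exact_mod_cast this
    gcongr
  · refine ((var_per m0 K).sum_le (var_nonneg m0 K) (a := 0) (D := ⌈2 * x⌉₊) ?_).trans ?_
    · intro c hc
      exact ⟨Nat.zero_le _, by rw [zero_add]; exact Nat.lt_ceil.mpr (hSsub hc).2.1⟩
    · have := (Nat.ceil_lt_add_one (show 0 ≤ 2 * x by linarith)).le
      exact mul_le_mul_of_nonneg_right (by linarith) (Mean_nonneg _ (var_nonneg m0 K))

lemma log_three_le : 5 * Real.log 3 ≤ 8 * Real.log 2 := by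
  have h1 : Real.log ((3 : ℝ) ^ 5) ≤ Real.log ((2 : ℝ) ^ 8) :=
    Real.log_le_log (by norm_num) (by norm_num)
  rw [Real.log_pow, Real.log_pow] at h1
  exact_mod_cast h1

lemma endp_upper {w : List Bool} {s L : ℕ} (hv : valid w s) (hl : w.length = L)
    (ht : typ (ones w) L) :
    (endp w s : ℝ) ≤ s * Real.exp (L * (Real.log 2 - 399 / 800 * Real.log 3)) := by
  have e := endp_eq w s hv
  rw [hl] at e
  have e2 : (3 : ℝ) ^ ones w * endp w s ≤ 2 ^ L * s := by
    exact_mod_cast (show 3 ^ ones w * endp w s ≤ 2 ^ L * s by omega)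
  have h3 : 0 < Real.log 3 := Real.log_pos (by norm_num)
  have h4 : 399 * (L : ℝ) ≤ 800 * ones w := by exact_mod_cast ht.2
  have h5 : (2 : ℝ) ^ L ≤ 3 ^ ones w * Real.exp (L * (Real.log 2 - 399 / 800 * Real.log 3)) := by
    rw [← Real.exp_log (show (0 : ℝ) < 2 ^ L by positivity),
      ← Real.exp_log (show (0 : ℝ) < 3 ^ ones w by positivity), ← Real.exp_add, Real.log_pow,
      Real.log_pow]
    apply Real.exp_le_exp.mpr
    nlinarith
  have h6 : (0 : ℝ) < 3 ^ ones w := by positivity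
  apply le_of_mul_le_mul_left _ h6
  refine e2.trans ?_
  have := mul_le_mul_of_nonneg_right h5 (show (0 : ℝ) ≤ s by positivity)
  linarith

lemma endp_lower {w : List Bool} {s L : ℕ} (hv : valid w s) (hl : w.length = L)
    (ht : typ (ones w) L) (ho : off w + 2 ^ L ≤ 2 ^ L * s) :
    Real.exp (L * (Real.log 2 - 401 / 800 * Real.log 3)) ≤ (endp w s : ℝ) := by
  have e := endp_eq w s hv
  rw [hl] at e
  have e2 : (2 : ℝ) ^ L ≤ 3 ^ ones w * endp w s := by
    exact_mod_cast (show 2 ^ L ≤ 3 ^ ones w * endp w s by omega)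
  have h3 : 0 < Real.log 3 := Real.log_pos (by norm_num)
  have h4 : 800 * (ones w : ℝ) ≤ 401 * L := by exact_mod_cast ht.1
  have h5 : 3 ^ ones w * Real.exp (L * (Real.log 2 - 401 / 800 * Real.log 3)) ≤ (2 : ℝ) ^ L := by
    rw [← Real.exp_log (show (0 : ℝ) < 2 ^ L by positivity),
      ← Real.exp_log (show (0 : ℝ) < 3 ^ ones w by positivity), ← Real.exp_add, Real.log_pow,
      Real.log_pow]
    apply Real.exp_le_exp.mpr
    nlinarith
  have h6 : (0 : ℝ) < 3 ^ ones w := by positivity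
  exact le_of_mul_le_mul_left (h5.trans e2) h6

theorem large_x (a : ℕ) (ha : 0 < a) (h3 : ¬ 3 ∣ a) :
    ∃ c x0 : ℝ, 0 < c ∧ ∀ x, x0 ≤ x → c * x ≤ (window_set a x).ncard := by
  obtain ⟨L1, hL1, hlow⟩ := Phi_lower
  obtain ⟨L1', hmean⟩ := Phi_zero_mean
  obtain ⟨C, hC, hmix⟩ := mixing
  set L0 := max L1 L1' with hL0
  have h6 : 6000 ≤ L0 := hL1.trans (le_max_left _ _)
  obtain ⟨b, hb⟩ := exists_mean_le (L0 + L0 / 30) (Phi L0 0)
  have hb1 := (hmean L0 (le_max_right _ _)).trans hb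
  have hb3 : ¬ 3 ∣ b := by
    intro h
    have c1 := hb1.trans (Phi_zero_le L0 b)
    rw [gg_three _ b h, div_le_div_iff₀ (by norm_num) (by positivity)] at c1
    have : (2 : ℝ) ^ 2 ≤ 2 ^ (L0 + L0 / 30) := pow_le_pow_right₀ (by norm_num) (by omega)
    linarith
  obtain ⟨J, hJ⟩ := exists_nonperiodic a ha
  obtain ⟨j, hj, hjb⟩ := exists_two_pow a b h3 hb3 (L0 + L0 / 30) (max J (L0 + 2))
  set s := 2 ^ j * a with hs
  have hnp := hJ j (le_of_max_le_left hj)
  have hsL : L0 + 2 ≤ s := by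
    have h4 : j < 2 ^ j := Nat.lt_two_pow_self
    have := le_of_max_le_right hj
    nlinarith
  have hPhi := hlow L0 s (le_max_left _ _) (by rw [(Phi_zero_per L0).modEq hjb]; exact hb1)
  have hs1 : (1 : ℝ) ≤ s := by exact_mod_cast (show 1 ≤ s by omega)
  obtain ⟨m1, hm1⟩ := exists_nat_ge (32 * s * C)
  obtain ⟨m0, hm0⟩ : ∃ m0, m0 = m1 + 200 := ⟨_, rfl⟩
  have hm0C : 4 * s * (C / (m0 : ℝ) ^ 4) ≤ 1 / 8 := by
    have c1 : (m1 : ℝ) + 200 = m0 := by rw [hm0]; push_cast; ring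
    have c0 : (0 : ℝ) ≤ m1 := by positivity
    have c2 : (m0 : ℝ) ≤ (m0 : ℝ) ^ 4 := le_self_pow₀ (by linarith) (by norm_num)
    rw [← mul_div_assoc, div_le_iff₀ (by linarith)]
    linarith
  set ap := Real.log 2 - 399 / 800 * Real.log 3 with hap
  set am := Real.log 2 - 401 / 800 * Real.log 3 with ham
  have l2 := Real.log_two_gt_d9
  have l3 : 0 < Real.log 3 := Real.log_pos (by norm_num)
  have l23 := log_three_le
  have hap0 : 1 / 10 ≤ ap := by rw [hap]; linarith
  let up : ℕ → ℝ := fun r => s * Real.exp (LL L0 r * ap)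
  obtain ⟨R0, hR0⟩ : ∃ R0, R0 = 1000 * (s + 1) + m0 := ⟨_, rfl⟩
  refine ⟨1 / (8 * s * 3 ^ m0), up R0 + 1, by positivity, fun x hx => ?_⟩
  have hex : ∃ r, x ≤ up (R0 + r + 1) := by
    obtain ⟨r, hr⟩ := exists_nat_ge (10 * x)
    refine ⟨r, ?_⟩
    have c1 := LL_ge (L0 := L0) (by omega) (R0 + r + 1)
    have c2 : (r : ℝ) ≤ LL L0 (R0 + r + 1) := by exact_mod_cast (show r ≤ _ by omega)
    have c3 := Real.add_one_le_exp (LL L0 (R0 + r + 1) * ap)
    have c4 : (0 : ℝ) ≤ r := by positivity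
    simp only [up]
    nlinarith [Real.exp_pos (LL L0 (R0 + r + 1) * ap)]
  classical
  set r := R0 + Nat.find hex with hr
  have h1 : x ≤ up (r + 1) := Nat.find_spec hex
  have h2 : up r < x := by
    rcases Nat.eq_zero_or_pos (Nat.find hex) with h | h
    · rw [hr, h, add_zero]; linarith
    · have := Nat.find_min hex (Nat.sub_lt h one_pos)
      rw [show R0 + (Nat.find hex - 1) + 1 = r by omega] at this
      exact not_le.mp this
  have hLr := LL_ge (L0 := L0) (by omega) r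
  set L := LL L0 r with hL
  have e1 : LL L0 (r + 1) = L + L / 30 := rfl
  set L' := LL L0 (r + 1) with hL'
  have e2 : LL L0 (r + 2) = L' + L' / 30 := rfl
  set L2 := LL L0 (r + 2) with hL2
  have hexp : Real.exp (L * ap) < x := by
    have := Real.exp_pos (L * ap)
    simp only [up] at h2
    nlinarith
  have hx1 : 1 ≤ x := by
    have : 1 ≤ Real.exp (L * ap) := Real.one_le_exp (by positivity)
    linarith
  have key := landing (a := a) (s := s) (j0 := j) (L := L) (L2 := L2) (M := L2 / 30) (m0 := m0)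
    (K := L2 + L2 / 30 - L) (x := x) (D := 1 / 4) (G := GG L0 (r + 2)) hx1 (iterate_two_pow j a)
    hnp ?_ (by omega) (by omega) (by omega) ?_ (hPhi (r + 2))
  · have c1 := hmix m0 (L2 + L2 / 30 - L) (by omega)
    have hx0 : 0 < x := by linarith
    have c2 : s / x * (4 * x * Mean (L2 + L2 / 30 - L) (var m0 (L2 + L2 / 30 - L))) ≤ 1 / 8 := by
      refine le_trans ?_ hm0C
      calc _ ≤ s / x * (4 * x * (C / (m0 : ℝ) ^ 4)) := by gcongr
        _ = _ := by field_simp
    rw [mul_add] at key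
    have c3 : 1 / 8 ≤ s / x * ((window_set a x).ncard * 3 ^ m0) := by linarith
    rw [div_mul_eq_mul_div, le_div_iff₀ hx0] at c3
    rw [div_mul_eq_mul_div, div_le_iff₀ (by positivity)]
    linarith
  · intro w hw
    refine ⟨GG_length hw, fun hv => ⟨?_, ?_⟩⟩
    · have g1 : w.take L' ∈ GG L0 (r + 1) := (mem_filter.mp hw).2.1
      have g2 : (w.take L').take L ∈ GG L0 r := (mem_filter.mp g1).2.1
      rw [List.take_take, min_eq_left (by omega)] at g2
      exact (endp_upper (valid_take hv L) (GG_length g2)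
        (GG_inv (by omega) r _ g2).1).trans_lt h2
    · refine le_trans ?_ (endp_lower hv (GG_length hw) (GG_inv (by omega) _ _ hw).1 ?_)
      · refine h1.trans ?_
        simp only [up]
        rw [← Real.exp_log (show (0 : ℝ) < s by linarith), ← Real.exp_add]
        apply Real.exp_le_exp.mpr
        have c1 : Real.log s ≤ s := (Real.log_le_sub_one_of_pos (by linarith)).trans (by linarith)
        have c2 : 31 * (L' : ℝ) ≤ 30 * L2 + 30 := by exact_mod_cast (show 31 * L' ≤ 30 * L2 + 30 by omega)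
        have c3 : 1000 * ((s : ℝ) + 1) ≤ L' := by exact_mod_cast (show 1000 * (s + 1) ≤ L' by omega)
        have c4 : 0 ≤ am := by rw [ham]; linarith
        have c5 : (31 / 30 * (L' : ℝ) - 1) * am ≤ L2 * am := by gcongr; linarith
        have c6 : 1 / 600 ≤ 31 / 30 * am - ap := by rw [ham, hap]; linarith
        have c7 : am ≤ 1 := by rw [ham]; linarith [Real.log_two_lt_d9]
        rw [← hL2, ← ham, ← hL']
        nlinarith
      · have := GG_off (L0 := L0) (by omega) hw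
        nlinarith [Nat.mul_le_mul_left (2 ^ LL L0 (r + 2)) hsL]
  · refine le_trans ?_ hexp.le
    rw [← Real.exp_log (show (0 : ℝ) < 3 ^ (L2 + L2 / 30 - L) by positivity), Real.log_pow]
    apply Real.exp_le_exp.mpr
    have c1 : 9 * ((L2 + L2 / 30 - L : ℕ) : ℝ) ≤ L := by
      exact_mod_cast (show 9 * (L2 + L2 / 30 - L) ≤ L by omega)
    have c2 : Real.log 3 ≤ 9 * ap := by rw [hap]; linarith
    have c3 : (0 : ℝ) ≤ ((L2 + L2 / 30 - L : ℕ) : ℝ) := by positivity
    nlinarith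

lemma window_pos (a : ℕ) (ha : 0 < a) (x : ℝ) (hx : (a : ℝ) ≤ x) : 1 ≤ (window_set a x).ncard := by
  have ha' : (1 : ℝ) ≤ a := by exact_mod_cast ha
  have : (window_set a x).Nonempty := by
    rcases hx.eq_or_lt with h | h
    · exact ⟨a, h.ge, by linarith, 0, rfl⟩
    · obtain ⟨n, hn⟩ := exists_nat_ge x
      have h1 : (n : ℝ) ≤ 2 ^ n := by exact_mod_cast (Nat.lt_two_pow_self (n := n)).le
      have h2 : (0 : ℝ) < 2 ^ n := by positivity
      obtain ⟨t, -, c1, c2⟩ := discrete_ivt (fun t => ((2 ^ t * a : ℕ) : ℝ)) x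
        (fun t => by push_cast; rw [pow_succ]; linarith) 0 (by simpa using h) n (Nat.zero_le n)
        (by push_cast; nlinarith)
      exact ⟨_, c1, c2, t, iterate_two_pow t a⟩
  exact (Set.ncard_pos (window_finite a x)).mpr this

theorem main (a : ℕ) (ha : 0 < a) (h3 : ¬ 3 ∣ a) :
    ∃ c : ℝ, 0 < c ∧ ∀ x : ℝ, (a : ℝ) ≤ x → c * x ≤ (window_set a x).ncard := by
  obtain ⟨c, x0, hc, h⟩ := large_x a ha h3
  refine ⟨min c (1 / max x0 1), lt_min hc (by positivity), fun x hx => ?_⟩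
  have hx0 : 0 ≤ x := le_trans (by positivity) hx
  by_cases h1 : x0 ≤ x
  · exact le_trans (mul_le_mul_of_nonneg_right (min_le_left _ _) hx0) (h x h1)
  · have h2 : (1 : ℝ) ≤ (window_set a x).ncard := by exact_mod_cast window_pos a ha x hx
    refine le_trans (mul_le_mul_of_nonneg_right (min_le_right _ _) hx0) (le_trans ?_ h2)
    rw [div_mul_eq_mul_div, div_le_one (by positivity), one_mul]
    exact (not_le.mp h1).le.trans (le_max_left _ _)

end Pool.Agent.Lib.MP_76ba2b_nt
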