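import Pool.Agent.Lib.MP_76ba2b_nt.Words

set_option autoImplicit false

namespace Pool.Agent.Lib.MP_76ba2b_nt

open Finset

/-- Mean over the residues modulo `3 ^ K`. -/
noncomputable def Mean (K : ℕ) (h : ℕ → ℝ) : ℝ := (∑ b ∈ range (3 ^ K), h b) / 3 ^ K

/-- Periodic modulo `3 ^ K`. -/
def Per (K : ℕ) (h : ℕ → ℝ) : Prop := ∀ b, h (b + 3 ^ K) = h b

lemma sum_range_shift {N : ℕ} {h : ℕ → ℝ} (hp : ∀ b, h (b + N) = h b) (a : ℕ) :
    ∑ b ∈ range N, h (a + b) = ∑ b ∈ range N, h b := by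
  induction a with
  | zero => simp
  | succ a ih =>
    have e1 := Finset.sum_range_succ (fun b => h (a + b)) N
    have e2 := Finset.sum_range_succ' (fun b => h (a + b)) N
    have e3 : ∑ b ∈ range N, h (a + 1 + b) = ∑ b ∈ range N, h (a + (b + 1)) :=
      sum_congr rfl (fun b _ => by congr 1; ring)
    rw [hp a] at e1
    simp only [add_zero] at e2
    linarith

lemma sum_range_mul_per {N : ℕ} {h : ℕ → ℝ} (hp : ∀ b, h (b + N) = h b) (a q : ℕ) :
    ∑ b ∈ range (q * N), h (a + b) = q * ∑ b ∈ range N, h b := by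
  induction q with
  | zero => simp
  | succ q ih =>
    rw [add_mul, one_mul, Finset.sum_range_add, ih]
    have := sum_range_shift hp (a + q * N)
    simp only [add_assoc] at this
    rw [this]; push_cast; ring

lemma Per.add_mul {K : ℕ} {h : ℕ → ℝ} (hp : Per K h) (b q : ℕ) : h (b + q * 3 ^ K) = h b := by
  induction q with
  | zero => simp
  | succ q ih => rw [Nat.succ_mul, ← add_assoc, hp, ih]

lemma Per.mono {j K : ℕ} {h : ℕ → ℝ} (hp : Per j h) (hj : j ≤ K) : Per K h := by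
  intro b
  obtain ⟨d, rfl⟩ := Nat.exists_eq_add_of_le hj
  rw [pow_add, mul_comm]
  exact hp.add_mul b _

lemma Per.modEq {K : ℕ} {h : ℕ → ℝ} (hp : Per K h) {a b : ℕ} (hab : a ≡ b [MOD 3 ^ K]) :
    h a = h b := by
  have e : ∀ c, h c = h (c % 3 ^ K) := by
    intro c
    conv_lhs => rw [← Nat.mod_add_div' c (3 ^ K)]
    exact hp.add_mul _ _
  rw [e a, e b, hab]

lemma Per.mean_eq {j K : ℕ} {h : ℕ → ℝ} (hp : Per j h) (hj : j ≤ K) : Mean K h = Mean j h := by
  obtain ⟨d, rfl⟩ := Nat.exists_eq_add_of_le hj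
  have := sum_range_mul_per hp 0 (3 ^ d)
  simp only [zero_add] at this
  unfold Mean
  rw [pow_add, mul_comm, this, pow_add]; push_cast; field_simp

lemma Per.sum_le {K : ℕ} {h : ℕ → ℝ} (hp : Per K h) (h0 : ∀ b, 0 ≤ h b) {S : Finset ℕ} {a D : ℕ}
    (hS : ∀ b ∈ S, a ≤ b ∧ b < a + D) : ∑ b ∈ S, h b ≤ ((D : ℝ) + 3 ^ K) * Mean K h := by
  have hN : 0 < 3 ^ K := by positivity
  have h1 := sum_range_mul_per hp a (D / 3 ^ K + 1)
  have h2 : D ≤ (D / 3 ^ K + 1) * 3 ^ K := by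
    have := Nat.div_add_mod' D (3 ^ K)
    have := Nat.mod_lt D hN
    nlinarith
  have h3 : ∑ b ∈ S, h b ≤ ∑ b ∈ range ((D / 3 ^ K + 1) * 3 ^ K), h (a + b) := by
    rw [← sum_image (s := range ((D / 3 ^ K + 1) * 3 ^ K)) (g := fun b => a + b) (f := h)
      (by intro x _ y _ hxy; simpa using hxy)]
    apply sum_le_sum_of_subset_of_nonneg _ (fun b _ _ => h0 b)
    intro b hb
    have := hS b hb
    exact mem_image.mpr ⟨b - a, mem_range.mpr (by omega), by omega⟩
  rw [h1] at h3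
  refine h3.trans ?_
  have h4 : 0 ≤ ∑ b ∈ range (3 ^ K), h b := sum_nonneg (fun b _ => h0 b)
  have h5 : ((D / 3 ^ K + 1 : ℕ) : ℝ) ≤ ((D : ℝ) + 3 ^ K) / 3 ^ K := by
    have : ((D / 3 ^ K : ℕ) : ℝ) ≤ (D : ℝ) / ((3 ^ K : ℕ) : ℝ) := Nat.cast_div_le
    push_cast at this ⊢
    rw [add_div, div_self (by positivity)]; linarith
  unfold Mean
  calc _ ≤ ((D : ℝ) + 3 ^ K) / 3 ^ K * ∑ b ∈ range (3 ^ K), h b :=
        mul_le_mul_of_nonneg_right h5 h4
    _ = _ := by ring

lemma Mean_mono (K : ℕ) {h h' : ℕ → ℝ} (H : ∀ b, h b ≤ h' b) : Mean K h ≤ Mean K h' := by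
  unfold Mean
  gcongr with b _
  exact H b

lemma Mean_add (K : ℕ) (h h' : ℕ → ℝ) : Mean K (fun b => h b + h' b) = Mean K h + Mean K h' := by
  unfold Mean; rw [sum_add_distrib]; ring

lemma Mean_mul (K : ℕ) (c : ℝ) (h : ℕ → ℝ) : Mean K (fun b => c * h b) = c * Mean K h := by
  unfold Mean; rw [← mul_sum]; ring

lemma Mean_div (K : ℕ) (c : ℝ) (h : ℕ → ℝ) : Mean K (fun b => h b / c) = Mean K h / c := by
  unfold Mean; rw [← sum_div]; ring

lemma Mean_sum {ι : Type} (K : ℕ) (s : Finset ι) (h : ι → ℕ → ℝ) :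
    Mean K (fun b => ∑ j ∈ s, h j b) = ∑ j ∈ s, Mean K (h j) := by
  unfold Mean; rw [sum_comm, sum_div]

lemma Mean_nonneg (K : ℕ) {h : ℕ → ℝ} (H : ∀ b, 0 ≤ h b) : 0 ≤ Mean K h := by
  unfold Mean
  exact div_nonneg (sum_nonneg (fun b _ => H b)) (by positivity)

lemma exists_mean_le (K : ℕ) (h : ℕ → ℝ) : ∃ b, Mean K h ≤ h b := by
  by_contra hc
  push Not at hc
  have : ∑ b ∈ range (3 ^ K), h b < ∑ _b ∈ range (3 ^ K), Mean K h :=
    sum_lt_sum_of_nonempty (nonempty_range_iff.mpr (by positivity)) (fun b _ => hc b)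
  rw [sum_const, card_range, nsmul_eq_mul, Mean] at this
  push_cast at this
  rw [mul_div_cancel₀ _ (by positivity)] at this
  exact lt_irrefl _ this

lemma sum_indicator_class (a c N : ℕ) (hN : 0 < N) (h : Nat.Coprime a N) (y : ℝ) :
    ∑ b ∈ range N, (if a * b ≡ c [MOD N] then y else 0) = y := by
  obtain ⟨b0, hb0, hb⟩ := exists_solve a c N hN h
  rw [sum_eq_single b0]
  · rw [if_pos ((hb b0).mpr rfl)]
  · intro b hb' hne
    rw [if_neg]
    intro hc
    exact hne (Nat.ModEq.eq_of_lt_of_lt ((hb b).mp hc) (mem_range.mp hb') hb0)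
  · intro hc; exact absurd (mem_range.mpr hb0) hc

/-- Normalised indicator of the residue class modulo `3 ^ j` attached to the word. -/
noncomputable def dd (j : ℕ) (w : List Bool) (b : ℕ) : ℝ :=
  if 2 ^ w.length * b ≡ off w [MOD 3 ^ j] then 3 ^ j else 0

lemma dd_nonneg (j : ℕ) (w : List Bool) (b : ℕ) : 0 ≤ dd j w b := by
  unfold dd; split_ifs <;> positivity

lemma dd_le (j : ℕ) (w : List Bool) (b : ℕ) : dd j w b ≤ 3 ^ j := by
  unfold dd; split_ifs
  · exact le_rfl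
  · positivity

lemma dd_per (j : ℕ) (w : List Bool) : Per j (dd j w) := by
  intro b
  unfold dd
  have : 2 ^ w.length * (b + 3 ^ j) ≡ 2 ^ w.length * b [MOD 3 ^ j] :=
    Nat.ModEq.mul_left _ (by simp [Nat.ModEq])
  have e : 2 ^ w.length * (b + 3 ^ j) ≡ off w [MOD 3 ^ j] ↔ 2 ^ w.length * b ≡ off w [MOD 3 ^ j] :=
    ⟨fun h => this.symm.trans h, fun h => this.trans h⟩
  simp only [e]

lemma mean_dd {j K : ℕ} (hj : j ≤ K) (w : List Bool) : Mean K (dd j w) = 1 := by
  rw [(dd_per j w).mean_eq hj, Mean]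
  unfold dd
  rw [sum_indicator_class _ _ _ (by positivity) (Nat.Coprime.pow _ _ (by norm_num))]
  exact div_self (by positivity)

/-- Weight of the word at `b`. -/
noncomputable def dl (w : List Bool) (b : ℕ) : ℝ := dd (ones w) w b

lemma dl_of_valid {w : List Bool} {b : ℕ} (h : valid w b) : dl w b = 3 ^ ones w := by
  unfold dl dd; rw [if_pos ((valid_iff w b).mp h)]

lemma dl_of_not_valid {w : List Bool} {b : ℕ} (h : ¬ valid w b) : dl w b = 0 := by
  unfold dl dd; rw [if_neg (fun hc => h ((valid_iff w b).mpr hc))]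

lemma dl_nonneg (w : List Bool) (b : ℕ) : 0 ≤ dl w b := dd_nonneg _ _ _

lemma dl_append (w v : List Bool) (b : ℕ) : dl (w ++ v) b = dl w b * dl v (endp w b) := by
  by_cases h1 : valid w b
  · by_cases h2 : valid v (endp w b)
    · rw [dl_of_valid h1, dl_of_valid h2, dl_of_valid ((valid_append w v b).mpr ⟨h1, h2⟩),
        ones_append, pow_add]
    · rw [dl_of_not_valid h2, dl_of_not_valid (fun h => h2 ((valid_append w v b).mp h).2), mul_zero]
  · rw [dl_of_not_valid h1, dl_of_not_valid (fun h => h1 ((valid_append w v b).mp h).1), zero_mul]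

lemma dl_per {K : ℕ} {w : List Bool} (h : w.length ≤ K) : Per K (dl w) :=
  (dd_per _ w).mono ((ones_le w).trans h)

lemma mean_dl {K : ℕ} {w : List Bool} (h : w.length ≤ K) : Mean K (dl w) = 1 :=
  mean_dd ((ones_le w).trans h) w

/-- The density of level `L` predecessors. -/
noncomputable def gg (L : ℕ) (b : ℕ) : ℝ := (∑ w ∈ Str L, dl w b) / 2 ^ L

lemma gg_nonneg (L b : ℕ) : 0 ≤ gg L b :=
  div_nonneg (sum_nonneg (fun w _ => dl_nonneg w b)) (by positivity)

lemma gg_le (L b : ℕ) : gg L b ≤ 3 ^ L := by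
  unfold gg
  rw [div_le_iff₀ (by positivity)]
  calc ∑ w ∈ Str L, dl w b ≤ ∑ _w ∈ Str L, (3 : ℝ) ^ L := by
        apply sum_le_sum
        intro w hw
        refine (dd_le _ _ _).trans (pow_le_pow_right₀ (by norm_num) ?_)
        rw [← mem_Str.mp hw]; exact ones_le w
    _ = _ := by rw [sum_const, card_Str, nsmul_eq_mul]; push_cast; ring

lemma gg_per {L K : ℕ} (h : L ≤ K) : Per K (gg L) := by
  intro b
  unfold gg
  congr 1
  exact sum_congr rfl (fun w hw => dl_per ((mem_Str.mp hw).le.trans h) b)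

lemma gg_add (L M b : ℕ) :
    gg (L + M) b = (∑ w ∈ Str L, dl w b * gg M (endp w b)) / 2 ^ L := by
  unfold gg
  rw [sum_Str_add]
  simp only [dl_append, ← mul_sum, pow_add, sum_div]
  apply sum_congr rfl
  intro w _
  rw [← sum_div]; field_simp

lemma gg_three (L : ℕ) : ∀ b, 3 ∣ b → gg L b = 1 / 2 ^ L := by
  induction L with
  | zero => intro b _; simp [gg, Str, dl_of_valid, valid, ones]
  | succ L ih =>
    intro b hb
    rw [add_comm, gg_add, sum_Str_succ, sum_Str_zero, sum_Str_zero]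
    rw [dl_of_valid (w := [false]) trivial,
      dl_of_not_valid (w := [true]) (fun h => by have := h.1; omega)]
    simp only [endp, ones]
    rw [ih _ (hb.mul_left 2), pow_add]; field_simp; norm_num

end Pool.Agent.Lib.MP_76ba2b_nt
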