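import Pool.Agent.Lib.MP_76ba2b_nt.Mixing

set_option autoImplicit false

/-! Mixing jointly with the number of odd steps. -/

namespace Pool.Agent.Lib.MP_76ba2b_nt

open Finset

/-- Density of the level `M` predecessors, weighted by a function of the number of odd steps. -/
noncomputable def gs (ψ : ℕ → ℝ) (M b : ℕ) : ℝ := (∑ w ∈ Str M, ψ (ones w) * dl w b) / 2 ^ M

/-- The coarse version of `gs`. -/
noncomputable def fs (ψ : ℕ → ℝ) (m M b : ℕ) : ℝ := (∑ w ∈ Str M, ψ (ones w) * dd m w b) / 2 ^ M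

/-- One averaging step. -/
noncomputable def bar (ψ : ℕ → ℝ) (i : ℕ) : ℝ := (ψ i + ψ (i + 1)) / 2

lemma bar_le {ψ : ℕ → ℝ} (h : ∀ i, |ψ i| ≤ 1) (i : ℕ) : |bar ψ i| ≤ 1 := by
  have := abs_le.1 (h i)
  have := abs_le.1 (h (i + 1))
  rw [bar, abs_le]; constructor <;> linarith

lemma nd_split (t0 L Tt m km im : ℕ) {ψ : ℕ → ℝ} (hψ : ∀ i, |ψ i| ≤ 1) (b : ℕ) :
    |∑ w ∈ Str (t0 + L), ψ (ones w) * (dl w b - dd m w b)| ≤
      ∑ k ∈ range (km + 1), ∑ i ∈ Icc m im, |piece t0 L Tt m i k b| +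
      ∑ w ∈ Str t0, ∑ v ∈ Str L, (if ones w ≤ km ∧ off w ≤ Tt * 2 ^ t0 ∧ m ≤ ones (w ++ v) ∧
        ones (w ++ v) ≤ im then 0 else 1) * (dl (w ++ v) b + dd m (w ++ v) b) := by
  rw [sum_Str_add]
  have e1 : ∑ w ∈ Str t0, ∑ v ∈ Str L, ψ (ones (w ++ v)) * (dl (w ++ v) b - dd m (w ++ v) b) =
      ∑ k ∈ range (km + 1), ∑ i ∈ Icc m im, ψ i * piece t0 L Tt m i k b +
      ∑ w ∈ Str t0, ∑ v ∈ Str L, (if ones w ≤ km ∧ off w ≤ Tt * 2 ^ t0 ∧ m ≤ ones (w ++ v) ∧
        ones (w ++ v) ≤ im then 0 else 1) *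
          (ψ (ones (w ++ v)) * (dl (w ++ v) b - dd m (w ++ v) b)) := by
    have e2 : ∀ k i, ψ i * piece t0 L Tt m i k b = ∑ w ∈ Str t0, ∑ v ∈ Str L,
        if (ones w = k ∧ off w ≤ Tt * 2 ^ t0) ∧ k + ones v = i then
          ψ i * (dd i (w ++ v) b - dd m (w ++ v) b) else 0 := by
      intro k i
      unfold piece W1 W2
      rw [sum_filter, mul_sum]
      apply sum_congr rfl; intro w _
      rw [sum_filter]
      split_ifs with h
      · simp only [h, true_and, mul_sum, mul_ite, mul_zero]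
      · simp only [h, false_and, if_false, sum_const_zero, mul_zero]
    simp only [e2]
    rw [sum_comm (s := range (km + 1))]
    have sw : ∀ (A B : Finset ℕ) (F : ℕ → ℕ → List Bool → List Bool → ℝ),
        ∑ i ∈ A, ∑ k ∈ B, ∑ w ∈ Str t0, ∑ v ∈ Str L, F i k w v =
        ∑ w ∈ Str t0, ∑ v ∈ Str L, ∑ i ∈ A, ∑ k ∈ B, F i k w v := by
      intro A B F
      rw [← sum_product', sum_comm]
      apply sum_congr rfl; intro w _
      rw [sum_comm]
      apply sum_congr rfl; intro v _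
      rw [sum_product]
    rw [sw]
    rw [← sum_add_distrib]
    apply sum_congr rfl; intro w _
    rw [← sum_add_distrib]
    apply sum_congr rfl; intro v _
    rw [ones_append]
    split_ifs with h
    · rw [sum_eq_single (ones w + ones v), sum_eq_single (ones w)]
      · simp [h.2.1, dl, ones_append]
      · intro k _ hk; rw [if_neg (fun hc => hk hc.1.1.symm)]
      · intro hc; exact absurd (mem_range.mpr (by omega)) hc
      · intro i _ hi
        apply sum_eq_zero; intro k _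
        rw [if_neg]; rintro ⟨⟨h1, -⟩, h2⟩; omega
      · intro hc; exact absurd (mem_Icc.mpr ⟨h.2.2.1, h.2.2.2⟩) hc
    · rw [sum_eq_zero, zero_add, one_mul]
      intro i hi
      apply sum_eq_zero; intro k hk
      rw [if_neg]; rintro ⟨⟨h1, h3⟩, h2⟩
      rw [mem_Icc] at hi
      rw [mem_range] at hk
      exact h ⟨by omega, h3, by omega, by omega⟩
  rw [e1]
  refine (abs_add_le _ _).trans (add_le_add ?_ ?_)
  · refine (abs_sum_le_sum_abs _ _).trans (sum_le_sum (fun k _ =>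
      (abs_sum_le_sum_abs _ _).trans (sum_le_sum fun i _ => ?_)))
    rw [abs_mul]
    exact mul_le_of_le_one_left (abs_nonneg _) (hψ i)
  · refine (abs_sum_le_sum_abs _ _).trans (sum_le_sum (fun w _ =>
      (abs_sum_le_sum_abs _ _).trans (sum_le_sum (fun v _ => ?_))))
    have h1 := dl_nonneg (w ++ v) b
    have h2 := dd_nonneg m (w ++ v) b
    split_ifs
    · simp
    · rw [one_mul, one_mul, abs_mul]
      refine (mul_le_of_le_one_left (abs_nonneg _) (hψ _)).trans ?_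
      rw [abs_le]; constructor <;> linarith

lemma nd_bound {t0 L Tt m km im K : ℕ} {E e : ℝ} {σ : ℕ → ℕ → ℝ} (hσ : ∀ b i, |σ b i| ≤ 1)
    (hT : 0 < Tt) (hE0 : 0 ≤ E) (he : 0 < e)
    (heE : E * (Tt + 2) ≤ e ^ 2) (hk : km ≤ m) (hi : 3 ^ im ≤ 2 ^ t0) (hK : t0 + L ≤ K)
    (hmK : m ≤ K) (him : im ≤ K)
    (hE : ∀ (n : ℕ) (η : ℤ) (κ : ℕ), ¬ (3 : ℤ) ∣ η → m - km ≤ n → n ≤ κ →
      ‖AA n η κ L 0‖ ^ 2 ≤ (2 ^ L) ^ 2 * E) :
    Mean K (fun b => |gs (σ b) (t0 + L) b - fs (σ b) m (t0 + L) b|) ≤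
      (km + 1) * (im + 1) * e +
      2 * (Bn t0 (fun x => if x ≤ km then 0 else 1) + t0 / Tt +
        Bn (t0 + L) (fun x => if m ≤ x then 0 else 1) +
        Bn (t0 + L) (fun x => if x ≤ im then 0 else 1)) := by
  have h2 : (0 : ℝ) < 2 ^ (t0 + L) := by positivity
  have e1 : (fun b => |gs (σ b) (t0 + L) b - fs (σ b) m (t0 + L) b|) =
      fun b => |∑ w ∈ Str (t0 + L), σ b (ones w) * (dl w b - dd m w b)| / 2 ^ (t0 + L) := by
    funext b
    rw [gs, fs, ← sub_div, ← sum_sub_distrib, abs_div, abs_of_pos h2]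
    simp only [mul_sub]
  rw [e1, Mean_div, div_le_iff₀ h2]
  refine (Mean_mono K fun b => nd_split t0 L Tt m km im (hσ b) b).trans ?_
  rw [Mean_add, Mean_sum, Mean_sum]
  have a1 : ∑ k ∈ range (km + 1), Mean K (fun b => ∑ i ∈ Icc m im, |piece t0 L Tt m i k b|) ≤
      ∑ _k ∈ range (km + 1), ∑ _i ∈ Icc m im, 2 ^ (t0 + L) * e := by
    apply sum_le_sum; intro k hk'
    rw [Mean_sum]
    apply sum_le_sum; intro i hi'
    rw [mem_range] at hk'
    rw [mem_Icc] at hi'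
    apply Mean_abs_le _ _ _ (by positivity)
    have hper : Per i (fun b => piece t0 L Tt m i k b ^ 2) := by
      intro b; simp only [piece_per hi'.1 b]
    rw [hper.mean_eq (hi'.2.trans him), mul_pow]
    refine (piece_sq hE0 (by omega) hi'.1
      ((Nat.pow_le_pow_right (by norm_num) hi'.2).trans hi) ?_).trans (by gcongr)
    intro n η κ h1 h2 h3
    exact hE n η κ h1 (by omega) h3
  have a2 : ∑ _k ∈ range (km + 1), ∑ _i ∈ Icc m im, 2 ^ (t0 + L) * e ≤
      (km + 1) * (im + 1) * e * 2 ^ (t0 + L) := by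
    simp only [sum_const, card_range, Nat.card_Icc, nsmul_eq_mul]
    have : ((im + 1 - m : ℕ) : ℝ) ≤ im + 1 := by exact_mod_cast Nat.sub_le _ _
    push_cast
    calc _ ≤ ((km : ℝ) + 1) * ((im + 1) * (2 ^ (t0 + L) * e)) := by gcongr
      _ = _ := by ring
  have a3 : ∑ w ∈ Str t0, Mean K (fun b => ∑ v ∈ Str L,
      (if ones w ≤ km ∧ off w ≤ Tt * 2 ^ t0 ∧ m ≤ ones (w ++ v) ∧
        ones (w ++ v) ≤ im then 0 else 1) * (dl (w ++ v) b + dd m (w ++ v) b)) =
      2 * ∑ w ∈ Str t0, ∑ v ∈ Str L, (if ones w ≤ km ∧ off w ≤ Tt * 2 ^ t0 ∧ m ≤ ones (w ++ v) ∧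
        ones (w ++ v) ≤ im then (0 : ℝ) else 1) := by
    rw [mul_sum]
    apply sum_congr rfl; intro w hw
    rw [Mean_sum, mul_sum]
    apply sum_congr rfl; intro v hv
    rw [Mean_mul, Mean_add, mean_dd hmK,
      mean_dl (by rw [List.length_append, mem_Str.mp hw, mem_Str.mp hv]; exact hK)]
    ring
  rw [a3]
  have a4 := bad_count t0 L Tt m km im hT
  nlinarith

theorem nd_decay (B : ℕ) : ∃ C : ℝ, 0 ≤ C ∧ ∀ M m K : ℕ, 1 ≤ M → 44 * M ≤ 100 * m →
    100 * m ≤ 46 * M → M ≤ K → ∀ σ : ℕ → ℕ → ℝ, (∀ b i, |σ b i| ≤ 1) →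
      Mean K (fun b => |gs (σ b) M b - fs (σ b) m M b|) ≤ C / (M : ℝ) ^ B := by
  obtain ⟨C1, hC1, h1⟩ := char_decay (3 * B + 5)
  obtain ⟨C2, hC2, h2⟩ := exp_poly B
  set c := 3 * C1 * 100 ^ (3 * B + 5) + 1 with hc
  have hc1 : 1 ≤ c := by
    have : 0 ≤ 3 * C1 * 100 ^ (3 * B + 5) := by positivity
    linarith
  refine ⟨4 * c + 2 * (3 * C2 + 1), by positivity, ?_⟩
  intro M m K hM hm1 hm2 hK σ hσ
  have hM' : (1 : ℝ) ≤ M := by exact_mod_cast hM
  set H := M / 12 with hH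
  obtain ⟨t0, ht0⟩ : ∃ t0, M = t0 + 2 * H := ⟨M - 2 * H, by omega⟩
  set km := 43 * M / 100 with hkm
  set im := 5 * t0 / 8 with him
  have hi : 3 ^ im ≤ 2 ^ t0 := by
    have a1 : (3 ^ im) ^ 5 ≤ (2 ^ t0) ^ 5 := by
      rw [← pow_mul, ← pow_mul, mul_comm im, pow_mul]
      calc (3 ^ 5) ^ im ≤ (2 ^ 8) ^ im := Nat.pow_le_pow_left (by norm_num) _
        _ = 2 ^ (8 * im) := by rw [pow_mul]
        _ ≤ 2 ^ (t0 * 5) := Nat.pow_le_pow_right (by norm_num) (by omega)
    exact (Nat.pow_le_pow_iff_left (by norm_num)).mp a1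
  have key := nd_bound (t0 := t0) (L := 2 * H) (Tt := M ^ (B + 1)) (m := m) (km := km) (im := im)
    (K := K) (E := C1 * 100 ^ (3 * B + 5) / (M : ℝ) ^ (3 * B + 5)) (e := c / (M : ℝ) ^ (B + 2))
    hσ (by positivity) (by positivity) (by positivity) ?_ (by omega) hi (by omega) (by omega)
    (by omega) ?_
  · rw [← ht0] at key
    refine key.trans ?_
    have hx := h2 M hM
    have t0r : (M : ℝ) = t0 + 2 * H := by exact_mod_cast ht0
    have hHr : 12 * (H : ℝ) ≤ M := by exact_mod_cast (show 12 * H ≤ M by omega)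
    have hHr' : (M : ℝ) ≤ 12 * H + 12 := by exact_mod_cast (show M ≤ 12 * H + 12 by omega)
    have hH0 : (0 : ℝ) ≤ H := by positivity
    have p1 : Bn t0 (fun x => if x ≤ km then 0 else 1) ≤ Real.exp (1 - M / 5000) := by
      refine (tail_up t0 (1 / 50) (M / 40 - 2) (by norm_num) _ ?_ ?_).trans
        (Real.exp_le_exp.mpr (by linarith))
      · intro x; split_ifs <;> norm_num
      · intro x hx
        rw [if_pos]
        have : 100 * (x : ℝ) ≤ 43 * M := by linarith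
        have : 100 * x ≤ 43 * M := by exact_mod_cast this
        omega
    have p3 := tail_m hm2
    have p4 : Bn M (fun x => if x ≤ im then 0 else 1) ≤ Real.exp (1 - M / 5000) := by
      refine (tail_up M (1 / 50) (M / 24) (by norm_num) _ ?_ ?_).trans
        (Real.exp_le_exp.mpr (by linarith))
      · intro x; split_ifs <;> norm_num
      · intro x hx
        rw [if_pos]
        have : 8 * (x : ℝ) ≤ 5 * t0 := by linarith
        have : 8 * x ≤ 5 * t0 := by exact_mod_cast this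
        omega
    have p2 : (t0 : ℝ) / ((M ^ (B + 1) : ℕ) : ℝ) ≤ 1 / (M : ℝ) ^ B := by
      push_cast
      rw [div_le_div_iff₀ (by positivity) (by positivity), pow_succ]
      have : (0 : ℝ) < (M : ℝ) ^ B := by positivity
      nlinarith
    have p5 : ((km : ℝ) + 1) * (im + 1) * (c / (M : ℝ) ^ (B + 2)) ≤ 4 * c / (M : ℝ) ^ B := by
      have a1 : (km : ℝ) ≤ M := by exact_mod_cast (show km ≤ M by omega)
      have a2 : (im : ℝ) ≤ M := by exact_mod_cast (show im ≤ M by omega)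
      calc ((km : ℝ) + 1) * (im + 1) * (c / (M : ℝ) ^ (B + 2))
          ≤ (2 * M) * (2 * M) * (c / (M : ℝ) ^ (B + 2)) := by gcongr <;> linarith
        _ = _ := by field_simp; ring
    have e : (4 * c + 2 * (3 * C2 + 1)) / (M : ℝ) ^ B =
        4 * c / (M : ℝ) ^ B + 2 * (3 * (C2 / (M : ℝ) ^ B) + 1 / (M : ℝ) ^ B) := by ring
    rw [e]
    linarith
  · push_cast
    have a1 : (1 : ℝ) ≤ (M : ℝ) ^ (B + 1) := one_le_pow₀ hM'
    calc C1 * 100 ^ (3 * B + 5) / (M : ℝ) ^ (3 * B + 5) * ((M : ℝ) ^ (B + 1) + 2)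
        ≤ C1 * 100 ^ (3 * B + 5) / (M : ℝ) ^ (3 * B + 5) * (3 * (M : ℝ) ^ (B + 1)) := by
          gcongr; linarith
      _ = (3 * C1 * 100 ^ (3 * B + 5)) / ((M : ℝ) ^ (B + 2)) ^ 2 := by field_simp; ring
      _ ≤ c ^ 2 / ((M : ℝ) ^ (B + 2)) ^ 2 := by gcongr; nlinarith
      _ = _ := by rw [div_pow]
  · intro n η κ hη hn hκ
    refine (h1 n η κ H hη hκ).trans ?_
    rw [pow_mul 2 2 H, show (2 : ℝ) ^ 2 = 4 by norm_num]
    apply mul_le_mul_of_nonneg_left _ (by positivity)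
    have a1 : (M : ℝ) ≤ 100 * (n + 1) := by exact_mod_cast (show M ≤ 100 * (n + 1) by omega)
    rw [div_le_div_iff₀ (by positivity) (by positivity), mul_assoc, ← mul_pow]
    gcongr

lemma nd_fstep {m M K : ℕ} (hK : m ≤ K) {σ : ℕ → ℕ → ℝ} (hσ : ∀ b i, |σ b i| ≤ 1) :
    Mean K (fun b => |fs (σ b) m (M + 1) b - fs (bar (σ b)) m M b|) ≤
      2 * Bn M (fun x => if m ≤ x then 0 else 1) := by
  have h2 : (0 : ℝ) < 2 ^ M := by positivity
  have a1 : ∀ b, |fs (σ b) m (M + 1) b - fs (bar (σ b)) m M b| ≤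
      (∑ w ∈ Str M, (if m ≤ ones w then (0 : ℝ) else 1) *
      ((dd m (w ++ [false]) b + dd m (w ++ [true]) b) / 2 + dd m w b)) / 2 ^ M := by
    intro b
    have e : fs (σ b) m (M + 1) b - fs (bar (σ b)) m M b = (∑ w ∈ Str M,
        ((σ b (ones w) * dd m (w ++ [false]) b + σ b (ones w + 1) * dd m (w ++ [true]) b) / 2 -
          bar (σ b) (ones w) * dd m w b)) / 2 ^ M := by
      unfold fs
      rw [sum_Str_add, sum_sub_distrib, ← sum_div]
      simp only [sum_Str_succ, sum_Str_zero, ones_append, ones, add_zero, zero_add]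
      field_simp
      ring
    rw [e, abs_div, abs_of_pos h2]
    gcongr
    refine (abs_sum_le_sum_abs _ _).trans (sum_le_sum (fun w _ => ?_))
    split_ifs with h
    · have c : ∀ x, dd m (w ++ [x]) b = dd m w b := by
        intro x
        unfold dd
        have c1 : off (w ++ [x]) ≡ 2 * off w [MOD 3 ^ m] := by
          rw [off_append]
          exact (Nat.modEq_iff_dvd' (by simp)).mpr
            (by simpa using (pow_dvd_pow 3 h).mul_right _) |>.symm
        have c2 : 2 ^ (w ++ [x]).length * b ≡ off (w ++ [x]) [MOD 3 ^ m] ↔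
            2 ^ w.length * b ≡ off w [MOD 3 ^ m] := by
          rw [List.length_append, List.length_singleton, pow_succ', mul_assoc]
          constructor
          · intro h1
            exact Nat.ModEq.cancel_left_of_coprime (Nat.Coprime.pow_left _ (by norm_num))
              (h1.trans c1)
          · intro h1
            exact (h1.mul_left 2).trans c1.symm
        simp only [c2]
      rw [c, c, bar, zero_mul, abs_nonpos_iff]; ring
    · have := dd_nonneg m (w ++ [false]) b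
      have := dd_nonneg m (w ++ [true]) b
      have := dd_nonneg m w b
      have := abs_le.1 (hσ b (ones w))
      have := abs_le.1 (hσ b (ones w + 1))
      have := abs_le.1 (bar_le (hσ b) (ones w))
      rw [one_mul, abs_le]; constructor <;> nlinarith
  refine (Mean_mono K a1).trans (le_of_eq ?_)
  rw [Mean_div, Mean_sum, div_eq_iff h2.ne']
  have : ∀ w ∈ Str M, Mean K (fun b => (if m ≤ ones w then (0 : ℝ) else 1) *
      ((dd m (w ++ [false]) b + dd m (w ++ [true]) b) / 2 + dd m w b)) =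
      2 * (if m ≤ ones w then (0 : ℝ) else 1) := by
    intro w _
    rw [Mean_mul, Mean_add, Mean_div, Mean_add, mean_dd hK, mean_dd hK, mean_dd hK]; ring
  rw [sum_congr rfl this, ← mul_sum, sum_Str_ones M (fun x => if m ≤ x then 0 else 1)]
  ring

theorem nd_step (B : ℕ) : ∃ C : ℝ, 0 ≤ C ∧ ∀ M K : ℕ, 200 ≤ M → M + 1 ≤ K →
    ∀ σ : ℕ → ℕ → ℝ, (∀ b i, |σ b i| ≤ 1) →
      Mean K (fun b => |gs (σ b) (M + 1) b - gs (bar (σ b)) M b|) ≤ C / (M : ℝ) ^ B := by
  obtain ⟨C1, hC1, h1⟩ := nd_decay B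
  obtain ⟨C2, hC2, h2⟩ := exp_poly B
  refine ⟨2 * C1 + 2 * C2, by positivity, fun M K hM hK σ hσ => ?_⟩
  set m := 45 * M / 100 with hm
  have a1 := h1 M m K (by omega) (by omega) (by omega) (by omega) _ fun b => bar_le (hσ b)
  have a2 := h1 (M + 1) m K (by omega) (by omega) (by omega) hK σ hσ
  have a3 := nd_fstep (m := m) (M := M) (K := K) (by omega) hσ
  have a4 := (tail_m (M := M) (m := m) (by omega)).trans (h2 M (by omega))
  have hM' : (0 : ℝ) < M := by exact_mod_cast (show 0 < M by omega)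
  have a5 : C1 / ((M + 1 : ℕ) : ℝ) ^ B ≤ C1 / (M : ℝ) ^ B := by
    gcongr; linarith
  have a6 : Mean K (fun b => |gs (σ b) (M + 1) b - gs (bar (σ b)) M b|) ≤
      Mean K (fun b => |gs (σ b) (M + 1) b - fs (σ b) m (M + 1) b| +
        |fs (σ b) m (M + 1) b - fs (bar (σ b)) m M b| +
        |gs (bar (σ b)) M b - fs (bar (σ b)) m M b|) := by
    apply Mean_mono
    intro b
    rw [abs_sub_comm (gs (bar (σ b)) M b)]
    have := abs_sub_le (gs (σ b) (M + 1) b) (fs (σ b) m (M + 1) b) (gs (bar (σ b)) M b)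
    have := abs_sub_le (fs (σ b) m (M + 1) b) (fs (bar (σ b)) m M b) (gs (bar (σ b)) M b)
    linarith
  rw [Mean_add, Mean_add] at a6
  have e : (2 * C1 + 2 * C2) / (M : ℝ) ^ B = 2 * (C1 / (M : ℝ) ^ B) + 2 * (C2 / (M : ℝ) ^ B) := by
    ring
  rw [e]; linarith

end Pool.Agent.Lib.MP_76ba2b_nt
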