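import Pool.Agent.Lib.MP_76ba2b_nt.NdA

set_option autoImplicit false

/-! Binomial averages, and independence of the number of odd steps and the residue. -/

namespace Pool.Agent.Lib.MP_76ba2b_nt

open Finset

lemma Bn_congr (L : ℕ) {g g' : ℕ → ℝ} (h : ∀ x ≤ L, g x = g' x) : Bn L g = Bn L g' :=
  le_antisymm (Bn_mono L fun x hx => (h x hx).le) (Bn_mono L fun x hx => (h x hx).ge)

lemma Bn_abs_sub (L : ℕ) {g g' : ℕ → ℝ} {c : ℝ} (h : ∀ x ≤ L, |g x - g' x| ≤ c) :
    |Bn L g - Bn L g'| ≤ c := by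
  rw [← Bn_sub, abs_le]
  refine ⟨?_, Bn_le_const L fun x hx => (abs_le.1 (h x hx)).2⟩
  rw [← Bn_const L (-c)]
  exact Bn_mono L fun x hx => (abs_le.1 (h x hx)).1

lemma Bn_abs_le (L : ℕ) {g : ℕ → ℝ} {c : ℝ} (h : ∀ x ≤ L, |g x| ≤ c) : |Bn L g| ≤ c := by
  have := Bn_abs_sub L (g := g) (g' := fun _ => 0) (c := c) (by simpa using h)
  rwa [Bn_const, sub_zero] at this

lemma Bn_shift_abs (L : ℕ) {g : ℕ → ℝ} (h : ∀ x, |g x| ≤ 1) (j : ℕ) :
    |Bn L g - Bn L (fun x => g (x + j))| ≤ j * (4 / Real.sqrt (L + 1)) := by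
  have h1 := Bn_shift_iter L (fun x => 1 / 2 + 1 / 2 * g x)
    (fun x => by linarith [(abs_le.1 (h x)).1]) (fun x => by linarith [(abs_le.1 (h x)).2]) j
  have h2 := Bn_shift_iter L (fun x => 1 / 2 + (-1 / 2) * g x)
    (fun x => by linarith [(abs_le.1 (h x)).2]) (fun x => by linarith [(abs_le.1 (h x)).1]) j
  simp only [Bn_add, Bn_mul, Bn_const] at h1 h2
  have e : (j : ℝ) * (4 / Real.sqrt (L + 1)) = 2 * (j * (2 / Real.sqrt (L + 1))) := by ring
  rw [e, abs_le]; constructor <;> linarith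

lemma Bn_expand (L : ℕ) (g : ℕ → ℝ) :
    Bn L g = ∑ k ∈ range (L + 1), g k * Bn L (fun x => if x = k then 1 else 0) := by
  simp only [← Bn_mul]
  rw [← Bn_sum L (range (L + 1)) fun k x => g k * if x = k then 1 else 0]
  refine Bn_congr L fun x hx => ?_
  simp [hx]

lemma Bn_symm (L : ℕ) : ∀ g : ℕ → ℝ, Bn L (fun x => g (L - x)) = Bn L g := by
  induction L with
  | zero => intro g; simp [Bn_zero]
  | succ L ih =>
    intro g
    rw [Bn_succ, Bn_succ, ← ih g, ← ih fun x => g (x + 1), add_comm]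
    congr 2
    · exact Bn_congr L fun x _ => by rw [Nat.add_sub_add_right]
    · exact Bn_congr L fun x hx => by rw [Nat.succ_sub hx]

lemma Bn_cheb (L : ℕ) {y : ℝ} (hy : 0 < y) {g : ℕ → ℝ} (h1 : ∀ x, g x ≤ 1)
    (h0 : ∀ x : ℕ, |2 * (x : ℝ) - L| < y → g x ≤ 0) : Bn L g ≤ L / y ^ 2 := by
  have h : Bn L g ≤ Bn L (fun x => (y ^ 2)⁻¹ * (2 * (x : ℝ) - L) ^ 2) := by
    refine Bn_mono L fun x _ => ?_
    by_cases hx : |2 * (x : ℝ) - L| < y
    · exact (h0 x hx).trans (by positivity)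
    · refine (h1 x).trans ?_
      rw [← div_eq_inv_mul, le_div_iff₀ (by positivity), one_mul, ← sq_abs (2 * (x : ℝ) - L)]
      exact pow_le_pow_left₀ hy.le (not_lt.1 hx) 2
  rwa [Bn_mul, Bn_sq, ← div_eq_inv_mul] at h

lemma Bn_down (L c w s : ℕ) (hc : L ≤ 2 * c) :
    Bn L (fun x => if c + s ≤ x ∧ x < c + s + w then 1 else 0) ≤
      Bn L (fun x => if c ≤ x ∧ x < c + w then 1 else 0) := by
  induction s with
  | zero => simp
  | succ s ih =>
    refine le_trans ?_ ih
    have h := Bn_stein L fun x => if c + (s + 1) ≤ x ∧ x < c + (s + 1) + w then 1 else 0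
    have h1 : 0 ≤ Bn (L + 1) fun x => (2 * (x : ℝ) - (L + 1)) *
        if c + (s + 1) ≤ x ∧ x < c + (s + 1) + w then 1 else 0 := by
      refine Bn_nonneg _ fun x => ?_
      split_ifs with hx
      · have : (L : ℝ) + 1 ≤ 2 * x := by exact_mod_cast (show L + 1 ≤ 2 * x by omega)
        linarith
      · simp
    rw [h, Bn_sub] at h1
    have h2 := nonneg_of_mul_nonneg_right h1 (by positivity : (0 : ℝ) < ((L : ℝ) + 1) / 2)
    refine (sub_nonneg.1 h2).trans (Bn_mono L fun x _ => le_of_eq ?_)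
    exact if_congr (by omega) rfl rfl

/-- The central window has mass at least `1 / (4 N)`. -/
lemma Bn_central (L N w : ℕ) (hN : 0 < N) (hw : 0 < w) (h : L ≤ (N * w) ^ 2) :
    1 / (4 * (N : ℝ)) ≤ Bn L (fun x => if (L + 1) / 2 ≤ x ∧ x < (L + 1) / 2 + w then 1 else 0) := by
  set c := (L + 1) / 2 with hc
  have h1 : (1 : ℝ) ≤ 2 * Bn L (fun x => if c ≤ x then 1 else 0) := by
    rw [two_mul]
    nth_rewrite 1 [← Bn_symm]
    rw [← Bn_add]
    refine (Bn_const L 1).ge.trans (Bn_mono L fun x hx => ?_)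
    by_cases a : c ≤ x
    · rw [if_pos a]; split_ifs <;> norm_num
    · rw [if_neg a, if_pos (by omega), add_zero]
  have hNw : (0 : ℝ) < N * w := by positivity
  have h2 : Bn L (fun x => if c + N * w ≤ x then 1 else 0) ≤ 1 / 4 := by
    refine (Bn_cheb L (y := 2 * (N * w)) (by positivity) (fun x => by split_ifs <;> norm_num)
      fun x hx => ?_).trans ?_
    · rw [if_neg]
      intro a
      have : (L : ℝ) + 2 * (N * w) ≤ 2 * x := by
        exact_mod_cast (show L + 2 * (N * w) ≤ 2 * x by omega)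
      linarith [(abs_lt.1 hx).2]
    · rw [div_le_div_iff₀ (by positivity) (by norm_num)]
      have : (L : ℝ) ≤ (N * w) ^ 2 := by exact_mod_cast h
      linarith
  have h3 : Bn L (fun x => if c ≤ x then 1 else 0) ≤
      Bn L (fun x => (∑ i ∈ range N, if c + i * w ≤ x ∧ x < c + i * w + w then 1 else 0) +
        if c + N * w ≤ x then 1 else 0) := by
    refine Bn_mono L fun x _ => ?_
    have n0 : (0 : ℝ) ≤ ∑ i ∈ range N, if c + i * w ≤ x ∧ x < c + i * w + w then 1 else 0 :=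
      sum_nonneg fun i _ => by split_ifs <;> norm_num
    by_cases a : c ≤ x
    · by_cases b : c + N * w ≤ x
      · rw [if_pos a, if_pos b]; linarith
      · rw [if_pos a, if_neg b, add_zero]
        have b1 := Nat.div_add_mod' (x - c) w
        have b2 := Nat.mod_lt (x - c) hw
        refine le_trans (le_of_eq ?_) (single_le_sum (f := fun i =>
          if c + i * w ≤ x ∧ x < c + i * w + w then (1 : ℝ) else 0)
          (fun i _ => by split_ifs <;> norm_num) (a := (x - c) / w)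
          (mem_range.2 ((Nat.div_lt_iff_lt_mul hw).2 (by omega))))
        rw [if_pos (by omega)]
    · rw [if_neg a]
      split_ifs <;> linarith
  rw [Bn_add, Bn_sum L (range N) fun i x => if c + i * w ≤ x ∧ x < c + i * w + w then 1 else 0] at h3
  have h4 := sum_le_sum fun i (_ : i ∈ range N) => Bn_down L c w (i * w) (by omega)
  rw [sum_const, card_range, nsmul_eq_mul] at h4
  rw [div_le_iff₀ (by positivity)]
  linarith

/-- Averaging over `d` further steps. -/
noncomputable def av (d : ℕ) (ψ : ℕ → ℝ) (i : ℕ) : ℝ := Bn d fun x => ψ (i + x)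

lemma nd_tele : ∃ C : ℝ, 0 ≤ C ∧ ∀ P d K : ℕ, 200 ≤ P → P + d ≤ K →
    ∀ σ : ℕ → ℕ → ℝ, (∀ b i, |σ b i| ≤ 1) →
      Mean K (fun b => |gs (σ b) (P + d) b - gs (av d (σ b)) P b|) ≤ C / P - C / (P + d) := by
  obtain ⟨C, hC, h⟩ := nd_step 2
  refine ⟨2 * C, by positivity, fun P d K hP => ?_⟩
  induction d with
  | zero =>
    intro _ σ _
    have : ∀ b, av 0 (σ b) = σ b := fun b => rfl
    simp [this, Mean]
  | succ d ih =>
    intro hK σ hσ
    have h1 := ih (by omega) _ fun b => bar_le (hσ b)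
    have h2 := h (P + d) K (by omega) hK σ hσ
    have e : ∀ b, av d (bar (σ b)) = av (d + 1) (σ b) := fun b => by
      funext i
      rw [av, av, Bn_succ, div_eq_inv_mul, ← Bn_add, ← Bn_mul]
      exact Bn_congr d fun x _ => by rw [bar, div_eq_inv_mul, add_assoc i]
    simp only [e] at h1
    rw [← add_assoc]
    refine (Mean_mono K fun b => abs_sub_le _ (gs (bar (σ b)) (P + d) b) _).trans ?_
    rw [Mean_add]
    have hP' : (200 : ℝ) ≤ P := by exact_mod_cast hP
    have hd : (0 : ℝ) ≤ d := by positivity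
    push_cast at h2 ⊢
    have h3 : C / ((P : ℝ) + d) ^ 2 ≤ 2 * C / (P + d) - 2 * C / (P + (d + 1)) := by
      rw [div_sub_div _ _ (by positivity) (by positivity), div_le_div_iff₀ (by positivity)
        (by positivity)]
      have : 0 ≤ C * (P + d) * (P + d - 1) := by
        have : (0 : ℝ) ≤ P + d - 1 := by linarith
        positivity
      nlinarith
    linarith

lemma mean_gg {P K : ℕ} (h : P ≤ K) : Mean K (gg P) = 1 := by
  unfold gg
  rw [Mean_div, Mean_sum, sum_congr rfl fun w hw => mean_dl ((mem_Str.1 hw).le.trans h),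
    sum_const, card_Str, nsmul_eq_mul]
  push_cast
  field_simp

theorem nd_joint : ∃ C : ℝ, 0 ≤ C ∧ ∀ P L : ℕ, 200 ≤ P → P ^ 4 ≤ L →
    ∀ σ : ℕ → ℕ → ℝ, (∀ b i, |σ b i| ≤ 1) →
      Mean L (fun b => |gs (σ b) L b - Bn L (σ b) * gg P b|) ≤ C / P := by
  obtain ⟨C, hC, h⟩ := nd_tele
  refine ⟨C + 8, by positivity, fun P L hP hL σ hσ => ?_⟩
  have h4 : 2 * P ≤ P ^ 4 := by
    calc 2 * P ≤ P * P := Nat.mul_le_mul_right P (by omega)
      _ ≤ P ^ 4 := by rw [← sq]; exact Nat.pow_le_pow_right (by omega) (by norm_num)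
  obtain ⟨d, rfl⟩ : ∃ d, L = P + d := ⟨L - P, by omega⟩
  have hP' : (200 : ℝ) ≤ P := by exact_mod_cast hP
  have h1 := h P d (P + d) hP le_rfl σ hσ
  have hs : (P : ℝ) * (4 / Real.sqrt (d + 1)) ≤ 8 / P := by
    have a1 : (P : ℝ) ^ 4 ≤ 2 * d := by exact_mod_cast (show P ^ 4 ≤ 2 * d by omega)
    have a2 : (P : ℝ) ^ 2 / 2 ≤ Real.sqrt (d + 1) := Real.le_sqrt_of_sq_le (by nlinarith)
    calc (P : ℝ) * (4 / Real.sqrt (d + 1)) ≤ P * (4 / ((P : ℝ) ^ 2 / 2)) := by gcongr
      _ = _ := by field_simp; norm_num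
  have h2 : ∀ b, ∀ i ≤ P, |av d (σ b) i - Bn (P + d) (σ b)| ≤ 8 / P := fun b i hi => by
    rw [Bn_add_len, ← Bn_const P (av d (σ b) i)]
    refine Bn_abs_sub P fun y hy => le_trans ?_ hs
    have key : ∀ i y, i ≤ y → y ≤ P →
        |av d (σ b) i - av d (σ b) y| ≤ P * (4 / Real.sqrt (d + 1)) := fun i y h1 h2 => by
      obtain ⟨j, rfl⟩ := Nat.exists_eq_add_of_le h1
      have := Bn_shift_abs d (g := fun x => σ b (i + x)) (fun x => hσ b _) j
      rw [Bn_congr d (g := fun x => σ b (i + (x + j))) (g' := fun x => σ b (i + j + x))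
        fun x _ => by rw [add_comm x, add_assoc]] at this
      refine this.trans ?_
      have : (j : ℝ) ≤ P := by exact_mod_cast (show j ≤ P by omega)
      gcongr
    rcases le_total i y with a | a
    · exact key i y a hy
    · rw [abs_sub_comm]; exact key y i a hi
  have h3 : ∀ b, |gs (av d (σ b)) P b - Bn (P + d) (σ b) * gg P b| ≤ 8 / P * gg P b := fun b => by
    rw [gs, gg, ← mul_div_assoc, ← mul_div_assoc, ← sub_div, mul_sum, mul_sum, ← sum_sub_distrib,
      abs_div, abs_of_pos (show (0 : ℝ) < 2 ^ P by positivity)]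
    gcongr
    refine (abs_sum_le_sum_abs _ _).trans (sum_le_sum fun w hw => ?_)
    rw [← sub_mul, abs_mul, abs_of_nonneg (dl_nonneg w b)]
    exact mul_le_mul_of_nonneg_right (h2 b _ (mem_Str.1 hw ▸ ones_le w)) (dl_nonneg w b)
  refine (Mean_mono _ fun b => (abs_sub_le _ (gs (av d (σ b)) P b) _).trans
    (add_le_add_right (h3 b) _)).trans ?_
  rw [Mean_add, Mean_mul, mean_gg (by omega), mul_one, add_div]
  have : 0 ≤ C / ((P : ℝ) + d) := by positivity
  linarith

end Pool.Agent.Lib.MP_76ba2b_nt
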