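import Pool.Agent.Lib.MP_76ba2b_nt.NdB

set_option autoImplicit false

/-! The density of an invariant set in a dyadic window, seen after `L` steps. -/

namespace Pool.Agent.Lib.MP_76ba2b_nt

open Finset

/-- The integers of `[x, 2 x)`. -/
noncomputable def nwin (x : ℝ) : Finset ℕ := Ico ⌈x⌉₊ ⌈2 * x⌉₊

lemma mem_nwin {x : ℝ} {n : ℕ} : n ∈ nwin x ↔ x ≤ n ∧ (n : ℝ) < 2 * x := by
  rw [nwin, mem_Ico, Nat.ceil_le, Nat.lt_ceil]

/-- Density in the window. -/
noncomputable def DD (χ : ℕ → ℝ) (x : ℝ) : ℝ := (∑ n ∈ nwin x, χ n) / x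

/-- Weighted density in the window. -/
noncomputable def fw (χ : ℕ → ℝ) (P : ℕ) (y : ℝ) : ℝ := (∑ s ∈ nwin y, χ s * gg P s) / y

/-- A function with values in `[0, 1]` that is invariant above `a`. -/
structure Iv (χ : ℕ → ℝ) (a : ℕ) : Prop where
  lo : ∀ n, 0 ≤ χ n
  hi : ∀ n, χ n ≤ 1
  inv : ∀ n, a < n → χ (T n) = χ n

lemma nwin_sum_le {K : ℕ} {h : ℕ → ℝ} (hp : Per K h) (h0 : ∀ b, 0 ≤ h b) {y : ℝ}
    (hy : 3 ^ K ≤ y) : ∑ s ∈ nwin y, h s ≤ 3 * y * Mean K h := by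
  have h1 : (1 : ℝ) ≤ y := (one_le_pow₀ (by norm_num)).trans hy
  have h2 : ⌈y⌉₊ ≤ ⌈2 * y⌉₊ := Nat.ceil_mono (by linarith)
  refine (hp.sum_le h0 (a := ⌈y⌉₊) (D := ⌈2 * y⌉₊ - ⌈y⌉₊) fun b hb => ?_).trans
    (mul_le_mul_of_nonneg_right ?_ (Mean_nonneg K h0))
  · have := mem_Ico.1 hb
    omega
  · rw [Nat.cast_sub h2]
    linarith [Nat.ceil_lt_add_one (show 0 ≤ 2 * y by linarith), Nat.le_ceil y]

lemma exists_word (L n : ℕ) : ∃ w : List Bool, w.length = L ∧ valid w (T^[L] n) ∧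
    endp w (T^[L] n) = n := by
  induction L with
  | zero => exact ⟨[], rfl, trivial, rfl⟩
  | succ L ih =>
    obtain ⟨w, h1, h2, h3⟩ := ih
    rw [Function.iterate_succ_apply']
    generalize T^[L] n = s at h2 h3
    by_cases hs : s % 2 = 0
    · have e : 2 * T s = s := by rw [T, if_pos hs]; omega
      exact ⟨false :: w, by simp [h1], by rwa [valid, e], by rwa [endp, e]⟩
    · have e : (2 * T s - 1) / 3 = s := by rw [T, if_neg hs]; omega
      exact ⟨true :: w, by simp [h1], ⟨by rw [T, if_neg hs]; omega, by rwa [e]⟩, by rwa [endp, e]⟩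

variable {χ : ℕ → ℝ} {a : ℕ}

lemma Iv.iter (h : Iv χ a) (L : ℕ) : ∀ n, 2 ^ L * a < n → χ (T^[L] n) = χ n := by
  induction L with
  | zero => intro n _; rfl
  | succ L ih =>
    intro n hn
    have h1 : n ≤ 2 * T n := by unfold T; split_ifs <;> omega
    have h2 : a ≤ 2 ^ L * a := Nat.le_mul_of_pos_left a (by positivity)
    rw [pow_succ', mul_assoc] at hn
    rw [Function.iterate_succ_apply, ih _ (by omega), h.inv n (by omega)]

lemma Iv.sum_le (h : Iv χ a) {V U : Finset ℕ} {c d : ℕ} (hV : V ⊆ U ∪ Ico c (c + d)) :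
    ∑ s ∈ V, χ s ≤ ∑ s ∈ U, χ s + d := by
  refine (sum_le_sum_of_subset_of_nonneg hV fun i _ _ => h.lo i).trans ?_
  have h1 := sum_union_inter (s₁ := U) (s₂ := Ico c (c + d)) (f := χ)
  have h2 : 0 ≤ ∑ s ∈ U ∩ Ico c (c + d), χ s := sum_nonneg fun i _ => h.lo i
  have h3 : ∑ s ∈ Ico c (c + d), χ s ≤ d := by
    simpa using sum_le_card_nsmul (Ico c (c + d)) χ 1 fun i _ => h.hi i
  linarith

open Classical in
lemma Iv.back (h : Iv χ a) {L : ℕ} {x : ℝ} (hx : 2 ^ L * (a : ℝ) < x) :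
    |∑ n ∈ nwin x, χ n - ∑ w ∈ Str L, ∑ s ∈ (nwin (3 ^ ones w * x / 2 ^ L)).filter (valid w), χ s| ≤
      6 ^ L := by
  let V : List Bool → Finset ℕ := fun w =>
    ((nwin x).filter fun n => valid w (T^[L] n) ∧ endp w (T^[L] n) = n).image T^[L]
  have e1 : ∑ n ∈ nwin x, χ n = ∑ w ∈ Str L, ∑ s ∈ V w, χ s := by
    have : ∀ w ∈ Str L, ∑ s ∈ V w, χ s = ∑ n ∈ nwin x,
        if valid w (T^[L] n) ∧ endp w (T^[L] n) = n then χ n else 0 := fun w _ => by
      rw [sum_image, sum_filter]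
      · refine sum_congr rfl fun n hn => if_congr Iff.rfl (h.iter L n ?_) rfl
        exact_mod_cast hx.trans_le (mem_nwin.1 hn).1
      · intro n hn n' hn' e
        rw [← (mem_filter.1 hn).2.2, ← (mem_filter.1 hn').2.2, e]
    rw [sum_congr rfl this, sum_comm]
    refine sum_congr rfl fun n _ => ?_
    obtain ⟨w, h1, h2, h3⟩ := exists_word L n
    rw [sum_eq_single w, if_pos ⟨h2, h3⟩]
    · intro w' hw' hne
      exact if_neg fun hc => hne (endp_inj w' w _ ((mem_Str.1 hw').trans h1.symm) hc.1 h2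
        (hc.2.trans h3.symm))
    · exact fun hc => absurd (mem_Str.2 h1) hc
  rw [e1, ← sum_sub_distrib]
  refine (abs_sum_le_sum_abs _ _).trans ((sum_le_card_nsmul _ _ ((3 ^ L : ℕ) : ℝ)
    fun w hw => ?_).trans (le_of_eq ?_))
  swap
  · rw [card_Str, nsmul_eq_mul]
    push_cast
    rw [← mul_pow]
    norm_num
  have hl := mem_Str.1 hw
  have hV : ∀ s, s ∈ V w ↔ valid w s ∧ endp w s ∈ nwin x := fun s => by
    simp only [V, mem_image, mem_filter]
    constructor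
    · rintro ⟨n, ⟨h1, h2, h3⟩, rfl⟩
      exact ⟨h2, h3.symm ▸ h1⟩
    · rintro ⟨h1, h2⟩
      have := iterate_endp w s h1
      rw [hl] at this
      exact ⟨endp w s, ⟨h2, by rwa [this], by rw [this]⟩, this⟩
  set y := 3 ^ ones w * x / 2 ^ L with hy
  have h2 : (0 : ℝ) < 2 ^ L := by positivity
  have h3 : (0 : ℝ) < 3 ^ ones w := by positivity
  have hy' : 2 ^ L * y = 3 ^ ones w * x := by rw [hy]; field_simp
  have ho : (off w : ℝ) ≤ 2 ^ L * ((3 ^ L : ℕ) : ℝ) := by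
    have := off_le w
    rw [hl] at this
    exact_mod_cast (show off w ≤ 2 ^ L * 3 ^ L from
      (Nat.le_of_add_right_le this).trans (Nat.le_mul_of_pos_left _ (by positivity)))
  have he : ∀ s, valid w s → (3 : ℝ) ^ ones w * endp w s + off w = 2 ^ L * s := fun s hs => by
    have := endp_eq w s hs
    rw [hl] at this
    exact_mod_cast this
  have hc : ∀ (z : ℝ) (s : ℕ), z ≤ s → (s : ℝ) < z + ((3 ^ L : ℕ) : ℝ) →
      s ∈ Ico ⌈z⌉₊ (⌈z⌉₊ + 3 ^ L) := fun z s h1 h2 => mem_Ico.2 ⟨Nat.ceil_le.2 h1, by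
    have := Nat.le_ceil z
    exact_mod_cast (show (s : ℝ) < ⌈z⌉₊ + ((3 ^ L : ℕ) : ℝ) by linarith)⟩
  have o0 : (0 : ℝ) ≤ off w := by positivity
  rw [abs_sub_le_iff, sub_le_iff_le_add', sub_le_iff_le_add']
  refine ⟨h.sum_le (c := ⌈2 * y⌉₊) fun s hs => ?_, h.sum_le (c := ⌈y⌉₊) fun s hs => ?_⟩
  · obtain ⟨h4, h5⟩ := (hV s).1 hs
    obtain ⟨h6, h7⟩ := mem_nwin.1 h5
    have h8 := he s h4
    have h9 := mul_le_mul_of_nonneg_left h6 h3.le
    have h10 := mul_lt_mul_of_pos_left h7 h3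
    rw [mem_union, mem_filter, mem_nwin]
    by_cases b : (s : ℝ) < 2 * y
    · exact Or.inl ⟨⟨le_of_mul_le_mul_left (by linarith) h2, b⟩, h4⟩
    · exact Or.inr (hc _ s (not_lt.1 b) (lt_of_mul_lt_mul_left (by linarith) h2.le))
  · obtain ⟨h5, h4⟩ := mem_filter.1 hs
    obtain ⟨h6, h7⟩ := mem_nwin.1 h5
    have h8 := he s h4
    have h10 := mul_lt_mul_of_pos_left h7 h2
    rw [mem_union, hV, mem_nwin]
    by_cases b : x ≤ endp w s
    · exact Or.inl ⟨h4, b, lt_of_mul_lt_mul_left (by linarith) h3.le⟩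
    · have h9 := mul_lt_mul_of_pos_left (not_le.1 b) h3
      exact Or.inr (hc _ s h6 (lt_of_mul_lt_mul_left (by linarith) h2.le))

lemma Iv.fw_le (h : Iv χ a) {P : ℕ} {y : ℝ} (hy : 3 ^ P ≤ y) : |fw χ P y| ≤ 3 := by
  have h1 : (0 : ℝ) < y := lt_of_lt_of_le (by positivity) hy
  have h2 := nwin_sum_le (gg_per (le_refl P)) (gg_nonneg P) hy
  rw [mean_gg le_rfl, mul_one] at h2
  rw [fw, abs_of_nonneg (div_nonneg (sum_nonneg fun s _ => mul_nonneg (h.lo s) (gg_nonneg P s))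
    h1.le), div_le_iff₀ h1]
  exact (sum_le_sum fun s _ => mul_le_of_le_one_left (gg_nonneg P s) (h.hi s)).trans h2

lemma gs_expand (ψ : ℕ → ℝ) (L b : ℕ) :
    gs ψ L b = ∑ k ∈ range (L + 1), ψ k * gs (fun x => if x = k then 1 else 0) L b := by
  simp only [gs, ← mul_div_assoc, ← sum_div, mul_sum]
  rw [sum_comm]
  congr 1
  refine sum_congr rfl fun w hw => ?_
  have : ones w ≤ L := mem_Str.1 hw ▸ ones_le w
  simp [this]

theorem nd_rec : ∃ C : ℝ, 0 ≤ C ∧ ∀ (χ : ℕ → ℝ) (a : ℕ), Iv χ a → ∀ (P L : ℕ) (x : ℝ), 200 ≤ P →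
    P ^ 4 ≤ L → 10 ^ L * ((a : ℝ) + 1) ≤ x →
      |DD χ x - Bn L (fun k => fw χ P (3 ^ k * x / 2 ^ L))| ≤ C / P := by
  classical
  obtain ⟨C, hC, hj⟩ := nd_joint
  refine ⟨3 * C + 2, by positivity, fun χ a h P L x hP hL hx => ?_⟩
  have ha : (0 : ℝ) ≤ a := by positivity
  have h10 : (10 : ℝ) ^ L ≤ x := le_trans (le_mul_of_one_le_right (by positivity) (by linarith)) hx
  have hx0 : 0 < x := lt_of_lt_of_le (by positivity) h10
  have hb := h.back (L := L) (x := x) (lt_of_lt_of_le (by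
    have : (2 : ℝ) ^ L ≤ 10 ^ L := by gcongr; norm_num
    have : (0 : ℝ) < 2 ^ L := by positivity
    nlinarith) hx)
  have hy : ∀ k : ℕ, (3 : ℝ) ^ L ≤ 3 ^ k * x / 2 ^ L := fun k => by
    rw [le_div_iff₀ (by positivity), ← mul_pow]
    have : (3 * 2 : ℝ) ^ L ≤ 10 ^ L := by gcongr; norm_num
    have : (1 : ℝ) ≤ 3 ^ k := one_le_pow₀ (by norm_num)
    nlinarith
  set G : ℕ → ℕ → ℝ := fun k s => gs (fun x => if x = k then 1 else 0) L s with hG
  set p : ℕ → ℝ := fun k => Bn L fun x => if x = k then 1 else 0 with hp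
  have e1 : ∑ w ∈ Str L, ∑ s ∈ (nwin (3 ^ ones w * x / 2 ^ L)).filter (valid w), χ s =
      x * ∑ k ∈ range (L + 1), (∑ s ∈ nwin (3 ^ k * x / 2 ^ L), χ s * G k s) /
        (3 ^ k * x / 2 ^ L) := by
    rw [← sum_fiberwise_of_maps_to (s := Str L) (t := range (L + 1)) (g := ones)
      (fun w hw => mem_range.2 (Nat.lt_succ_of_le (mem_Str.1 hw ▸ ones_le w))), mul_sum]
    refine sum_congr rfl fun k _ => ?_
    simp only [hG, gs, sum_filter, ← mul_div_assoc, mul_sum, sum_div]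
    rw [sum_comm]
    refine sum_congr rfl fun w _ => ?_
    split_ifs with hk
    · subst hk
      refine sum_congr rfl fun s _ => ?_
      split_ifs with hv
      · rw [dl_of_valid hv]; field_simp
      · rw [dl_of_not_valid hv]; simp
    · simp
  have hper : ∀ k, Per L fun s => |G k s - p k * gg P s| := fun k s => by
    have h1 : P ≤ L := (Nat.le_self_pow (by norm_num) P).trans hL
    simp only [hG, gs, gg_per h1 s]
    rw [sum_congr rfl fun w hw => by rw [dl_per (mem_Str.1 hw).le s]]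
  have e2 : ∑ k ∈ range (L + 1), Mean L (fun s => |G k s - p k * gg P s|) ≤ C / P := by
    rw [← Mean_sum]
    refine le_trans (Mean_mono L fun b => ?_)
      (hj P L hP hL (fun b k => if 0 ≤ G k b - p k * gg P b then 1 else -1) fun b k => by
        split_ifs <;> simp)
    rw [gs_expand, Bn_expand, sum_mul, ← sum_sub_distrib]
    refine le_trans (le_of_eq (sum_congr rfl fun k _ => ?_)) (le_abs_self _)
    split_ifs with hk
    · rw [abs_of_nonneg hk, one_mul, one_mul]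
    · rw [abs_of_neg (not_le.1 hk)]; simp only [hG, hp]; ring
  have e3 : |∑ k ∈ range (L + 1), (∑ s ∈ nwin (3 ^ k * x / 2 ^ L), χ s * G k s) /
      (3 ^ k * x / 2 ^ L) - Bn L (fun k => fw χ P (3 ^ k * x / 2 ^ L))| ≤ 3 * (C / P) := by
    rw [Bn_expand, ← sum_sub_distrib]
    refine (abs_sum_le_sum_abs _ _).trans (le_trans ?_ (mul_le_mul_of_nonneg_left e2 (by norm_num)))
    rw [mul_sum]
    refine sum_le_sum fun k _ => ?_
    have h0 : 0 < 3 ^ k * x / 2 ^ L := by positivity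
    rw [fw, div_mul_eq_mul_div, ← sub_div, sum_mul, ← sum_sub_distrib, abs_div, abs_of_pos h0,
      div_le_iff₀ h0, mul_right_comm]
    refine (abs_sum_le_sum_abs _ _).trans (le_trans (sum_le_sum fun s _ => ?_)
      (nwin_sum_le (hper k) (fun _ => abs_nonneg _) (hy k)))
    rw [mul_assoc, ← mul_sub, abs_mul, abs_of_nonneg (h.lo s), mul_comm (gg P s)]
    exact mul_le_of_le_one_left (abs_nonneg _) (h.hi s)
  rw [e1] at hb
  have e4 : (6 : ℝ) ^ L ≤ 2 / P * x := by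
    have h1 : (P : ℝ) ≤ L := by exact_mod_cast (Nat.le_self_pow (by norm_num) P).trans hL
    have h2 : (0 : ℝ) < P := by exact_mod_cast (show 0 < P by omega)
    have h3 := one_add_mul_le_pow (show (-2 : ℝ) ≤ 2 / 3 by norm_num) L
    have h4 : (10 : ℝ) ^ L = 6 ^ L * (1 + 2 / 3) ^ L := by rw [← mul_pow]; norm_num
    have h5 : (0 : ℝ) < 6 ^ L := by positivity
    rw [div_mul_eq_mul_div, le_div_iff₀ h2]
    nlinarith
  generalize (∑ k ∈ range (L + 1), (∑ s ∈ nwin (3 ^ k * x / 2 ^ L), χ s * G k s) /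
    (3 ^ k * x / 2 ^ L)) = S at hb e3
  have e5 : |DD χ x - S| ≤ 2 / P := by
    rw [DD, div_sub' hx0.ne', abs_div, abs_of_pos hx0, div_le_iff₀ hx0]
    exact hb.trans e4
  refine (abs_sub_le _ S _).trans ?_
  rw [add_div, mul_div_assoc]
  linarith

end Pool.Agent.Lib.MP_76ba2b_nt
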