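import Pool.Agent.Lib.MP_76ba2b_nt.NdB

set_option autoImplicit false

/-! A bounded solution of the averaging recursion converges. -/

namespace Pool.Agent.Lib.MP_76ba2b_nt

open Finset Filter Topology Real

lemma nd_logs : 3 * log 2 ≤ 2 * log 3 ∧ 5 * log 3 ≤ 8 * log 2 := by
  have h1 : log ((2 : ℝ) ^ 3) ≤ log ((3 : ℝ) ^ 2) := log_le_log (by norm_num) (by norm_num)
  have h2 : log ((3 : ℝ) ^ 5) ≤ log ((2 : ℝ) ^ 8) := log_le_log (by norm_num) (by norm_num)
  rw [log_pow, log_pow] at h1 h2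
  exact ⟨by exact_mod_cast h1, by exact_mod_cast h2⟩

lemma nd_lattice {h : ℝ} (hh : 0 < h) : ∃ H : ℕ, ∀ y : ℝ, ∃ i k : ℤ, |i| ≤ H ∧
    |y - i * log 2 + k * log 3| ≤ h := by
  have h2 : 0 < log 2 := log_pos (by norm_num)
  have h3 : 0 < log 3 := log_pos (by norm_num)
  obtain ⟨n, hn⟩ := exists_nat_gt (log 3 / h)
  obtain ⟨j, k, k0, -, hk⟩ := exists_int_int_abs_mul_sub_le (log 2 / log 3) n.succ_pos
  set δ := k * log 2 - j * log 3 with hδ
  have d1 : |δ| ≤ h := by
    have e : δ = (k * (log 2 / log 3) - j) * log 3 := by rw [hδ]; field_simp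
    rw [e, abs_mul, abs_of_pos h3]
    refine (mul_le_mul_of_nonneg_right hk h3.le).trans ?_
    rw [div_lt_iff₀ hh] at hn
    rw [div_mul_eq_mul_div, div_le_iff₀ (by positivity)]
    push_cast
    nlinarith
  have d0 : δ ≠ 0 := fun e => by
    have k1 : (0 : ℝ) < k := by exact_mod_cast k0
    have j0 : 0 < j := by
      have : (0 : ℝ) < j := (mul_pos_iff_of_pos_right h3).1 (by nlinarith)
      exact_mod_cast this
    lift k to ℕ using k0.le
    lift j to ℕ using j0.le
    have e1 : log ((2 : ℝ) ^ k) = log ((3 : ℝ) ^ j) := by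
      rw [log_pow, log_pow]
      simpa [sub_eq_zero] using hδ.symm.trans e
    have e2 : 2 ^ k = 3 ^ j := by
      exact_mod_cast log_injOn_pos (Set.mem_Ioi.2 (by positivity)) (Set.mem_Ioi.2 (by positivity)) e1
    have : 2 ∣ 3 ^ j := e2 ▸ dvd_pow_self 2 (by omega)
    exact absurd (Nat.prime_two.dvd_of_dvd_pow this) (by norm_num)
  have d2 := abs_pos.2 d0
  obtain ⟨B, hB⟩ := exists_nat_ge (log 3 / |δ| + 1)
  refine ⟨B * k.natAbs, fun y => ?_⟩
  set r := y - ⌊y / log 3⌋ * log 3 with hr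
  have r1 : |r| ≤ log 3 := by
    have e : r = Int.fract (y / log 3) * log 3 := by rw [hr, Int.fract]; field_simp
    rw [e, abs_mul, abs_of_pos h3, abs_of_nonneg (Int.fract_nonneg _)]
    exact mul_le_of_le_one_left h3.le (Int.fract_lt_one _).le
  refine ⟨⌊r / δ⌋ * k, ⌊r / δ⌋ * j - ⌊y / log 3⌋, ?_, ?_⟩
  · rw [abs_mul, Nat.cast_mul, Int.natCast_natAbs]
    refine mul_le_mul_of_nonneg_right ?_ (abs_nonneg _)
    have a1 : |r / δ| ≤ log 3 / |δ| := by rw [abs_div]; gcongr
    have a2 := abs_le.1 a1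
    have a3 : |(⌊r / δ⌋ : ℝ)| ≤ B := abs_le.2
      ⟨by linarith [Int.lt_floor_add_one (r / δ)], by linarith [Int.floor_le (r / δ)]⟩
    exact_mod_cast a3
  · have e : y - ((⌊r / δ⌋ * k : ℤ) : ℝ) * log 2 + ((⌊r / δ⌋ * j - ⌊y / log 3⌋ : ℤ) : ℝ) * log 3 =
        Int.fract (r / δ) * δ := by
      rw [Int.fract, sub_mul, div_mul_cancel₀ _ d0]
      push_cast
      rw [hδ, hr]
      ring
    rw [e, abs_mul, abs_of_nonneg (Int.fract_nonneg _)]
    exact (mul_le_of_le_one_left d2.le (Int.fract_lt_one _).le).trans d1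

/-- The size of the errors. -/
noncomputable def qq (v : ℝ) : ℝ := v ^ (-(1 / 4) : ℝ)

lemma qq_anti {u v : ℝ} (hu : 0 < u) (h : u ≤ v) : qq v ≤ qq u :=
  rpow_le_rpow_of_nonpos hu h (by norm_num)

lemma qq_lim : Tendsto qq atTop (𝓝 0) := tendsto_rpow_neg_atTop (by norm_num)

lemma inv_le_qq {v : ℝ} (h : 1 ≤ v) : v⁻¹ ≤ qq v := by
  rw [← rpow_neg_one]
  exact rpow_le_rpow_of_exponent_le h (by norm_num)

/-- The properties of the density as a function of the logarithm. -/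
structure Soft (φ : ℝ → ℝ) (C v0 : ℝ) : Prop where
  pos : 0 ≤ C
  lo : ∀ v, v0 ≤ v → 0 ≤ φ v
  hi : ∀ v, v0 ≤ v → φ v ≤ 3
  lip : ∀ u v, v0 ≤ u → u ≤ v → v ≤ u + 1 → |φ v - φ u| ≤ C * (v - u) + C * qq u
  sh : ∀ v (j : ℕ), v0 ≤ v → |φ (v + j * log 3) - φ v| ≤ C * (j / √v) + C * qq v
  av : ∀ v (l : ℕ), v0 ≤ v → (l : ℝ) ≤ v / 20 →
    |φ v - Bn l fun j => φ (v - l * log 2 + j * log 3)| ≤ C * qq v

variable {φ : ℝ → ℝ} {C v0 : ℝ}

lemma Soft.forward (S : Soft φ C v0) : ∃ K : ℝ, ∀ t m : ℝ, 2800 ≤ t → 2 * v0 ≤ t →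
    (∀ u, t ≤ u → u ≤ (1 + 1 / 400) * t → m ≤ φ u) → ∀ v, t ≤ v → m - K * qq t ≤ φ v := by
  set ρ := qq (1 - 1 / 2800) with hρ
  have ρ1 : 1 < ρ := one_lt_rpow_of_pos_of_lt_one_of_neg (by norm_num) (by norm_num) (by norm_num)
  obtain ⟨K, K0, hK⟩ : ∃ K : ℝ, 0 ≤ K ∧ K * (ρ - 1) = C + 120000 :=
    ⟨(C + 120000) / (ρ - 1), div_nonneg (by linarith [S.pos]) (by linarith),
      div_mul_cancel₀ _ (by linarith)⟩
  refine ⟨K, fun t m ht htv hm => ?_⟩
  have l2 := log_two_gt_d9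
  have l2' := log_two_lt_d9
  obtain ⟨l3, l3'⟩ := nd_logs
  have key : ∀ n : ℕ, ∀ v, t ≤ v → v ≤ t + n → m - K * qq t + K * qq v ≤ φ v := by
    intro n
    induction n with
    | zero =>
      intro v h1 h2
      obtain rfl : v = t := le_antisymm (by simpa using h2) h1
      linarith [hm v le_rfl (by linarith)]
    | succ n ih =>
      intro v h1 h2
      by_cases hv : v ≤ (1 + 1 / 400) * t
      · linarith [hm v h1 hv, mul_le_mul_of_nonneg_left (qq_anti (by linarith) h1) K0]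
      push Not at hv
      push_cast at h2
      set l := ⌊v / 200⌋₊ with hl
      have a1 : (l : ℝ) ≤ v / 200 := Nat.floor_le (by linarith)
      have a2 : v / 200 < l + 1 := Nat.lt_floor_add_one _
      have l0 : (0 : ℝ) < l := by linarith
      have e : qq ((1 - 1 / 2800) * v) = ρ * qq v := mul_rpow (by norm_num) (by linarith)
      have a3 : K * (ρ * qq v) ≤ K * qq t :=
        mul_le_mul_of_nonneg_left (e ▸ qq_anti (by linarith) (by linarith)) K0
      have a4 := Bn_cheb l (y := l / 10) (g := fun x => if |2 * (x : ℝ) - l| < l / 10 then 0 else 1)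
        (by positivity) (fun x => by split_ifs <;> norm_num) fun x hx => by rw [if_pos hx]
      have a5 : (l : ℝ) / (l / 10) ^ 2 ≤ 40000 * qq v := by
        refine le_trans ?_ (mul_le_mul_of_nonneg_left (inv_le_qq (by linarith)) (by norm_num))
        rw [← div_eq_mul_inv, div_le_div_iff₀ (by positivity) (by linarith)]
        nlinarith
      have a6 : Bn l (fun x => (m - K * qq t + K * (ρ * qq v)) +
          (-3) * if |2 * (x : ℝ) - l| < l / 10 then 0 else 1) ≤
          Bn l fun j => φ (v - l * log 2 + j * log 3) := by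
        refine Bn_mono l fun j _ => ?_
        have j0 : (0 : ℝ) ≤ j := by positivity
        split_ifs with hj
        · obtain ⟨b1, b2⟩ := abs_lt.1 hj
          have b3 : v - l * log 2 + j * log 3 ≤ (1 - 1 / 2800) * v := by nlinarith
          have b4 : t ≤ v - l * log 2 + j * log 3 := by nlinarith
          have b5 := ih _ b4 (by linarith)
          have b6 := mul_le_mul_of_nonneg_left (e ▸ qq_anti (by linarith) b3) K0
          linarith
        · have b1 := S.lo (v - l * log 2 + j * log 3) (by nlinarith)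
          linarith [hm t le_rfl (by linarith), S.hi t (by linarith)]
      rw [Bn_add, Bn_const, Bn_mul] at a6
      have a7 := (abs_le.1 (S.av v l (by linarith) (by linarith))).1
      have a8 : K * (ρ * qq v) = K * qq v + (C + 120000) * qq v := by rw [← hK]; ring
      linarith
  intro v hv
  obtain ⟨n, hn⟩ := exists_nat_ge (v - t)
  have : 0 ≤ K * qq v := mul_nonneg K0 (rpow_nonneg (by linarith) _)
  linarith [key n v hv (by linarith)]

lemma Soft.backward (S : Soft φ C v0) {M η : ℝ} (hη : 0 < η)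
    (hup : ∀ ε, 0 < ε → ∀ᶠ v in atTop, φ v ≤ M + ε)
    (hfr : ∀ ε, 0 < ε → ∃ᶠ v in atTop, M - ε ≤ φ v) (V : ℝ) :
    ∃ t, V ≤ t ∧ ∀ u, t ≤ u → u ≤ (1 + 1 / 400) * t → M - η ≤ φ u := by
  have C0 := S.pos
  have l2 := log_two_gt_d9
  have l2' := log_two_lt_d9
  obtain ⟨l3, l3'⟩ := nd_logs
  obtain ⟨h, h0, h1, h2⟩ : ∃ h : ℝ, 0 < h ∧ h ≤ 1 ∧ C * h ≤ η / 8 := by
    refine ⟨min 1 (η / 8 / (C + 1)), by positivity, min_le_left _ _, ?_⟩
    have := (le_div_iff₀ (by positivity)).1 (min_le_right 1 (η / 8 / (C + 1)))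
    have : 0 < min 1 (η / 8 / (C + 1)) := by positivity
    linarith
  obtain ⟨H, hH⟩ := nd_lattice h0
  obtain ⟨N, hN⟩ := exists_nat_gt (C / (η / 8))
  have N0 : (0 : ℝ) < N := lt_of_le_of_lt (by positivity) hN
  have hN' : C / N ≤ η / 8 := by
    rw [div_lt_iff₀ (by positivity)] at hN
    rw [div_le_iff₀ N0]
    linarith
  have half : Tendsto (fun v : ℝ => v / 2) atTop atTop := tendsto_id.atTop_div_const (by norm_num)
  have t1 : Tendsto (fun v : ℝ => C * ((H + 5) / √(v / 2)) + 2 * (C * qq (v / 2))) atTop (𝓝 0) := by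
    simpa using (((tendsto_sqrt_atTop.comp half).const_div_atTop (H + 5 : ℝ)).const_mul C).add
      (((qq_lim.comp half).const_mul C).const_mul 2)
  have t2 : Tendsto (fun v : ℝ => C * qq v) atTop (𝓝 0) := by simpa using qq_lim.const_mul C
  obtain ⟨V1, hV1⟩ := eventually_atTop.1 (hup (η / (32 * N)) (by positivity))
  obtain ⟨v, c0, c1, c2, c3, c4, c5, c6⟩ := ((hfr (η / (32 * N)) (by positivity)).and_eventually
    ((t1.eventually (ge_mem_nhds (show 0 < η / 8 by positivity))).and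
      ((t2.eventually (gt_mem_nhds (show 0 < η / (16 * N) by positivity))).and
        ((eventually_ge_atTop (2 * v0)).and ((eventually_ge_atTop (2 * V1)).and
          ((eventually_ge_atTop (2 * V)).and
            (eventually_ge_atTop (400 * ((H : ℝ) + 3))))))))).exists
  have H0 : (0 : ℝ) ≤ H := by positivity
  refine ⟨(1 - 1 / 200) * v, by linarith, fun u u1 u2 => ?_⟩
  by_contra hu
  push Not at hu
  set c := log 2 - log 3 / 2 with hc
  have c7 : 0 < c := by linarith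
  obtain ⟨i, k, i1, k1⟩ := hH (v - u - (⌊(v - u - 1) / c⌋ - H : ℤ) * log 2)
  have f1 := (le_div_iff₀ c7).1 (Int.floor_le ((v - u - 1) / c))
  have f2 := (div_lt_iff₀ c7).1 (Int.lt_floor_add_one ((v - u - 1) / c))
  have i2 : |(i : ℝ)| ≤ H := by exact_mod_cast i1
  obtain ⟨i3, i4⟩ := abs_le.1 i2
  obtain ⟨l, hl⟩ : ∃ l : ℤ, l = ⌊(v - u - 1) / c⌋ - H + i := ⟨_, rfl⟩
  have hl' : (l : ℝ) = ⌊(v - u - 1) / c⌋ - H + i := by rw [hl]; push_cast; ring
  have g1 : l * c ≤ v - u - 1 := by rw [hl']; nlinarith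
  have g2 : v - u - 1 ≤ (l + 2 * H + 1) * c := by rw [hl']; nlinarith
  have k2 : |v - l * log 2 + k * log 3 - u| ≤ h := by
    refine le_trans (le_of_eq ?_) k1
    rw [hl']; push_cast; ring_nf
  clear hl hl' k1 f1 f2 i1 i2 i3 i4
  obtain ⟨k3, k4⟩ := abs_le.1 k2
  have g3 : 2 * (H : ℝ) + 6 ≤ l := by nlinarith
  have g4 : (l : ℝ) ≤ v / 20 := by nlinarith
  have g5 : 2 * (k : ℝ) ≤ l := by nlinarith
  have g6 : (l : ℝ) ≤ 2 * k + 2 * H + 6 := by nlinarith
  lift l to ℕ using (by exact_mod_cast (show (0 : ℝ) ≤ l by linarith))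
  lift k to ℕ using (by exact_mod_cast (show (0 : ℝ) ≤ k by linarith))
  simp only [Int.cast_natCast] at *
  set u' := v - l * log 2 + k * log 3 with hu'
  have p1 : v / 2 ≤ u' := by linarith
  have p2 : 0 < v / 2 := by linarith
  have q1 : φ u' ≤ φ u + (η / 8 + C * qq (v / 2)) := by
    rcases le_total u u' with a | a
    · have := (abs_le.1 (S.lip u u' (by linarith) a (by linarith))).2
      have := mul_le_mul_of_nonneg_left (qq_anti p2 (show v / 2 ≤ u by linarith)) C0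
      have := mul_le_mul_of_nonneg_left (show u' - u ≤ h by linarith) C0
      linarith
    · have := (abs_le.1 (S.lip u' u (by linarith) a (by linarith))).1
      have := mul_le_mul_of_nonneg_left (qq_anti p2 p1) C0
      have := mul_le_mul_of_nonneg_left (show u - u' ≤ h by linarith) C0
      linarith
  have N1 : 0 < N := by exact_mod_cast N0
  have w1 : l ≤ (N * (l.sqrt / N + 1)) ^ 2 :=
    (Nat.lt_succ_sqrt' l).le.trans (Nat.pow_le_pow_left (Nat.lt_mul_div_succ _ N1) 2)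
  have w2 : ((l.sqrt / N + 1 : ℕ) : ℝ) ≤ √u' / N + 1 := by
    have a1 : (l.sqrt : ℝ) ≤ √u' := Real.nat_sqrt_le_real_sqrt.trans (sqrt_le_sqrt (by linarith))
    have a2 : ((l.sqrt / N : ℕ) : ℝ) ≤ l.sqrt / N := Nat.cast_div_le
    have a3 : (l.sqrt : ℝ) / N ≤ √u' / N := by gcongr
    push_cast
    linarith
  have q2 := Bn_central l N (l.sqrt / N + 1) N1 (Nat.succ_pos _) w1
  generalize l.sqrt / N + 1 = w at w2 q2
  have q3 : Bn l (fun x => η / 2 * if (l + 1) / 2 ≤ x ∧ x < (l + 1) / 2 + w then 1 else 0) ≤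
      Bn l fun j => (M + η / (32 * N)) - φ (v - l * log 2 + j * log 3) := by
    refine Bn_mono l fun j _ => ?_
    have j0 : (0 : ℝ) ≤ j := by positivity
    split_ifs with hj
    · have g7 : 2 * k ≤ l := by exact_mod_cast g5
      have g8 : l ≤ 2 * k + 2 * H + 6 := by exact_mod_cast g6
      obtain ⟨d, rfl⟩ : ∃ d, j = k + d := ⟨j - k, by omega⟩
      have d1 : (d : ℝ) ≤ w + H + 4 := by exact_mod_cast (show d ≤ w + H + 4 by omega)
      have e : v - l * log 2 + ((k + d : ℕ) : ℝ) * log 3 = u' + d * log 3 := by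
        rw [hu']; push_cast; ring
      have s0 : 0 < √(v / 2) := sqrt_pos.2 p2
      have s1 : √(v / 2) ≤ √u' := sqrt_le_sqrt p1
      have d2 : (d : ℝ) / √u' ≤ 1 / N + (H + 5) / √(v / 2) := by
        calc (d : ℝ) / √u' ≤ (√u' / N + (H + 5)) / √u' := by gcongr; linarith
          _ = 1 / N + (H + 5) / √u' := by have := s0.trans_le s1; field_simp
          _ ≤ _ := by gcongr
      have d3 := mul_le_mul_of_nonneg_left d2 C0
      rw [mul_add, mul_one_div] at d3
      have := (abs_le.1 (S.sh u' d (by linarith))).2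
      have := mul_le_mul_of_nonneg_left (qq_anti p2 p1) C0
      have : 0 < η / (32 * N) := by positivity
      rw [e]
      linarith
    · have := hV1 (v - l * log 2 + j * log 3) (by nlinarith)
      linarith
  rw [Bn_mul, Bn_sub, Bn_const] at q3
  have q4 := (abs_le.1 (S.av v l (by linarith) g4)).2
  have q5 := mul_le_mul_of_nonneg_left q2 (show 0 ≤ η / 2 by positivity)
  have e1 : η / 2 * (1 / (4 * (N : ℝ))) = 4 * (η / (32 * N)) := by field_simp; norm_num
  have e2 : η / (16 * (N : ℝ)) = 2 * (η / (32 * N)) := by field_simp; norm_num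
  linarith

theorem Soft.lim (S : Soft φ C v0) : ∃ d, Tendsto φ atTop (𝓝 d) := by
  have b1 : IsBoundedUnder (· ≤ ·) atTop φ := ⟨3, eventually_map.2
    ((eventually_ge_atTop v0).mono S.hi)⟩
  have b2 : IsCoboundedUnder (· ≤ ·) atTop φ :=
    IsBoundedUnder.isCoboundedUnder_le ⟨0, eventually_map.2 ((eventually_ge_atTop v0).mono S.lo)⟩
  have hup : ∀ ε, 0 < ε → ∀ᶠ v in atTop, φ v ≤ limsup φ atTop + ε := fun ε h =>
    (eventually_lt_of_limsup_lt (lt_add_of_pos_right _ h) b1).mono fun _ => le_of_lt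
  have hfr : ∀ ε, 0 < ε → ∃ᶠ v in atTop, limsup φ atTop - ε ≤ φ v := fun ε h =>
    (frequently_lt_of_lt_limsup b2 (sub_lt_self _ h)).mono fun _ => le_of_lt
  refine ⟨limsup φ atTop, tendsto_order.2 ⟨fun a ha => ?_, fun a ha =>
    eventually_lt_of_limsup_lt ha b1⟩⟩
  obtain ⟨K, hK⟩ := S.forward
  have h0 : 0 < (limsup φ atTop - a) / 3 := by linarith
  have t2 : Tendsto (fun v : ℝ => K * qq v) atTop (𝓝 0) := by simpa using qq_lim.const_mul K
  obtain ⟨V, hV⟩ := eventually_atTop.1 ((t2.eventually (ge_mem_nhds h0)).and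
    ((eventually_ge_atTop 2800).and (eventually_ge_atTop (2 * v0))))
  obtain ⟨t, ht, h⟩ := S.backward h0 hup hfr V
  obtain ⟨h1, h2, h3⟩ := hV t ht
  exact (eventually_ge_atTop t).mono fun v hv => by linarith [hK t _ h2 h3 h v hv]

end Pool.Agent.Lib.MP_76ba2b_nt
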