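import Pool.Agent.Lib.MP_76ba2b_nt.NdC
import Pool.Agent.Lib.MP_76ba2b_nt.NdD

set_option autoImplicit false

/-! Invariant sets have a natural density. -/

namespace Pool.Agent.Lib.MP_76ba2b_nt

open Finset Filter Topology Real

/-- The sum over the integers below `z`. -/
noncomputable def Nn (χ : ℕ → ℝ) (z : ℝ) : ℝ := ∑ n ∈ range ⌈z⌉₊, χ n

variable {χ : ℕ → ℝ} {a : ℕ}

lemma Iv.Nn_sub (h : Iv χ a) {z z' : ℝ} (h0 : 0 ≤ z) (h1 : z ≤ z') :
    0 ≤ Nn χ z' - Nn χ z ∧ Nn χ z' - Nn χ z ≤ z' - z + 1 := by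
  have h2 : ⌈z⌉₊ ≤ ⌈z'⌉₊ := Nat.ceil_mono h1
  rw [Nn, Nn, ← sum_Ico_eq_sub _ h2]
  refine ⟨sum_nonneg fun i _ => h.lo i, (sum_le_card_nsmul _ χ 1 fun i _ => h.hi i).trans ?_⟩
  rw [Nat.card_Ico, nsmul_eq_mul, mul_one, Nat.cast_sub h2]
  linarith [Nat.ceil_lt_add_one (h0.trans h1), Nat.le_ceil z]

lemma DD_eq {x : ℝ} (hx : 0 ≤ x) : DD χ x = (Nn χ (2 * x) - Nn χ x) / x := by
  rw [DD, nwin, sum_Ico_eq_sub _ (Nat.ceil_mono (by linarith))]
  rfl

lemma nd_par {v : ℝ} (hv : 2 * 10 ^ 10 ≤ v) : ∃ P L : ℕ, 200 ≤ P ∧ P ^ 4 ≤ L ∧ (L : ℝ) ≤ v / 10 ∧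
    v / 10 < L + 1 ∧ 1 / (P : ℝ) ≤ 4 * qq v := by
  set L := ⌊v / 10⌋₊ with hL
  have h1 : 200 ^ 4 ≤ L := Nat.le_floor (by push_cast; linarith)
  have h2 : 200 ≤ L.sqrt.sqrt := Nat.le_sqrt'.2 (Nat.le_sqrt'.2 (by omega))
  have h3 : L.sqrt.sqrt ^ 4 ≤ L := by
    rw [show 4 = 2 * 2 from rfl, pow_mul]
    exact (Nat.pow_le_pow_left (Nat.sqrt_le' _) 2).trans (Nat.sqrt_le' _)
  have h4 : L + 1 ≤ (2 * L.sqrt.sqrt) ^ 4 := by
    refine le_trans ?_ (Nat.pow_le_pow_left (show L.sqrt.sqrt + 1 ≤ _ by omega) 4)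
    rw [show 4 = 2 * 2 from rfl, pow_mul]
    exact (Nat.lt_succ_sqrt' L).trans_le (Nat.pow_le_pow_left (Nat.lt_succ_sqrt' _) 2)
  have h5 : v / 10 < L + 1 := Nat.lt_floor_add_one _
  refine ⟨_, L, h2, h3, Nat.floor_le (by linarith), h5, ?_⟩
  generalize L.sqrt.sqrt = P at h2 h4
  have h6 : (0 : ℝ) < P := by exact_mod_cast (show 0 < P by omega)
  have h7 : (L : ℝ) + 1 ≤ (2 * P) ^ 4 := by exact_mod_cast h4
  have h8 : qq ((4 * P) ^ 4) = (4 * P : ℝ)⁻¹ := by
    rw [qq, ← rpow_natCast, ← rpow_mul (by positivity), ← rpow_neg_one]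
    norm_num
  have h9 := qq_anti (u := v) (v := (4 * P) ^ 4) (by linarith) (by nlinarith [pow_pos h6 4])
  rw [h8] at h9
  calc 1 / (P : ℝ) = 4 * (4 * P : ℝ)⁻¹ := by field_simp
    _ ≤ _ := by linarith

lemma nd_size {v : ℝ} {n : ℕ} (ha : 2 * (a : ℝ) ≤ v) (hn : (n : ℝ) ≤ v / 6) :
    10 ^ n * ((a : ℝ) + 1) ≤ exp v := by
  have h1 : (10 : ℝ) ≤ exp 3 := by
    have := exp_one_gt_d9
    rw [show (3 : ℝ) = (3 : ℕ) * 1 by norm_num, exp_nat_mul]
    exact le_trans (by norm_num) (pow_le_pow_left₀ (by norm_num) this.le 3)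
  have h2 : (10 : ℝ) ^ n ≤ exp (v / 2) := by
    refine (pow_le_pow_left₀ (by norm_num) h1 n).trans ?_
    rw [← exp_nat_mul]
    exact exp_le_exp.2 (by linarith)
  have h3 : (a : ℝ) + 1 ≤ exp (v / 2) := le_trans (by linarith) (add_one_le_exp _)
  rw [← add_halves v, exp_add]
  gcongr

lemma exp_pt (v : ℝ) (l j : ℕ) : exp (v - l * log 2 + j * log 3) = 3 ^ j * exp v / 2 ^ l := by
  rw [exp_add, exp_sub, exp_nat_mul, exp_nat_mul, exp_log (by norm_num), exp_log (by norm_num)]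
  ring

lemma Iv.soft (h : Iv χ a) : ∃ C v0, Soft (fun v => DD χ (exp v)) C v0 := by
  obtain ⟨C, hC, hr⟩ := nd_rec
  have ha : (0 : ℝ) ≤ a := by positivity
  refine ⟨8 * C + 48, 2 * 10 ^ 10 + 2 * a, by positivity, fun v _ => ?_, fun v hv => ?_,
    fun u v hu h1 h2 => ?_, fun v j hv => ?_, fun v l hv hl => ?_⟩
  · exact div_nonneg (sum_nonneg fun i _ => h.lo i) (exp_pos v).le
  · have h0 := exp_pos v
    have h1 := one_le_exp (show 0 ≤ v by linarith)
    rw [DD_eq h0.le, div_le_iff₀ h0]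
    linarith [(h.Nn_sub h0.le (show exp v ≤ 2 * exp v by linarith)).2]
  · have x0 := exp_pos u
    have x1 : u + 1 ≤ exp u := add_one_le_exp u
    have x2 : exp u ≤ exp v := exp_le_exp.2 h1
    have x3 : exp v - exp u ≤ 2 * (v - u) * exp u := by
      have := (abs_le.1 (abs_exp_sub_one_le (x := v - u) (by rw [abs_le]; constructor <;> linarith))).2
      rw [abs_of_nonneg (by linarith), exp_sub, sub_le_iff_le_add, div_le_iff₀ x0] at this
      linarith
    have x4 : (exp u)⁻¹ ≤ qq u := (inv_anti₀ (by linarith) (by linarith)).trans (inv_le_qq (by linarith))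
    have q0 : 0 ≤ qq u := (inv_pos.2 x0).le.trans x4
    rw [DD_eq x0.le, DD_eq (exp_pos v).le]
    generalize exp u = x at *
    generalize exp v = y at *
    obtain ⟨b1, b2⟩ := h.Nn_sub x0.le x2
    obtain ⟨b3, b4⟩ := h.Nn_sub (show 0 ≤ 2 * x by linarith) (show 2 * x ≤ 2 * y by linarith)
    obtain ⟨b5, b6⟩ := h.Nn_sub x0.le (show x ≤ 2 * x by linarith)
    have y0 : 0 < y := by linarith
    have e : (Nn χ (2 * y) - Nn χ y) / y - (Nn χ (2 * x) - Nn χ x) / x =
        ((Nn χ (2 * y) - Nn χ (2 * x) - (Nn χ y - Nn χ x)) -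
          (Nn χ (2 * x) - Nn χ x) / x * (y - x)) / y := by field_simp; ring
    have b7 : 0 ≤ (Nn χ (2 * x) - Nn χ x) / x := by positivity
    have b8 : (Nn χ (2 * x) - Nn χ x) / x ≤ 2 := by rw [div_le_iff₀ x0]; linarith
    rw [e]
    generalize (Nn χ (2 * x) - Nn χ x) / x = r at b7 b8
    have b9 : 0 ≤ r * (y - x) := mul_nonneg b7 (by linarith)
    have b10 : r * (y - x) ≤ 2 * (y - x) := mul_le_mul_of_nonneg_right b8 (by linarith)
    calc _ ≤ (8 * (v - u) * x + 1) / x := by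
          rw [abs_div, abs_of_pos y0]
          refine div_le_div₀ (by nlinarith) (abs_le.2 ⟨by linarith, by linarith⟩) x0 x2
      _ = 8 * (v - u) + x⁻¹ := by field_simp
      _ ≤ _ := by nlinarith [mul_nonneg hC q0, mul_nonneg hC (sub_nonneg.2 h1)]
  · obtain ⟨P, L, p1, p2, p3, p4, p5⟩ := nd_par (v := v) (by linarith)
    have s1 := nd_size (a := a) (v := v) (n := L) (by linarith) (by linarith)
    have x0 := exp_pos v
    have e : exp (v + j * log 3) = 3 ^ j * exp v := by simpa using exp_pt v 0 j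
    have r1 := hr χ a h P L _ p1 p2 s1
    have r2 := hr χ a h P L (3 ^ j * exp v) p1 p2
      (s1.trans (le_mul_of_one_le_left x0.le (one_le_pow₀ (by norm_num))))
    have r3 := Bn_shift_abs L (g := fun k => 1 / 3 * fw χ P (3 ^ k * exp v / 2 ^ L)) (fun k => by
      have : (3 : ℝ) ^ P ≤ 3 ^ k * exp v / 2 ^ L := by
        rw [le_div_iff₀ (by positivity)]
        have c1 : (3 : ℝ) ^ P ≤ 5 ^ L := (pow_le_pow_right₀ (by norm_num)
          ((Nat.le_self_pow (by norm_num) P).trans p2)).trans (by gcongr; norm_num)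
        calc (3 : ℝ) ^ P * 2 ^ L ≤ 5 ^ L * 2 ^ L * (a + 1) :=
              (mul_le_mul_of_nonneg_right c1 (by positivity)).trans
                (le_mul_of_one_le_right (by positivity) (by linarith))
          _ = 10 ^ L * (a + 1) := by rw [← mul_pow]; norm_num
          _ ≤ _ := s1.trans (le_mul_of_one_le_left x0.le (one_le_pow₀ (by norm_num)))
      rw [abs_mul, abs_of_pos (show (0 : ℝ) < 1 / 3 by norm_num)]
      linarith [h.fw_le this]) j
    simp only [Bn_mul, pow_add, mul_assoc] at r3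
    have r4 : (j : ℝ) * (4 / √(L + 1)) ≤ 16 * (j / √v) := by
      have c1 : √v / 4 ≤ √(L + 1) := le_sqrt_of_sq_le (by
        rw [div_pow, sq_sqrt (by linarith)]; linarith)
      have c2 : 0 < √v := sqrt_pos.2 (by linarith)
      calc (j : ℝ) * (4 / √(L + 1)) ≤ j * (4 / (√v / 4)) := by gcongr
        _ = _ := by field_simp; norm_num
    have r5 : C / P ≤ C * (4 * qq v) := by
      rw [← mul_one_div]; exact mul_le_mul_of_nonneg_left p5 hC
    have q0 : 0 ≤ qq v := rpow_nonneg (by linarith) _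
    have q1 : 0 ≤ C * (j / √v) := by positivity
    simp only [e]
    obtain ⟨c1, c2⟩ := abs_le.1 r1
    obtain ⟨c3, c4⟩ := abs_le.1 r2
    obtain ⟨c5, c6⟩ := abs_le.1 r3
    rw [abs_le]; constructor <;> linarith
  · obtain ⟨P, L, p1, p2, p3, p4, p5⟩ := nd_par (v := v) (by linarith)
    have s1 := nd_size (a := a) (v := v) (n := l + L) (by linarith) (by push_cast; linarith)
    have x0 := exp_pos v
    have r1 := hr χ a h P (l + L) _ p1 (by omega) s1
    rw [Bn_add_len] at r1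
    have r2 : |Bn l (fun j => Bn L fun k => fw χ P (3 ^ (j + k) * exp v / 2 ^ (l + L))) -
        Bn l fun j => DD χ (exp (v - l * log 2 + j * log 3))| ≤ C / P := by
      refine Bn_abs_sub l fun j _ => ?_
      rw [abs_sub_comm, exp_pt]
      refine le_trans (le_of_eq ?_) (hr χ a h P L (3 ^ j * exp v / 2 ^ l) p1 p2 ?_)
      · congr 2
        exact Bn_congr L fun k _ => by congr 1; rw [pow_add, pow_add]; ring
      · rw [le_div_iff₀ (by positivity)]
        calc (10 : ℝ) ^ L * (a + 1) * 2 ^ l ≤ 10 ^ L * (a + 1) * 10 ^ l := by gcongr; norm_num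
          _ = 10 ^ (l + L) * (a + 1) := by ring
          _ ≤ _ := s1.trans (le_mul_of_one_le_left x0.le (one_le_pow₀ (by norm_num)))
    have r5 : C / P ≤ C * (4 * qq v) := by
      rw [← mul_one_div]; exact mul_le_mul_of_nonneg_left p5 hC
    have q0 : 0 ≤ qq v := rpow_nonneg (by linarith) _
    refine (abs_sub_le _ _ _).trans ((add_le_add r1 r2).trans ?_)
    linarith

theorem Iv.window (h : Iv χ a) : ∃ d, Tendsto (DD χ) atTop (𝓝 d) := by
  obtain ⟨C, v0, S⟩ := h.soft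
  obtain ⟨d, hd⟩ := S.lim
  refine ⟨d, (hd.comp tendsto_log_atTop).congr' ((eventually_gt_atTop 0).mono fun x hx => ?_)⟩
  simp only [Function.comp, exp_log hx]

theorem Iv.density (h : Iv χ a) {d : ℝ} (hd : Tendsto (DD χ) atTop (𝓝 d)) :
    Tendsto (fun x => Nn χ x / x) atTop (𝓝 d) := by
  have half : Tendsto (fun v : ℝ => v / 2) atTop atTop := tendsto_id.atTop_div_const (by norm_num)
  rw [Metric.tendsto_nhds] at hd ⊢
  intro ε hε
  have key : ∀ k : ℕ, ∀ᶠ x in atTop, |Nn χ x / x - d| ≤ (2 + |d|) * (1 / 2) ^ k + ε / 2 := by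
    intro k
    induction k with
    | zero =>
      refine (eventually_ge_atTop 1).mono fun x hx => ?_
      obtain ⟨b1, b2⟩ := h.Nn_sub le_rfl (show 0 ≤ x by linarith)
      have e : Nn χ 0 = 0 := by simp [Nn]
      have b3 : 0 ≤ Nn χ x / x := div_nonneg (by linarith) (by linarith)
      have b4 : Nn χ x / x ≤ 2 := by rw [div_le_iff₀ (by linarith)]; linarith
      rw [abs_le]
      constructor <;> linarith [le_abs_self d, neg_abs_le d]
    | succ k ih =>
      filter_upwards [half.eventually ih, half.eventually (hd _ (half_pos hε)),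
        eventually_gt_atTop 0] with x h1 h2 hx
      rw [Real.dist_eq, DD_eq (by linarith), mul_div_cancel₀ _ two_ne_zero] at h2
      have e : Nn χ x / x - d =
          ((Nn χ (x / 2) / (x / 2) - d) + ((Nn χ x - Nn χ (x / 2)) / (x / 2) - d)) / 2 := by
        field_simp
        ring
      obtain ⟨c1, c2⟩ := abs_le.1 h1
      obtain ⟨c3, c4⟩ := abs_lt.1 h2
      rw [e, pow_succ, abs_le]
      constructor <;> linarith
  have hd0 : 0 < 2 + |d| := by positivity
  obtain ⟨k, hk⟩ := exists_pow_lt_of_lt_one (show 0 < ε / 2 / (2 + |d|) by positivity)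
    (show (1 / 2 : ℝ) < 1 by norm_num)
  rw [lt_div_iff₀ hd0] at hk
  exact (key k).mono fun x hx => by rw [Real.dist_eq]; linarith

end Pool.Agent.Lib.MP_76ba2b_nt
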