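import Pool.Agent.Lib.MP_76ba2b_nt.UWin

set_option autoImplicit false

namespace Pool.Agent.Lib.MP_76ba2b_nt

open Finset

/-- The set of integers in `[x, 2x)` that iterate to `a` in at most `B` steps. -/
def wset (a : ℕ) (x B : ℝ) : Set ℕ :=
  {m | x ≤ m ∧ (m : ℝ) < 2 * x ∧ ∃ k : ℕ, (k : ℝ) ≤ B ∧ T^[k] m = a}

lemma wset_finite (a : ℕ) (x B : ℝ) : (wset a x B).Finite :=
  (Set.finite_lt_nat ⌈2 * x⌉₊).subset (fun _ hm => Nat.lt_ceil.mpr hm.2.1)

lemma wset_mono (a : ℕ) (x : ℝ) {B B' : ℝ} (h : B ≤ B') :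
    ((wset a x B).ncard : ℝ) ≤ (wset a x B').ncard := by
  have : wset a x B ⊆ wset a x B' := by
    rintro m ⟨h1, h2, k, h3, h4⟩
    exact ⟨h1, h2, k, h3.trans h, h4⟩
  exact_mod_cast Set.ncard_le_ncard this (wset_finite a x B')

/-- Predecessors in `[x / 4, 2 x)` are moved into `[x, 2 x)` by doubling. -/
lemma card_le_window {a B : ℕ} {x : ℝ} {S : Finset ℕ}
    (hS : ∀ c ∈ S, x ≤ 4 * c ∧ (c : ℝ) < 2 * x ∧ ∃ k ≤ B, T^[k] c = a) :
    (S.card : ℝ) ≤ 3 * (wset a x (B + 2 : ℕ)).ncard := by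
  classical
  let f : ℕ → ℕ := fun c => if x ≤ c then c else if x ≤ 2 * c then 2 * c else 4 * c
  have h1 : S.card ≤ 3 * (S.image f).card := by
    apply card_le_mul_card_image
    intro d _
    refine le_trans (card_le_card (t := {d, d / 2, d / 4}) ?_) card_le_three
    intro c hc
    have := (mem_filter.mp hc).2
    simp only [f] at this
    simp only [mem_insert, mem_singleton]
    split_ifs at this <;> omega
  have h2 : ((S.image f : Finset ℕ) : Set ℕ) ⊆ wset a x (B + 2 : ℕ) := by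
    intro d hd
    obtain ⟨c, hc, rfl⟩ := mem_image.mp (mem_coe.mp hd)
    obtain ⟨b1, b2, k, hkB, hk⟩ := hS c hc
    simp only [f]
    split_ifs with c1 c2
    · exact ⟨c1, b2, k, by exact_mod_cast (show k ≤ B + 2 by omega), hk⟩
    · refine ⟨by push_cast; exact c2, by push_cast; linarith [not_le.mp c1], k + 1,
        by exact_mod_cast (show k + 1 ≤ B + 2 by omega), ?_⟩
      rw [Function.iterate_succ_apply, T_two_mul, hk]
    · refine ⟨by push_cast; exact b1, by push_cast; linarith [not_le.mp c2], k + 2,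
        by exact_mod_cast (show k + 2 ≤ B + 2 by omega), ?_⟩
      rw [Function.iterate_add_apply, show 4 * c = 2 ^ 2 * c by norm_num, iterate_two_pow, hk]
  have h3 := Set.ncard_le_ncard h2 (wset_finite a x _)
  rw [Set.ncard_coe_finset] at h3
  exact_mod_cast h1.trans (Nat.mul_le_mul_left 3 h3)

/-- The backward paths from a nonperiodic point end at distinct integers. -/
lemma endp_inj_nonper {s : ℕ} (hnp : ∀ p, 0 < p → T^[p] s ≠ s) {w w' : List Bool}
    (h : valid w s) (h' : valid w' s) (he : endp w s = endp w' s) : w = w' := by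
  have c1 := iterate_endp w s h
  have c2 := iterate_endp w' s h'
  rw [← he] at c2
  have htt : w.length = w'.length := by
    rcases lt_trichotomy w.length w'.length with h | h | h
    · exfalso
      apply hnp (w'.length - w.length) (by omega)
      conv_lhs => rw [← c1]
      rw [← Function.iterate_add_apply, Nat.sub_add_cancel h.le, c2]
    · exact h
    · exfalso
      apply hnp (w.length - w'.length) (by omega)
      conv_lhs => rw [← c2]
      rw [← Function.iterate_add_apply, Nat.sub_add_cancel h.le, c1]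
  exact endp_inj w w' s htt h h' he

/-- The window mass below the level `L` nodes counts predecessors. -/
lemma landingU {a s j0 L K : ℕ} {x : ℝ} {G : Finset (List Bool)} (hx : 0 < x) (hs2 : 2 ≤ s)
    (hs : T^[j0] s = a) (hnp : ∀ p, 0 < p → T^[p] s ≠ s)
    (hG : ∀ w ∈ G, w.length = L ∧ 2 * off w ≤ 2 ^ L * s ∧ 8 * (ones w + K + 1) ≤ 5 * L) :
    (∑ w ∈ G, dl w s * FF (x / s * 3 ^ ones w / 2 ^ L) K (endp w s)) / 2 ^ L ≤
      s / x * (3 * (wset a x (j0 + L + K + 2 : ℕ)).ncard) := by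
  classical
  let land : List Bool → Prop := fun z => valid z s ∧ x ≤ 4 * endp z s ∧ (endp z s : ℝ) < 2 * x
  have hs0 : (0 : ℝ) < s := by exact_mod_cast (show 0 < s by omega)
  have hsx : 0 ≤ s / x := by positivity
  have a1 : ∀ w ∈ G, dl w s * FF (x / s * 3 ^ ones w / 2 ^ L) K (endp w s) / 2 ^ L ≤
      ∑ t ∈ range (K + 1), ∑ v ∈ Str t, if land (w ++ v) then s / x else 0 := by
    intro w hw
    obtain ⟨g1, g2, g3⟩ := hG w hw
    rw [FF, mul_sum, sum_div]
    apply sum_le_sum; intro t ht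
    rw [← mul_div_assoc, mul_sum, sum_div, sum_div]
    apply sum_le_sum; intro v hv
    have hl := mem_Str.mp hv
    have ht' : t ≤ K := Nat.lt_succ_iff.mp (mem_range.mp ht)
    have hnn : 0 ≤ if land (w ++ v) then s / x else 0 := by split_ifs; exacts [hsx, le_rfl]
    rw [mul_left_comm, ← dl_append]
    by_cases hval : valid (w ++ v) s
    swap
    · rw [dl_of_not_valid hval]; simpa using hnn
    unfold win
    split_ifs with c1 c2
    rotate_left 2
    · simpa using hsx
    · simp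
    all_goals
      obtain ⟨d1, d2⟩ := c1
      have p3 : (0 : ℝ) < 3 ^ ones (w ++ v) := by positivity
      have e1 : x / s * 3 ^ ones w / 2 ^ L * 3 ^ ones v = x * 3 ^ ones (w ++ v) / (2 ^ L * s) := by
        rw [ones_append, pow_add]; field_simp
      rw [e1] at d1 d2
      rw [div_le_iff₀ (by positivity)] at d1
      rw [← mul_div_assoc, lt_div_iff₀ (by positivity)] at d2
    · rw [dl_of_valid hval, one_mul, div_div, div_le_div_iff₀ (by positivity) hx]
      linarith
    · exfalso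
      apply c2
      obtain ⟨v1, v2⟩ := (valid_append w v s).mp hval
      have e2 := endp_eq w s v1
      have e3 := endp_eq v _ v2
      rw [g1] at e2
      rw [hl, ← endp_append] at e3
      set b := endp w s with hb
      set c := endp (w ++ v) s with hc
      have f1 : 2 ^ L * s ≤ 2 * (3 ^ ones w * b) := by omega
      have f2 : 2 * off v ≤ b := by
        have q1 := Nat.le_of_add_right_le (off_le v)
        have q2 := three_pow_le (i := ones w + (K + 1)) (L := L) (by omega)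
        have q3 : 3 ^ v.length ≤ 3 ^ K := Nat.pow_le_pow_right (by norm_num) (by omega)
        have q4 : 2 ^ L * 2 ≤ 2 ^ L * s := Nat.mul_le_mul_left _ hs2
        rw [pow_add, pow_succ] at q2
        have q5 : 3 ^ ones w * (3 ^ K * 3) ≤ 3 ^ ones w * b := by omega
        have q6 := Nat.le_of_mul_le_mul_left q5 (by positivity)
        omega
      have f3 : 2 ^ t * b ≤ 2 * (3 ^ ones v * c) := by
        have : b ≤ 2 ^ t * b := Nat.le_mul_of_pos_left _ (by positivity)
        omega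
      have f4 : 2 ^ t * (2 ^ L * s) ≤ 3 ^ ones (w ++ v) * (4 * c) := by
        rw [ones_append, pow_add]
        calc 2 ^ t * (2 ^ L * s) ≤ 2 ^ t * (2 * (3 ^ ones w * b)) := Nat.mul_le_mul_left _ f1
          _ = 2 * 3 ^ ones w * (2 ^ t * b) := by ring
          _ ≤ 2 * 3 ^ ones w * (2 * (3 ^ ones v * c)) := Nat.mul_le_mul_left _ f3
          _ = _ := by ring
      have f5 : 3 ^ ones (w ++ v) * c ≤ 2 ^ t * (2 ^ L * s) := by
        have := endp_eq _ s hval
        rw [List.length_append, g1, hl, add_comm L, pow_add, mul_assoc, ← hc] at this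
        omega
      have f4' : (2 : ℝ) ^ t * (2 ^ L * s) ≤ 3 ^ ones (w ++ v) * (4 * c) := by exact_mod_cast f4
      have f5' : (3 : ℝ) ^ ones (w ++ v) * c ≤ 2 ^ t * (2 ^ L * s) := by exact_mod_cast f5
      refine ⟨hval, le_of_mul_le_mul_left ?_ p3, lt_of_mul_lt_mul_left ?_ p3.le⟩
      · linarith
      · linarith
  rw [sum_div]
  refine (sum_le_sum a1).trans ?_
  have a2 : ∑ w ∈ G, ∑ t ∈ range (K + 1), ∑ v ∈ Str t, (if land (w ++ v) then s / x else 0) ≤
      ∑ w ∈ Str L, ∑ t ∈ range (K + 1), ∑ v ∈ Str t, (if land (w ++ v) then s / x else 0) :=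
    sum_le_sum_of_subset_of_nonneg (fun w hw => mem_Str.mpr (hG w hw).1) (fun w _ _ =>
      sum_nonneg (fun t _ => sum_nonneg (fun v _ => by split_ifs; exacts [hsx, le_rfl])))
  refine a2.trans ?_
  rw [sum_comm]
  have a3 : ∀ t ∈ range (K + 1), ∑ w ∈ Str L, ∑ v ∈ Str t, (if land (w ++ v) then s / x else 0) =
      ∑ _z ∈ (Str (L + t)).filter land, s / x := by
    intro t _
    rw [sum_filter, sum_Str_add]
  rw [sum_congr rfl a3, sum_sigma', sum_const, nsmul_eq_mul, mul_comm]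
  apply mul_le_mul_of_nonneg_left _ hsx
  set U := (range (K + 1)).sigma (fun t => (Str (L + t)).filter land) with hU
  have hUm : ∀ p ∈ U, p.2.length = L + p.1 ∧ land p.2 := by
    intro p hp
    rw [hU, mem_sigma, mem_filter, mem_Str] at hp
    exact hp.2
  have hUK : ∀ p ∈ U, p.1 ≤ K := by
    intro p hp
    rw [hU, mem_sigma, mem_range] at hp
    exact Nat.lt_succ_iff.mp hp.1
  have inj : Set.InjOn (fun p : (_ : ℕ) × List Bool => endp p.2 s) U := by
    rintro ⟨t, w⟩ hp ⟨t', w'⟩ hp' he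
    obtain ⟨b1, b2⟩ := hUm _ hp
    obtain ⟨b1', b2'⟩ := hUm _ hp'
    simp only at b1 b2 b1' b2' he
    have := endp_inj_nonper hnp b2.1 b2'.1 he
    subst this
    have : t = t' := by omega
    subst this
    rfl
  rw [← card_image_of_injOn inj]
  apply card_le_window
  intro c hc
  obtain ⟨p, hp, rfl⟩ := mem_image.mp hc
  obtain ⟨b1, b2⟩ := hUm p hp
  have b3 := hUK p hp
  exact ⟨b2.2.1, b2.2.2, j0 + p.2.length, by omega, by
    rw [Function.iterate_add_apply, iterate_endp _ _ b2.1, hs]⟩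

/-- Uniform lower bound from seeds in one residue class. -/
theorem seed_bound : ∃ (K0 b S0 : ℕ) (Y0 : ℝ), ¬ 3 ∣ b ∧ ∀ (a s j0 : ℕ) (x : ℝ),
    T^[j0] s = a → (∀ p, 0 < p → T^[p] s ≠ s) → s ≡ b [MOD 3 ^ K0] → S0 ≤ s → Y0 * s ≤ x →
    x / s / 24 ≤ (wset a x (j0 + 8 * Real.log (x / s))).ncard := by
  obtain ⟨L1, hL1, hlow⟩ := Phi_lower
  obtain ⟨L1', hmean⟩ := Phi_zero_mean
  obtain ⟨C, hC, hwin⟩ := window_mass
  obtain ⟨L0, hL0⟩ : ∃ L0, L0 = max L1 L1' := ⟨_, rfl⟩
  have h6 : 6000 ≤ L0 := hL0 ▸ hL1.trans (le_max_left _ _)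
  obtain ⟨b, hb⟩ := exists_mean_le (L0 + L0 / 30) (Phi L0 0)
  have hb1 := (hmean L0 (hL0 ▸ le_max_right _ _)).trans hb
  have hb3 : ¬ 3 ∣ b := by
    intro h
    have c1 := hb1.trans (Phi_zero_le L0 b)
    rw [gg_three _ b h, div_le_div_iff₀ (by norm_num) (by positivity)] at c1
    have : (2 : ℝ) ^ 2 ≤ 2 ^ (L0 + L0 / 30) := pow_le_pow_right₀ (by norm_num) (by omega)
    linarith
  set ap := Real.log 2 - 399 / 800 * Real.log 3 with hap
  set am := Real.log 2 - 401 / 800 * Real.log 3 with ham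
  have l2 := Real.log_two_gt_d9
  have l3 : 0 < Real.log 3 := Real.log_pos (by norm_num)
  have l23 := log_three_le
  have hap0 : 1 / 10 ≤ ap := by rw [hap]; linarith
  obtain ⟨A, hA⟩ : ∃ A : ℝ, A = 32 * 31 ^ 4 * (L0 + 4) * C := ⟨_, rfl⟩
  obtain ⟨R1, hR1⟩ := exists_nat_ge A
  obtain ⟨R0, hR0⟩ : ∃ R0, R0 = R1 + 1200 := ⟨_, rfl⟩
  let up : ℕ → ℝ := fun r => Real.exp (LL L0 r * ap)
  refine ⟨L0 + L0 / 30, b, 2 * (L0 + 1), up (R0 + 1) + 1, hb3, ?_⟩
  intro a s j0 x hs hnp hsb hsL hx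
  have hPhi := hlow L0 s (hL0 ▸ le_max_left _ _) (by rw [(Phi_zero_per L0).modEq hsb]; exact hb1)
  have hs0 : (0 : ℝ) < s := by exact_mod_cast (show 0 < s by omega)
  rw [← le_div_iff₀ hs0] at hx
  set y := x / s with hy
  have hy0 : 0 < y := by
    have : 0 < up (R0 + 1) := Real.exp_pos _
    linarith
  have hx0 : 0 < x := by
    have := mul_pos hy0 hs0
    rwa [hy, div_mul_cancel₀ _ hs0.ne'] at this
  have hex : ∃ r, y ≤ up (R0 + r + 2) := by
    obtain ⟨r, hr⟩ := exists_nat_ge (10 * y)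
    refine ⟨r, ?_⟩
    have c1 := LL_ge (L0 := L0) (by omega) (R0 + r + 2)
    have c2 : (r : ℝ) ≤ LL L0 (R0 + r + 2) := by exact_mod_cast (show r ≤ _ by omega)
    have c3 := Real.add_one_le_exp (LL L0 (R0 + r + 2) * ap)
    have c4 : (0 : ℝ) ≤ r := by positivity
    simp only [up]
    nlinarith
  classical
  obtain ⟨r, hr⟩ : ∃ r, r = R0 + Nat.find hex := ⟨_, rfl⟩
  have h1 : y ≤ up (r + 2) := hr ▸ Nat.find_spec hex
  have h2 : up (r + 1) < y := by
    rcases Nat.eq_zero_or_pos (Nat.find hex) with h | h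
    · rw [hr, h, add_zero]; linarith
    · have := Nat.find_min hex (Nat.sub_lt h one_pos)
      rw [show R0 + (Nat.find hex - 1) + 2 = r + 1 by omega] at this
      exact not_le.mp this
  have hLr := LL_ge (L0 := L0) (by omega) r
  have e1 : LL L0 (r + 1) = LL L0 r + LL L0 r / 30 := rfl
  have e2 : LL L0 (r + 2) = LL L0 (r + 1) + LL L0 (r + 1) / 30 := rfl
  simp only [up] at h1 h2
  have hPr := hPhi r
  unfold Phi at hPr
  have hGi : ∀ w ∈ GG L0 r, w.length = LL L0 r ∧ typ (ones w) (LL L0 r) ∧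
      off w ≤ (L0 + 1) * 2 ^ LL L0 r :=
    fun w hw => ⟨GG_length hw, (GG_inv (by omega) r w hw).1, GG_off (by omega) hw⟩
  generalize GG L0 r = G at hPr hGi
  generalize LL L0 (r + 2) = L2 at h1 e2
  generalize LL L0 (r + 1) = L' at h2 e1 e2
  generalize LL L0 r = L at hLr e1 hPr hGi
  obtain ⟨M, hM⟩ : ∃ M, M = L / 30 := ⟨_, rfl⟩
  obtain ⟨N, hN⟩ : ∃ N, N = L2 - L + L / 50 + 1 := ⟨_, rfl⟩
  obtain ⟨K, hK⟩ : ∃ K, K = N + N / 30 := ⟨_, rfl⟩
  rw [← hM] at hPr
  have hL : 36000 ≤ L := by omega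
  have hLr' : (36000 : ℝ) ≤ L := by exact_mod_cast hL
  have hMr : (L : ℝ) / 31 ≤ M := by
    rw [div_le_iff₀ (by norm_num)]; exact_mod_cast (show L ≤ M * 31 by omega)
  set E : ℝ := 2 ^ L * ((L + 1) * ((L0 + 1 : ℕ) + 3) * (C / (M : ℝ) ^ 4)) with hE
  have hE0 : 0 ≤ E := by positivity
  have key : ∀ k ∈ range (L + 1), ∑ w ∈ G with ones w = k, dl w s * gg M (endp w s) - E ≤
      ∑ w ∈ G with ones w = k, dl w s * FF (y * 3 ^ ones w / 2 ^ L) K (endp w s) := by
    intro k _
    by_cases hk : typ k L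
    swap
    · have : G.filter (fun w => ones w = k) = ∅ :=
        filter_eq_empty_iff.mpr (fun w hw hc => hk (hc ▸ (hGi w hw).2.1))
      rw [this]; simpa using hE0
    have p1 := two_pow_le_typ hk
    have p2 := typ_le_two_pow hk
    rw [← hap] at p1
    rw [← ham] at p2
    have p3 : (0 : ℝ) < 3 ^ k := by positivity
    obtain ⟨n, n1, n2, n3, n4⟩ := exists_level (y := y * 3 ^ k / 2 ^ L) (M := M) (N := N)
      (by omega) (by omega) (by
        rw [← hap, lt_div_iff₀ (by positivity)]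
        have q : Real.exp (M * ap) * Real.exp (L * ap) = Real.exp (L' * ap) := by
          rw [← Real.exp_add, e1, ← hM]; push_cast; congr 1; ring
        calc Real.exp (M * ap) * 2 ^ L ≤ Real.exp (M * ap) * (3 ^ k * Real.exp (L * ap)) := by
              gcongr
          _ = Real.exp (L' * ap) * 3 ^ k := by rw [← q]; ring
          _ < _ := by gcongr)
      (by
        rw [← hap, div_le_iff₀ (by positivity)]
        have q : Real.exp (L2 * ap) ≤ Real.exp (N * ap) * Real.exp (L * am) := by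
          rw [← Real.exp_add]
          apply Real.exp_le_exp.mpr
          have q1 : (L2 : ℝ) - L + L / 50 ≤ N := by
            have : 50 * L2 + L ≤ 50 * N + 50 * L := by omega
            have : 50 * (L2 : ℝ) + L ≤ 50 * N + 50 * L := by exact_mod_cast this
            linarith
          have q2 : ap - am ≤ ap / 50 := by rw [ham, hap]; linarith
          have q3 := mul_le_mul_of_nonneg_right q1 (show 0 ≤ ap by linarith)
          have q4 := mul_le_mul_of_nonneg_left q2 (show (0 : ℝ) ≤ L by linarith)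
          linarith
        calc y * 3 ^ k ≤ Real.exp (N * ap) * Real.exp (L * am) * 3 ^ k := by
              gcongr; exact h1.trans q
          _ = Real.exp (N * ap) * (3 ^ k * Real.exp (L * am)) := by ring
          _ ≤ _ := by gcongr)
    obtain ⟨h, hh0, hhp, hhm, hh⟩ := hwin _ M n K (by omega) n1 (by omega) n3 n4
    have m1 := meas_bound (L := L) (Tt := L0 + 1) (s := s) (G := G.filter (fun w => ones w = k))
      hhp hh0 (by
        intro w hw
        obtain ⟨g1, g2, g3⟩ := hGi w (mem_filter.mp hw).1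
        refine ⟨g1, g3, ?_⟩
        unfold typ at g2
        omega)
    have m2 : ∑ w ∈ G with ones w = k, dl w s * h (endp w s) ≤ E := m1.trans (by
      rw [hE]; gcongr)
    refine le_trans (sub_le_sub_left m2 _) ?_
    rw [← sum_sub_distrib]
    apply sum_le_sum; intro w hw
    rw [← mul_sub, (mem_filter.mp hw).2]
    exact mul_le_mul_of_nonneg_left (hh _) (dl_nonneg _ _)
  have k2 := sum_le_sum key
  have hmap : ∀ w ∈ G, ones w ∈ range (L + 1) :=
    fun w hw => mem_range.mpr (by have := ones_le w; have := (hGi w hw).1; omega)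
  rw [sum_sub_distrib, sum_fiberwise_of_maps_to hmap, sum_fiberwise_of_maps_to hmap, sum_const,
    card_range, nsmul_eq_mul] at k2
  have k3 := landingU (a := a) (s := s) (j0 := j0) (L := L) (K := K) (x := x) (G := G) hx0
    (by omega) hs hnp (by
      intro w hw
      obtain ⟨g1, g2, g3⟩ := hGi w hw
      refine ⟨g1, ?_, ?_⟩
      · nlinarith [Nat.mul_le_mul_left (2 ^ L) hsL]
      · unfold typ at g2
        omega)
  rw [← hy] at k3
  have k4 : ((L + 1 : ℕ) : ℝ) * E ≤ 2 ^ L * (1 / 8) := by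
    rw [hE, mul_left_comm]
    apply mul_le_mul_of_nonneg_left _ (by positivity)
    push_cast
    have q1 : (R1 : ℝ) ≤ L := by exact_mod_cast (show R1 ≤ L by omega)
    have q2 : C / (M : ℝ) ^ 4 ≤ C / ((L : ℝ) / 31) ^ 4 := by gcongr
    calc ((L : ℝ) + 1) * ((L + 1) * (L0 + 1 + 3) * (C / (M : ℝ) ^ 4))
        ≤ (2 * L) * ((2 * L) * (L0 + 1 + 3) * (C / ((L : ℝ) / 31) ^ 4)) := by
          gcongr <;> linarith
      _ = A / (L : ℝ) ^ 2 / 8 := by rw [hA]; field_simp; ring
      _ ≤ 1 / 8 := by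
          have q3 : (L : ℝ) ≤ (L : ℝ) ^ 2 := le_self_pow₀ (by linarith) (by norm_num)
          have q4 : A / (L : ℝ) ^ 2 ≤ 1 :=
            (div_le_one (by positivity)).mpr (hR1.trans (q1.trans q3))
          linarith
  have k6 : ((j0 + L + K + 2 : ℕ) : ℝ) ≤ j0 + 8 * Real.log y := by
    have q1 : (L' : ℝ) * ap ≤ Real.log y := (Real.le_log_iff_exp_le hy0).mpr h2.le
    have q2 : 7 / 50 ≤ ap := by rw [hap]; linarith
    have q3 : 50 * ((L : ℝ) + K + 2) ≤ 56 * L' := by
      exact_mod_cast (show 50 * (L + K + 2) ≤ 56 * L' by omega)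
    have q4 := mul_le_mul_of_nonneg_left q2 (show (0 : ℝ) ≤ L' by positivity)
    push_cast
    linarith
  refine le_trans ?_ (wset_mono a x k6)
  have k5 : 1 / 8 ≤ s / x * (3 * (wset a x (j0 + L + K + 2 : ℕ)).ncard) := by
    refine le_trans ?_ k3
    rw [le_div_iff₀ (by positivity)] at hPr ⊢
    linarith
  rw [div_mul_eq_mul_div, le_div_iff₀ hx0] at k5
  rw [hy, div_div, div_le_iff₀ (by positivity)]
  linarith

lemma exists_two_pow_bdd (a b : ℕ) (ha : ¬ 3 ∣ a) (hb : ¬ 3 ∣ b) (K J : ℕ) :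
    ∃ j, J ≤ j ∧ j < J + Nat.totient (3 ^ K) ∧ 2 ^ j * a ≡ b [MOD 3 ^ K] := by
  obtain ⟨j, hj, h⟩ := exists_two_pow a b ha hb K J
  have h2 : 2 ^ Nat.totient (3 ^ K) ≡ 1 [MOD 3 ^ K] :=
    Nat.ModEq.pow_totient (Nat.Coprime.pow_right _ (by norm_num))
  have h3 : 0 < Nat.totient (3 ^ K) := Nat.totient_pos.mpr (by positivity)
  set q := Nat.totient (3 ^ K)
  refine ⟨J + (j - J) % q, by omega, by have := Nat.mod_lt (j - J) h3; omega, ?_⟩
  refine Nat.ModEq.trans ?_ h
  have e : j = q * ((j - J) / q) + (J + (j - J) % q) := by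
    have := Nat.div_add_mod (j - J) q
    omega
  have h4 := (h2.pow ((j - J) / q)).mul_right (2 ^ (J + (j - J) % q) * a)
  rw [one_pow, one_mul, ← mul_assoc, ← pow_mul, ← pow_add, ← e] at h4
  exact h4.symm

lemma nonper_two_pow {a : ℕ} (h : ∀ p, 0 < p → T^[p] a ≠ a) (j : ℕ) :
    ∀ p, 0 < p → T^[p] (2 ^ j * a) ≠ 2 ^ j * a := by
  intro p hp hc
  apply h p hp
  conv_lhs => rw [← iterate_two_pow j a]
  rw [← Function.iterate_add_apply, add_comm, Function.iterate_add_apply, hc, iterate_two_pow]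

/-- A nonperiodic predecessor prime to `3` of comparable size. -/
lemma exists_nonper_pred (a : ℕ) (ha : 0 < a) (h3 : ¬ 3 ∣ a) : ∃ a' i, a ≤ 3 * a' ∧ a' ≤ 64 * a ∧
    i ≤ 6 ∧ ¬ 3 ∣ a' ∧ T^[i] a' = a ∧ ∀ p, 0 < p → T^[p] a' ≠ a' := by
  obtain ⟨j, -, hj, h⟩ := exists_two_pow_bdd a 2 h3 (by norm_num) 2 0
  have ht : Nat.totient (3 ^ 2) = 6 := by decide
  rw [ht] at hj
  have hc : 2 ^ j * a ≤ 32 * a :=
    Nat.mul_le_mul_right _ (Nat.pow_le_pow_right (n := 2) (by norm_num) (show j ≤ 5 by omega))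
  have hi := iterate_two_pow j a
  have hc0 : a ≤ 2 ^ j * a := Nat.le_mul_of_pos_left _ (by positivity)
  generalize 2 ^ j * a = c at h hc hi hc0
  have h9 : c % 9 = 2 := h
  have t1 : T (2 * c) = c := T_two_mul c
  have t2 : T ((2 * c - 1) / 3) = c := T_odd_step (by omega)
  by_cases hp : ∀ p, 0 < p → T^[p] (2 * c) ≠ 2 * c
  · exact ⟨2 * c, j + 1, by omega, by omega, by omega, by omega, by
      rw [Function.iterate_succ_apply, t1, hi], hp⟩
  · refine ⟨(2 * c - 1) / 3, j + 1, by omega, by omega, by omega, by omega, by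
      rw [Function.iterate_succ_apply, t2, hi], fun q hq hc' => hp (fun p hp' hc'' => ?_)⟩
    have m1 : 2 * c ∈ Function.periodicPts T := ⟨p, hp', hc''⟩
    have m2 : (2 * c - 1) / 3 ∈ Function.periodicPts T := ⟨q, hq, hc'⟩
    have := (Function.bijOn_periodicPts (f := T)).injOn m1 m2 (t1.trans t2.symm)
    omega

lemma wset_pos (a : ℕ) (ha : 0 < a) (x : ℝ) (hx : (a : ℝ) ≤ x) :
    (1 : ℝ) ≤ (wset a x (8 * Real.log (x / a) + 1)).ncard := by
  have ha' : (1 : ℝ) ≤ a := by exact_mod_cast ha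
  have hl : 0 ≤ Real.log (x / a) := Real.log_nonneg ((one_le_div (by linarith)).mpr hx)
  have : (wset a x (8 * Real.log (x / a) + 1)).Nonempty := by
    rcases hx.eq_or_lt with h | h
    · exact ⟨a, h.ge, by linarith, 0, by push_cast; linarith, rfl⟩
    · obtain ⟨n, hn⟩ := exists_nat_ge x
      have h1 : (n : ℝ) ≤ 2 ^ n := by exact_mod_cast (Nat.lt_two_pow_self (n := n)).le
      have h2 : (0 : ℝ) < 2 ^ n := by positivity
      obtain ⟨t, -, c1, c2⟩ := discrete_ivt (fun t => ((2 ^ t * a : ℕ) : ℝ)) x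
        (fun t => by push_cast; rw [pow_succ]; linarith) 0 (by simpa using h) n (Nat.zero_le n)
        (by push_cast; nlinarith)
      refine ⟨_, c1, c2, t, ?_, iterate_two_pow t a⟩
      have c3 : (2 : ℝ) ^ t ≤ 2 * (x / a) := by
        rw [← mul_div_assoc, le_div_iff₀ (by linarith)]
        push_cast at c2
        exact c2.le
      have c4 := Real.log_le_log (by positivity) c3
      rw [Real.log_pow, Real.log_mul (by norm_num) (div_pos (by linarith) (by linarith)).ne'] at c4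
      have l2 := Real.log_two_gt_d9
      by_contra hc
      have c5 := mul_lt_mul_of_pos_right (not_le.mp hc) (show 0 < Real.log 2 by linarith)
      nlinarith
  exact_mod_cast (Set.ncard_pos (wset_finite a x _)).mpr this

theorem mainU : ∃ c C : ℝ, 0 < c ∧ ∀ a : ℕ, 0 < a → ¬ 3 ∣ a → ∀ x : ℝ, (a : ℝ) ≤ x →
    c * (x / a) ≤ (wset a x (8 * Real.log (x / a) + C)).ncard := by
  obtain ⟨K0, b, S0, Y0, hb, H⟩ := seed_bound
  obtain ⟨J, hJ⟩ : ∃ J, J = S0 + 2 + Nat.totient (3 ^ K0) := ⟨_, rfl⟩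
  set D : ℝ := 64 * 2 ^ J with hD
  have hD0 : 0 < D := by positivity
  have hY : 0 < max Y0 24 := lt_max_of_lt_right (by norm_num)
  refine ⟨1 / (max Y0 24 * D), J + 6, by positivity, fun a ha h3 x hx => ?_⟩
  have ha0 : (0 : ℝ) < a := by exact_mod_cast ha
  have hx0 : 0 < x := ha0.trans_le hx
  obtain ⟨a', i, h0, hle, hi6, h3', hi, hnp⟩ := exists_nonper_pred a ha h3
  obtain ⟨j, hj1, hj2, hjb⟩ := exists_two_pow_bdd a' b h3' hb K0 (S0 + 2)
  rw [← hJ] at hj2
  have h4 : j < 2 ^ j := Nat.lt_two_pow_self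
  have hs1 : S0 ≤ 2 ^ j * a' := by
    have : 0 < a' := by omega
    nlinarith
  have hs3 : (a : ℝ) ≤ (2 ^ j * a' : ℕ) := by
    have : 3 * a' ≤ 2 ^ j * a' := Nat.mul_le_mul_right _ (by omega)
    exact_mod_cast h0.trans this
  have hs0 : (0 : ℝ) < (2 ^ j * a' : ℕ) := ha0.trans_le hs3
  have hs2 : ((2 ^ j * a' : ℕ) : ℝ) ≤ D * a := by
    have : 2 ^ j * a' ≤ 2 ^ J * (64 * a) :=
      Nat.mul_le_mul (Nat.pow_le_pow_right (by norm_num) hj2.le) hle
    have : ((2 ^ j * a' : ℕ) : ℝ) ≤ 2 ^ J * (64 * a) := by exact_mod_cast this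
    rw [hD]; linarith
  have e : 1 / (max Y0 24 * D) * (x / a) = x / (D * a) / max Y0 24 := by field_simp
  rw [e]
  by_cases h1 : Y0 * (2 ^ j * a' : ℕ) ≤ x
  · have h2 := H a (2 ^ j * a') (i + j) x (by
      rw [Function.iterate_add_apply, iterate_two_pow, hi]) (nonper_two_pow hnp j) hjb hs1 h1
    refine le_trans ?_ (h2.trans (wset_mono a x ?_))
    · gcongr
      exact le_max_right _ _
    · have c1 : ((i + j : ℕ) : ℝ) ≤ J + 6 := by exact_mod_cast (show i + j ≤ J + 6 by omega)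
      have c2 : Real.log (x / (2 ^ j * a' : ℕ)) ≤ Real.log (x / a) :=
        Real.log_le_log (by positivity) (by gcongr)
      linarith
  · refine le_trans ?_ ((wset_pos a ha x hx).trans (wset_mono a x ?_))
    · rw [div_le_one hY, div_le_iff₀ (by positivity)]
      refine (not_le.mp h1).le.trans ?_
      gcongr
      exact le_max_left _ _
    · have : (0 : ℝ) ≤ J := by positivity
      linarith

/-- The uniform bound without the step count. -/
theorem uniform_window : ∃ c : ℝ, 0 < c ∧ ∀ a : ℕ, 0 < a → ¬ 3 ∣ a → ∀ x : ℝ, (a : ℝ) ≤ x →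
    c / a * x ≤ (window_set a x).ncard := by
  obtain ⟨c, C, hc, H⟩ := mainU
  refine ⟨c, hc, fun a ha h3 x hx => ?_⟩
  rw [div_mul_eq_mul_div, mul_div_assoc]
  refine (H a ha h3 x hx).trans ?_
  have : wset a x (8 * Real.log (x / a) + C) ⊆ window_set a x := by
    rintro m ⟨h1, h2, k, -, h4⟩
    exact ⟨h1, h2, k, h4⟩
  exact_mod_cast Set.ncard_le_ncard this (window_finite a x)

end Pool.Agent.Lib.MP_76ba2b_nt
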