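import Pool.Agent.Lib.MP_76ba2b_nt.NdE
import Pool.Agent.Lib.MP_76ba2b_nt.UMain

set_option autoImplicit false

/-! The predecessor sets have a natural density. -/

namespace Pool.Agent.Lib.MP_76ba2b_nt

open Finset Filter Topology

open Classical in
lemma iv_pred (a : ℕ) : Iv (fun n => if ∃ k, T^[k] n = a then 1 else 0) a := by
  refine ⟨fun n => by split_ifs <;> norm_num, fun n => by split_ifs <;> norm_num,
    fun n hn => if_congr ⟨fun ⟨k, hk⟩ => ⟨k + 1, hk⟩, fun ⟨k, hk⟩ => ?_⟩ rfl rfl⟩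
  cases k with
  | zero => exact absurd hk hn.ne'
  | succ k => exact ⟨k, hk⟩

theorem density_main : ∃ c : ℝ, 0 < c ∧ ∀ a : ℕ, 0 < a → ¬ 3 ∣ a → ∃ d : ℝ, c / a ≤ d ∧
    Tendsto (fun x : ℝ =>
      (Set.ncard {n : ℕ | 0 < n ∧ (n : ℝ) ≤ x ∧ ∃ k : ℕ, T^[k] n = a} : ℝ) / x) atTop (𝓝 d) := by
  classical
  obtain ⟨c, hc, hu⟩ := uniform_window
  refine ⟨c, hc, fun a ha h3 => ?_⟩
  have h := iv_pred a
  obtain ⟨d, hd⟩ := h.window
  refine ⟨d, ge_of_tendsto hd ((eventually_ge_atTop (a : ℝ)).mono fun x hx => ?_), ?_⟩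
  · have hx0 : 0 < x := lt_of_lt_of_le (by exact_mod_cast ha) hx
    have e : window_set a x = ↑((nwin x).filter fun n => ∃ k, T^[k] n = a) := by
      ext n
      simp [window_set, mem_nwin, and_assoc]
    have := hu a ha h3 x hx
    rw [e, Set.ncard_coe_finset, card_filter] at this
    push_cast at this
    rwa [DD, le_div_iff₀ hx0]
  have h1 := h.density hd
  have h2 := h1.add (tendsto_id.const_div_atTop (2 : ℝ))
  rw [add_zero] at h2
  have key : ∀ x : ℝ, 0 < x →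
      (Set.ncard {n : ℕ | 0 < n ∧ (n : ℝ) ≤ x ∧ ∃ k : ℕ, T^[k] n = a} : ℝ) =
        Nn (fun n => if ∃ k, T^[k] n = a then 1 else 0) (⌊x⌋₊ + 1 : ℕ) := fun x hx => by
    have e : {n : ℕ | 0 < n ∧ (n : ℝ) ≤ x ∧ ∃ k : ℕ, T^[k] n = a} =
        ↑((range (⌊x⌋₊ + 1)).filter fun n => ∃ k, T^[k] n = a) := by
      ext n
      simp only [Set.mem_ofPred_eq, coe_filter, mem_range, Nat.lt_succ_iff, Nat.le_floor_iff hx.le]
      refine and_iff_right_of_imp fun ⟨_, k, hk⟩ => Nat.pos_of_ne_zero ?_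
      rintro rfl
      rw [Function.iterate_fixed (by simp [T])] at hk
      omega
    rw [e, Set.ncard_coe_finset, card_filter, Nn, Nat.ceil_natCast]
    push_cast
    rfl
  refine tendsto_of_tendsto_of_tendsto_of_le_of_le' h1 h2 ?_ ?_
  all_goals
    filter_upwards [eventually_gt_atTop 0] with x hx
    have b := h.Nn_sub hx.le (z' := (⌊x⌋₊ + 1 : ℕ)) (by
      push_cast; exact (Nat.lt_floor_add_one x).le)
    have b3 : ((⌊x⌋₊ + 1 : ℕ) : ℝ) ≤ x + 1 := by push_cast; linarith [Nat.floor_le hx.le]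
    rw [key x hx]
  · gcongr
    linarith [b.1]
  · rw [id, ← add_div]
    gcongr
    linarith [b.2]

end Pool.Agent.Lib.MP_76ba2b_nt
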