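import Pool.Agent.Lib.MP_76ba2b_nt.Main

set_option autoImplicit false

namespace Pool.Agent.Results.MP_76ba2b_nt.PositiveDensity

open Pool.Agent.Lib.MP_76ba2b_nt

/-- For every positive integer `a` not divisible by `3` there is `c > 0` such that, for every real
`x ≥ a`, at least `c x` integers of `[x, 2x)` iterate to `a` under the `3x+1` function. -/
theorem result (a : ℕ) (ha : 0 < a) (h3 : ¬ 3 ∣ a) :
    ∃ c : ℝ, 0 < c ∧ ∀ x : ℝ, (a : ℝ) ≤ x →
      c * x ≤ (Set.ncard {m : ℕ | x ≤ (m : ℝ) ∧ (m : ℝ) < 2 * x ∧ ∃ k : ℕ, T^[k] m = a} : ℝ) :=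
  main a ha h3

end Pool.Agent.Results.MP_76ba2b_nt.PositiveDensity
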