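import Pool.Agent.Lib.MP_76ba2b_nt.Fourier

set_option autoImplicit false

namespace Pool.Agent.Lib.MP_76ba2b_nt

open Finset

lemma Mean_abs_le (K : ℕ) (D : ℕ → ℝ) (c : ℝ) (hc : 0 < c) (h : Mean K (fun b => D b ^ 2) ≤ c ^ 2) :
    Mean K (fun b => |D b|) ≤ c := by
  have h1 : Mean K (fun b => |D b|) ≤ Mean K (fun b => (1 / (2 * c)) * D b ^ 2 + c / 2 * dd 0 [] b) := by
    apply Mean_mono
    intro b
    have e : dd 0 [] b = 1 := by simp [dd, Nat.modEq_one]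
    rw [e, ← sq_abs (D b)]
    have : 1 / (2 * c) * |D b| ^ 2 + c / 2 * 1 - |D b| = (|D b| - c) ^ 2 / (2 * c) := by
      field_simp; ring
    have h2 : 0 ≤ (|D b| - c) ^ 2 / (2 * c) := by positivity
    linarith
  rw [Mean_add, Mean_mul, Mean_mul, mean_dd (Nat.zero_le K)] at h1
  have h2 : 1 / (2 * c) * Mean K (fun b => D b ^ 2) ≤ 1 / (2 * c) * c ^ 2 := by gcongr
  have h3 : 1 / (2 * c) * c ^ 2 = c / 2 := by field_simp
  linarith

/-- First parts with `k` odd steps and small offset. -/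
def W1 (t0 k Tt : ℕ) : Finset (List Bool) :=
  (Str t0).filter (fun w => ones w = k ∧ off w ≤ Tt * 2 ^ t0)

/-- Second parts completing the number of odd steps to `i`. -/
def W2 (L k i : ℕ) : Finset (List Bool) := (Str L).filter (fun v => k + ones v = i)

/-- One piece of the oscillation. -/
noncomputable def piece (t0 L Tt m i k : ℕ) (b : ℕ) : ℝ :=
  ∑ w ∈ W1 t0 k Tt, ∑ v ∈ W2 L k i, (dd i (w ++ v) b - dd m (w ++ v) b)

lemma piece_per {t0 L Tt m i k : ℕ} (hm : m ≤ i) : Per i (piece t0 L Tt m i k) := by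
  intro b
  unfold piece
  apply sum_congr rfl; intro w _
  apply sum_congr rfl; intro v _
  rw [dd_per, (dd_per m _).mono hm]

lemma W1_count (t0 k Tt i : ℕ) (c : ℕ) (w : List Bool) :
    ∑ w' ∈ W1 t0 k Tt, (if ((3 ^ i : ℕ) : ℤ) ∣ -(2 ^ c * (off w : ℤ)) - -(2 ^ c * (off w' : ℤ))
      then (1 : ℝ) else 0) ≤ ((Tt * 2 ^ t0 + 1 : ℕ) + 3 ^ i) / 3 ^ i := by
  let h : ℕ → ℝ := fun x => if 1 * x ≡ off w [MOD 3 ^ i] then 1 else 0
  have hper : Per i h := by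
    intro b
    have e : 1 * (b + 3 ^ i) ≡ off w [MOD 3 ^ i] ↔ 1 * b ≡ off w [MOD 3 ^ i] := by
      simp [Nat.ModEq]
    simp only [h, e]
  have h0 : ∀ b, 0 ≤ h b := by intro b; simp only [h]; split_ifs <;> norm_num
  have hmean : Mean i h = 1 / 3 ^ i := by
    unfold Mean
    rw [sum_indicator_class 1 (off w) (3 ^ i) (by positivity) (Nat.coprime_one_left _)]
  have e1 : ∑ w' ∈ W1 t0 k Tt, (if ((3 ^ i : ℕ) : ℤ) ∣
      -(2 ^ c * (off w : ℤ)) - -(2 ^ c * (off w' : ℤ)) then (1 : ℝ) else 0) =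
      ∑ w' ∈ W1 t0 k Tt, h (off w') := by
    apply sum_congr rfl
    intro w' _
    have : ((3 ^ i : ℕ) : ℤ) ∣ -(2 ^ c * (off w : ℤ)) - -(2 ^ c * (off w' : ℤ)) ↔
        1 * off w' ≡ off w [MOD 3 ^ i] := by
      rw [one_mul, Nat.modEq_iff_dvd, ← dvd_neg,
        show -(-(2 ^ c * (off w : ℤ)) - -(2 ^ c * (off w' : ℤ))) = 2 ^ c * (off w - off w') by ring]
      push_cast
      exact ⟨fun h => (IsCoprime.pow (m := i) (n := c) (show IsCoprime (3 : ℤ) 2 by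
        norm_num [Int.isCoprime_iff_gcd_eq_one])).dvd_of_dvd_mul_left h, fun h => h.mul_left _⟩
    simp only [h, this]
  rw [e1, ← sum_image (f := h) (g := off)]
  · have := hper.sum_le h0 (S := (W1 t0 k Tt).image off) (a := 0) (D := Tt * 2 ^ t0 + 1) (by
      intro b hb
      obtain ⟨w', hw', rfl⟩ := mem_image.mp hb
      have := (mem_filter.mp hw').2.2
      omega)
    rw [hmean] at this
    refine this.trans (le_of_eq ?_)
    ring
  · intro a ha b hb hab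
    have ha := mem_filter.mp (mem_coe.mp ha)
    have hb := mem_filter.mp (mem_coe.mp hb)
    exact off_inj ((mem_Str.mp ha.1).trans (mem_Str.mp hb.1).symm) (ha.2.1.trans hb.2.1.symm) hab

lemma piece_sq {t0 L Tt m i k : ℕ} {E : ℝ} (hE0 : 0 ≤ E) (hk : k ≤ m) (hm : m ≤ i)
    (hi : 3 ^ i ≤ 2 ^ t0)
    (hE : ∀ (n : ℕ) (η : ℤ) (κ : ℕ), ¬ (3 : ℤ) ∣ η → m - k ≤ n → n ≤ κ →
      ‖AA n η κ L 0‖ ^ 2 ≤ (2 ^ L) ^ 2 * E) :
    Mean i (fun b => piece t0 L Tt m i k b ^ 2) ≤ (2 ^ (t0 + L)) ^ 2 * (E * (Tt + 2)) := by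
  set N := 3 ^ i with hN
  have hN0 : 0 < N := by positivity
  set F := (range N).filter (fun ξ => ¬ 3 ^ (i - m) ∣ ξ) with hF
  let a1 : ℕ → ℂ := fun ξ => ∑ w ∈ W1 t0 k Tt, EE N (-(2 ^ L * (off w : ℤ)) * ξ)
  let a2 : ℕ → ℂ := fun ξ => ∑ v ∈ W2 L k i, EE N (-(3 ^ k * (off v : ℤ)) * ξ)
  have e1 : ∀ b, (piece t0 L Tt m i k b : ℂ) =
      ∑ ξ ∈ F, (a1 ξ * a2 ξ) * EE N ((2 ^ (t0 + L) * (ξ : ℤ)) * b) := by
    intro b
    unfold piece
    rw [Complex.ofReal_sum]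
    simp only [Complex.ofReal_sum, dd_sub_expand hm, a1, a2, sum_mul_sum]
    simp only [sum_mul]
    rw [sum_comm (s := F)]
    apply sum_congr rfl; intro w hw
    rw [sum_comm (s := F)]
    apply sum_congr rfl; intro v hv
    apply sum_congr rfl; intro ξ _
    have hw := mem_filter.mp hw
    have hv := mem_filter.mp hv
    rw [← EE_add, ← EE_add, off_append, List.length_append, mem_Str.mp hw.1, mem_Str.mp hv.1,
      hw.2.1]
    congr 1; push_cast; ring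
  have e2 : ∑ b ∈ range N, piece t0 L Tt m i k b ^ 2 = N * ∑ ξ ∈ F, ‖a1 ξ * a2 ξ‖ ^ 2 := by
    rw [← parseval_inj hN0 F (fun ξ => a1 ξ * a2 ξ) (fun ξ => 2 ^ (t0 + L) * (ξ : ℤ))]
    · apply sum_congr rfl
      intro b _
      rw [← e1, Complex.norm_real, Real.norm_eq_abs, sq_abs]
    · intro x hx y hy hxy
      rw [← mul_sub, hN] at hxy
      push_cast at hxy
      have h1 := (IsCoprime.pow (m := i) (n := t0 + L) (show IsCoprime (3 : ℤ) 2 by
        norm_num [Int.isCoprime_iff_gcd_eq_one])).dvd_of_dvd_mul_left hxy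
      have h2 : y ≡ x [MOD N] := by rw [Nat.modEq_iff_dvd, hN]; exact_mod_cast h1
      exact h2.eq_of_lt_of_lt (mem_range.mp (mem_filter.mp hy).1) (mem_range.mp (mem_filter.mp hx).1)
  have b2 : ∀ ξ ∈ F, ‖a2 ξ‖ ^ 2 ≤ (2 ^ L) ^ 2 * E := by
    intro ξ hξ
    have hξ := (mem_filter.mp hξ).2
    have hξ0 : ξ ≠ 0 := by rintro rfl; exact hξ (dvd_zero _)
    obtain ⟨j, ξ', hξ', rfl⟩ := Nat.exists_eq_pow_mul_and_not_dvd hξ0 3 (by norm_num)
    have hj : j < i - m := by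
      by_contra hc
      exact hξ ((pow_dvd_pow 3 (by omega)).mul_right _)
    have := hE (i - j - k) (-(ξ' : ℤ)) (i - k) (by
      rw [dvd_neg]; exact_mod_cast hξ') (by omega) (by omega)
    refine le_of_eq_of_le ?_ this
    congr 2
    simp only [a2, AA, W2, sum_filter]
    apply sum_congr rfl; intro v _
    have e : k + ones v = i ↔ ones v + 0 = i - k := by omega
    simp only [e]
    split_ifs
    · rw [hN, show 3 ^ i = 3 ^ (j + k) * 3 ^ (i - j - k) by rw [← pow_add]; congr 1; omega,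
        ← EE_cancel (3 ^ (i - j - k)) (3 ^ (j + k)) (by positivity)]
      congr 1; push_cast; ring
    · rfl
  have b1 : ∑ ξ ∈ F, ‖a1 ξ‖ ^ 2 ≤ (2 ^ t0) ^ 2 * (Tt + 2) := by
    have c1 : ∑ ξ ∈ F, ‖a1 ξ‖ ^ 2 ≤ ∑ ξ ∈ range N, ‖a1 ξ‖ ^ 2 :=
      sum_le_sum_of_subset_of_nonneg (filter_subset _ _) (fun _ _ _ => by positivity)
    have c2 := parseval_card hN0 (W1 t0 k Tt) (fun w => -(2 ^ L * (off w : ℤ))) _
      (fun w _ => W1_count t0 k Tt i L w)
    have c3 : ((W1 t0 k Tt).card : ℝ) ≤ 2 ^ t0 := by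
      have := card_le_card (filter_subset (fun w => ones w = k ∧ off w ≤ Tt * 2 ^ t0) (Str t0))
      rw [card_Str] at this
      exact_mod_cast this
    have hi' : (3 : ℝ) ^ i ≤ 2 ^ t0 := by exact_mod_cast hi
    have h1 : (1 : ℝ) ≤ 2 ^ t0 := one_le_pow₀ (by norm_num)
    refine c1.trans (c2.trans ?_)
    rw [hN]; push_cast
    rw [mul_left_comm, mul_div_cancel₀ _ (by positivity)]
    calc _ ≤ (2 : ℝ) ^ t0 * (Tt * 2 ^ t0 + 2 ^ t0 + 2 ^ t0) := by gcongr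
      _ = _ := by ring
  unfold Mean
  rw [← hN, e2, div_le_iff₀ (by positivity)]
  have b3 : ∑ ξ ∈ F, ‖a1 ξ * a2 ξ‖ ^ 2 ≤ ∑ ξ ∈ F, (2 ^ L) ^ 2 * E * ‖a1 ξ‖ ^ 2 := by
    apply sum_le_sum
    intro ξ hξ
    rw [norm_mul, mul_pow, mul_comm]
    exact mul_le_mul_of_nonneg_right (b2 ξ hξ) (by positivity)
  rw [← mul_sum] at b3
  have b4 := mul_le_mul_of_nonneg_left b1 (show 0 ≤ ((2 : ℝ) ^ L) ^ 2 * E by positivity)
  rw [hN]; push_cast
  rw [mul_comm]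
  apply mul_le_mul_of_nonneg_right _ (by positivity)
  calc _ ≤ ((2 : ℝ) ^ L) ^ 2 * E * ((2 ^ t0) ^ 2 * (Tt + 2)) := b3.trans b4
    _ = _ := by ring

end Pool.Agent.Lib.MP_76ba2b_nt
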