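import Pool.Agent.Lib.MP_76ba2b_nt.NdF

set_option autoImplicit false

/-! For most `a` the density of the predecessor set of `a` is `O(1 / a)`. -/

namespace Pool.Agent.Lib.MP_76ba2b_nt.Sh

open Finset Filter Topology

/-- The number of odd steps among the first `j`. -/
def od : ℕ → ℕ → ℕ
  | 0, _ => 0
  | j + 1, n => n % 2 + od j (T n)

lemma size (j : ℕ) : ∀ n, 2 ^ j * (T^[j] n + 1) ≤ 3 ^ od j n * (n + 2 ^ j) := by
  induction j with
  | zero => intro n; simp [od]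
  | succ j ih =>
    intro n
    have h := ih (T n)
    have hp : 1 ≤ 2 ^ j := Nat.one_le_two_pow
    rw [Function.iterate_succ_apply, od, pow_add 3, pow_succ 2 j]
    clear ih
    generalize T^[j] (T n) + 1 = A at h ⊢
    generalize 3 ^ od j (T n) = B at h ⊢
    generalize 2 ^ j = P at h hp ⊢
    have h2 : 2 * (T n + P) ≤ 3 ^ (n % 2) * (n + P * 2) := by
      unfold T
      rcases Nat.mod_two_eq_zero_or_one n with e | e <;> simp only [e] <;> simp <;> omega
    calc P * 2 * A = 2 * (P * A) := by ring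
      _ ≤ 2 * (B * (T n + P)) := by gcongr
      _ = B * (2 * (T n + P)) := by ring
      _ ≤ B * (3 ^ (n % 2) * (n + P * 2)) := by gcongr
      _ = _ := by ring

lemma sum_two (f : ℕ → ℝ) (N : ℕ) :
    ∑ m ∈ range (2 * N), f m = ∑ m ∈ range N, f (2 * m) + ∑ m ∈ range N, f (2 * m + 1) := by
  induction N with
  | zero => simp
  | succ N ih => rw [Nat.mul_succ, sum_range_succ, sum_range_succ, ih, sum_range_succ,
      sum_range_succ]; ring

lemma gen (t : ℝ) (j : ℕ) : ∀ u c : ℕ, u % 2 = 1 →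
    ∑ m ∈ range (2 ^ j), t ^ od j (u * m + c) = (1 + t) ^ j := by
  induction j with
  | zero => intro u c _; simp [od]
  | succ j ih =>
    intro u c hu
    have step : ∀ c : ℕ, ∑ m ∈ range (2 ^ j), t ^ od (j + 1) (2 * (u * m) + c) =
        t ^ (c % 2) * (1 + t) ^ j := by
      intro c
      rcases Nat.mod_two_eq_zero_or_one c with e | e
      · rw [← ih u (c / 2) hu, mul_sum]
        refine sum_congr rfl fun m _ => ?_
        have e1 : (2 * (u * m) + c) % 2 = 0 := by omega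
        have e2 : T (2 * (u * m) + c) = u * m + c / 2 := by
          unfold T; rw [if_pos e1]; omega
        rw [od, e1, e2, e, pow_add]
      · rw [← ih (3 * u) ((3 * c + 1) / 2) (by omega), mul_sum]
        refine sum_congr rfl fun m _ => ?_
        have e1 : (2 * (u * m) + c) % 2 = 1 := by omega
        have e2 : T (2 * (u * m) + c) = 3 * u * m + (3 * c + 1) / 2 := by
          unfold T; rw [if_neg (by omega), mul_assoc]; omega
        rw [od, e1, e2, e, pow_add]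
    rw [pow_succ', sum_two]
    have a1 : ∀ m : ℕ, u * (2 * m) + c = 2 * (u * m) + c := fun m => by ring
    have a2 : ∀ m : ℕ, u * (2 * m + 1) + c = 2 * (u * m) + (u + c) := fun m => by ring
    simp only [a1, a2, step]
    rcases Nat.mod_two_eq_zero_or_one c with e | e
    · rw [e, show (u + c) % 2 = 1 by omega]; ring
    · rw [e, show (u + c) % 2 = 0 by omega]; ring

lemma blocks (t : ℝ) (j X q : ℕ) :
    ∑ i ∈ range (q * 2 ^ j), t ^ od j (X + i) = q * (1 + t) ^ j := by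
  induction q with
  | zero => simp
  | succ q ih =>
    rw [Nat.succ_mul, sum_range_add, ih]
    have := gen t j 1 (X + q * 2 ^ j) rfl
    simp only [one_mul] at this
    rw [show ∑ x ∈ range (2 ^ j), t ^ od j (X + (q * 2 ^ j + x)) = (1 + t) ^ j from
      (sum_congr rfl fun x _ => by congr 2; ring).trans this]
    push_cast; ring

lemma window {t : ℝ} (ht : 0 ≤ t) {j X : ℕ} (h : 2 ^ j ≤ X) :
    2 ^ j * ∑ n ∈ Ico X (2 * X), t ^ od j n ≤ 2 * X * (1 + t) ^ j := by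
  have hp : 0 < 2 ^ j := by positivity
  have b1 : X ≤ (X / 2 ^ j + 1) * 2 ^ j := by
    rw [mul_comm]; exact (Nat.lt_mul_div_succ X hp).le
  have b2 : (X / 2 ^ j + 1) * 2 ^ j ≤ 2 * X := by
    have := Nat.div_mul_le_self X (2 ^ j)
    rw [add_mul]; omega
  have b3 : ((X / 2 ^ j + 1 : ℕ) : ℝ) * 2 ^ j ≤ 2 * X := by exact_mod_cast b2
  rw [sum_Ico_eq_sum_range, show 2 * X - X = X by omega]
  calc _ ≤ 2 ^ j * ∑ i ∈ range ((X / 2 ^ j + 1) * 2 ^ j), t ^ od j (X + i) := by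
        gcongr
    _ = ((X / 2 ^ j + 1 : ℕ) : ℝ) * 2 ^ j * (1 + t) ^ j := by rw [blocks]; ring
    _ ≤ _ := by gcongr

/-- The decay rate. -/
noncomputable def q : ℝ := 127 / 128

lemma tail {j X y : ℕ} {z : ℝ} (h : 2 ^ j ≤ X) (hy : 0 < y) (hz : 0 ≤ z)
    (hX : 3 * (X : ℝ) ≤ z ^ 2 * y) :
    (((Ico X (2 * X)).filter fun n => y ≤ T^[j] n).card : ℝ) ≤ 2 * X * z * (q ^ 2) ^ j := by
  have hy' : (0 : ℝ) < y := by exact_mod_cast hy
  have k1 : ∀ n ∈ (Ico X (2 * X)).filter fun n => y ≤ T^[j] n,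
      (7 / 5 : ℝ) ^ j ≤ z * (7 / 4) ^ od j n := by
    intro n hn
    obtain ⟨hn, hyn⟩ := mem_filter.1 hn
    have a1 : 2 ^ j * y ≤ 3 ^ od j n * (3 * X) :=
      calc 2 ^ j * y ≤ 2 ^ j * (T^[j] n + 1) := by gcongr; omega
        _ ≤ _ := size j n
        _ ≤ _ := by have := (mem_Ico.1 hn).2; gcongr; omega
    have a2 : (2 : ℝ) ^ j * y ≤ 3 ^ od j n * (3 * X) := by exact_mod_cast a1
    have a3 : (2 : ℝ) ^ j ≤ 3 ^ od j n * z ^ 2 := by
      refine le_of_mul_le_mul_right (a2.trans ?_) hy'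
      rw [mul_assoc]; gcongr
    refine (pow_le_pow_iff_left₀ (by positivity) (by positivity) two_ne_zero).1 ?_
    rw [mul_pow, ← pow_mul, ← pow_mul, mul_comm j, mul_comm (od j n), pow_mul, pow_mul]
    calc _ ≤ (2 : ℝ) ^ j := by gcongr; norm_num
      _ ≤ z ^ 2 * 3 ^ od j n := by rwa [mul_comm]
      _ ≤ _ := by gcongr; norm_num
  have k2 := card_nsmul_le_sum _ _ _ k1
  have k3 : ∑ n ∈ (Ico X (2 * X)).filter fun n => y ≤ T^[j] n, z * (7 / 4 : ℝ) ^ od j n ≤
      z * ∑ n ∈ Ico X (2 * X), (7 / 4 : ℝ) ^ od j n := by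
    rw [mul_sum]
    exact sum_le_sum_of_subset_of_nonneg (filter_subset _ _) fun _ _ _ => by positivity
  have k4 := window (t := 7 / 4) (by norm_num) h
  have k5 : (1 + 7 / 4 : ℝ) ^ j ≤ (q ^ 2) ^ j * (2 ^ j * (7 / 5) ^ j) := by
    rw [← mul_pow, ← mul_pow]; gcongr; norm_num [q]
  rw [nsmul_eq_mul] at k2
  refine le_of_mul_le_mul_right ?_ (show (0 : ℝ) < 2 ^ j * (7 / 5) ^ j by positivity)
  calc _ = 2 ^ j * ((((Ico X (2 * X)).filter fun n => y ≤ T^[j] n).card : ℝ) * (7 / 5) ^ j) := by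
        ring
    _ ≤ 2 ^ j * (z * ∑ n ∈ Ico X (2 * X), (7 / 4 : ℝ) ^ od j n) :=
        mul_le_mul_of_nonneg_left (k2.trans k3) (by positivity)
    _ = z * (2 ^ j * ∑ n ∈ Ico X (2 * X), (7 / 4 : ℝ) ^ od j n) := by ring
    _ ≤ z * (2 * X * ((q ^ 2) ^ j * (2 ^ j * (7 / 5) ^ j))) :=
        mul_le_mul_of_nonneg_left (k4.trans (by gcongr)) hz
    _ = _ := by ring

/-- Points on the orbit of a small number which are small again after `k` steps are rare. -/
lemma late {k Y : ℕ} (hk : 0 < k) (G : Finset ℕ)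
    (hG : ∀ s ∈ G, T^[k] s ≤ Y ∧ ∃ i, ∃ m ≤ Y, T^[i] m = s) : G.card ≤ (Y + 1) * k := by
  classical
  have sub : G ⊆ (range (Y + 1) ×ˢ Icc 1 k).image
      fun p => T^[sInf {e | 0 < e ∧ T^[e] p.1 ≤ Y} - p.2] p.1 := by
    intro s hs
    obtain ⟨h1, h2⟩ := hG s hs
    obtain ⟨m, hm, hi⟩ := Nat.find_spec h2
    have mem : Nat.find h2 + k ∈ {e | 0 < e ∧ T^[e] m ≤ Y} :=
      ⟨by omega, by rw [add_comm, Function.iterate_add_apply, hi]; exact h1⟩
    have u1 := Nat.sInf_le mem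
    obtain ⟨u2, u3⟩ := Nat.sInf_mem ⟨_, mem⟩
    have u4 : Nat.find h2 < sInf {e | 0 < e ∧ T^[e] m ≤ Y} := by
      by_contra hc
      refine Nat.find_min h2 (m := Nat.find h2 - sInf {e | 0 < e ∧ T^[e] m ≤ Y}) (by omega)
        ⟨_, u3, ?_⟩
      rw [← Function.iterate_add_apply, Nat.sub_add_cancel (by omega), hi]
    refine mem_image.2 ⟨(m, sInf {e | 0 < e ∧ T^[e] m ≤ Y} - Nat.find h2), ?_, ?_⟩
    · simp only [mem_product, mem_range, mem_Icc]; omega
    · simp only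
      rw [Nat.sub_sub_self u4.le, hi]
  refine (card_le_card sub).trans (card_image_le.trans ?_)
  simp

open Classical in
/-- An orbit meets a set of non-returning points only a few times. -/
lemma visits {X K k Y : ℕ} {B : Finset ℕ}
    (hB : ∀ a ∈ B, X ≤ a ∧ (∀ j, K ≤ j → j ≤ k → T^[j] a < X) ∧ T^[k] a ≤ Y ∧
      ¬ ∃ i, ∃ m ≤ Y, T^[i] m = a) (n : ℕ) :
    (B.filter fun a => ∃ i, T^[i] n = a).card ≤ K := by
  by_cases h : ∃ i, T^[i] n ∈ B
  · have sub : (B.filter fun a => ∃ i, T^[i] n = a) ⊆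
        (range K).image fun j => T^[j] (T^[Nat.find h] n) := by
      intro a ha
      obtain ⟨ha, i, rfl⟩ := mem_filter.1 ha
      have h1 : Nat.find h ≤ i := Nat.find_min' h ha
      obtain ⟨j, rfl⟩ := Nat.exists_eq_add_of_le' h1
      obtain ⟨-, b2, b3, -⟩ := hB _ (Nat.find_spec h)
      obtain ⟨c1, -, -, c4⟩ := hB _ ha
      rw [Function.iterate_add_apply] at c1 c4 ⊢
      refine mem_image.2 ⟨j, mem_range.2 ?_, rfl⟩
      by_contra hc
      rcases le_total j k with hj | hj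
      · exact absurd (b2 j (by omega) hj) (by omega)
      · refine c4 ⟨j - k, _, b3, ?_⟩
        rw [← Function.iterate_add_apply, Nat.sub_add_cancel hj]
    exact (card_le_card sub).trans (card_image_le.trans (by simp))
  · rw [filter_eq_empty_iff.2, card_empty]
    · exact Nat.zero_le _
    · rintro a ha ⟨i, rfl⟩
      exact h ⟨i, ha⟩

open Classical in
/-- The indicator function of the predecessor set. -/
noncomputable def ind (a n : ℕ) : ℝ := if ∃ k, T^[k] n = a then 1 else 0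

/-- The set of predecessors up to `x`. -/
def pre (a : ℕ) (x : ℝ) : Set ℕ := {n : ℕ | 0 < n ∧ (n : ℝ) ≤ x ∧ ∃ k : ℕ, T^[k] n = a}

lemma exists_dens (a : ℕ) : ∃ d, Tendsto (fun x => Nn (ind a) x / x) atTop (𝓝 d) := by
  obtain ⟨d, hd⟩ := (iv_pred a).window
  exact ⟨d, (iv_pred a).density hd⟩

/-- The density of the predecessor set. -/
noncomputable def dens (a : ℕ) : ℝ := (exists_dens a).choose

lemma dens_lim (a : ℕ) : Tendsto (fun x => Nn (ind a) x / x) atTop (𝓝 (dens a)) :=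
  (exists_dens a).choose_spec

lemma dens_nonneg (a : ℕ) : 0 ≤ dens a :=
  ge_of_tendsto (dens_lim a) ((eventually_ge_atTop 0).mono fun _ hx =>
    div_nonneg (sum_nonneg fun n _ => (iv_pred a).lo n) hx)

lemma le_dens {a : ℕ} {s : ℝ} (h : ∃ᶠ x : ℝ in atTop, s * x < ((pre a x).ncard : ℝ)) :
    s ≤ dens a := by
  classical
  have h2 := (dens_lim a).add (tendsto_id.const_div_atTop (1 : ℝ))
  rw [add_zero] at h2
  refine ge_of_tendsto_of_frequently h2 ((h.and_eventually (eventually_gt_atTop 0)).mono ?_)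
  rintro x ⟨hx, hx0⟩
  have sub : pre a x ⊆ ↑(insert ⌈x⌉₊ ((range ⌈x⌉₊).filter fun n => ∃ k, T^[k] n = a)) := by
    rintro n ⟨-, h1, h2⟩
    have : n ≤ ⌈x⌉₊ := by exact_mod_cast h1.trans (Nat.le_ceil x)
    simp only [coe_insert, coe_filter, mem_range, Set.mem_insert_iff, Set.mem_ofPred_eq]
    rcases this.eq_or_lt with e | e
    · exact Or.inl e
    · exact Or.inr ⟨e, h2⟩
  have c1 := Set.ncard_le_ncard sub (Finset.finite_toSet _)
  rw [Set.ncard_coe_finset] at c1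
  have c2 := c1.trans (card_insert_le _ _)
  rw [card_filter] at c2
  have c3 : ((pre a x).ncard : ℝ) ≤ Nn (ind a) x + 1 := by
    rw [Nn]; unfold ind; exact_mod_cast c2
  rw [id, ← add_div, le_div_iff₀ hx0]
  linarith

open Classical in
lemma sum_dens {B : Finset ℕ} {K : ℕ}
    (h : ∀ n, (B.filter fun a => ∃ i, T^[i] n = a).card ≤ K) : ∑ a ∈ B, dens a ≤ K := by
  have h1 := tendsto_finsetSum B fun a _ => dens_lim a
  have h2 := (tendsto_id.const_div_atTop (K : ℝ)).const_add (K : ℝ)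
  rw [add_zero] at h2
  refine le_of_tendsto_of_tendsto h1 h2 ((eventually_gt_atTop 0).mono fun x hx => ?_)
  have c1 : ∑ a ∈ B, Nn (ind a) x ≤ ⌈x⌉₊ * K := by
    unfold Nn
    rw [sum_comm]
    refine (sum_le_card_nsmul _ _ (K : ℝ) fun n _ => ?_).trans (by simp)
    have := h n
    rw [card_filter] at this
    unfold ind
    exact_mod_cast this
  have c2 : (⌈x⌉₊ : ℝ) * K ≤ (x + 1) * K := by gcongr; exact (Nat.ceil_lt_add_one hx.le).le
  simp only [id]
  rw [← sum_div, div_le_iff₀ hx, add_mul, div_mul_cancel₀ _ hx.ne']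
  linarith

lemma q_pos : 0 < q := by norm_num [q]

lemma q_lt : q < 1 := by norm_num [q]

lemma core {X K k Y : ℕ} {z t : ℝ} (hk : 0 < k) (hX : 2 ^ k ≤ X) (hz : 0 ≤ z) (ht : 0 < t)
    (hY : 3 * (X : ℝ) ≤ z ^ 2 * (Y + 1 : ℕ)) (E : Finset ℕ)
    (hE : ∀ a ∈ E, X ≤ a ∧ a < 2 * X ∧ t / a ≤ dens a) :
    (E.card : ℝ) ≤ 512 * X * q ^ K + 2 * X * z * (q ^ 2) ^ k + (Y + 1) * k + 2 * X * K / t := by
  classical
  have hX0 : 0 < X := lt_of_lt_of_le (by positivity) hX
  have hX1 : (0 : ℝ) < X := by exact_mod_cast hX0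
  set E1 := (Icc K k).biUnion fun j => (Ico X (2 * X)).filter fun n => X ≤ T^[j] n with hE1
  set E2 := (Ico X (2 * X)).filter fun n => Y + 1 ≤ T^[k] n with hE2
  set E3 := E.filter fun s => T^[k] s ≤ Y ∧ ∃ i, ∃ m ≤ Y, T^[i] m = s with hE3
  set B := E.filter fun a => X ≤ a ∧ (∀ j, K ≤ j → j ≤ k → T^[j] a < X) ∧ T^[k] a ≤ Y ∧
      ¬ ∃ i, ∃ m ≤ Y, T^[i] m = a with hB
  have sub : E ⊆ E1 ∪ E2 ∪ E3 ∪ B := by
    intro a ha
    obtain ⟨a1, a2, -⟩ := hE a ha
    simp only [hE1, hE2, hE3, hB, mem_union, mem_biUnion, mem_filter, mem_Ico, mem_Icc]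
    by_cases c1 : ∀ j, K ≤ j → j ≤ k → T^[j] a < X
    · by_cases c2 : T^[k] a ≤ Y
      · by_cases c3 : ∃ i, ∃ m ≤ Y, T^[i] m = a
        · exact Or.inl (Or.inr ⟨ha, c2, c3⟩)
        · exact Or.inr ⟨ha, a1, c1, c2, c3⟩
      · exact Or.inl (Or.inl (Or.inr ⟨⟨a1, a2⟩, by omega⟩))
    · push Not at c1
      obtain ⟨j, j1, j2, j3⟩ := c1
      exact Or.inl (Or.inl (Or.inl ⟨j, ⟨j1, j2⟩, ⟨a1, a2⟩, j3⟩))
  have c0 : E.card ≤ E1.card + E2.card + E3.card + B.card :=
    (card_le_card sub).trans ((card_union_le _ _).trans (Nat.add_le_add_right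
      ((card_union_le _ _).trans (Nat.add_le_add_right (card_union_le _ _) _)) _))
  have c1 : (E1.card : ℝ) ≤ 512 * X * q ^ K := by
    have u1 : (E1.card : ℝ) ≤ ∑ j ∈ Icc K k,
        (((Ico X (2 * X)).filter fun n => X ≤ T^[j] n).card : ℝ) := by
      exact_mod_cast card_biUnion_le
    have u2 : ∑ j ∈ Ico K (k + 1), q ^ j ≤ q ^ K / (1 - q) :=
      geom_sum_Ico_le_of_lt_one q_pos.le q_lt
    have u3 : q ^ K / (1 - q) = 128 * q ^ K := by rw [show 1 - q = 1 / 128 by norm_num [q]]; ring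
    calc _ ≤ _ := u1
      _ ≤ ∑ j ∈ Icc K k, 4 * X * q ^ j := sum_le_sum fun j hj => by
          have := tail (j := j) (z := 2) ((Nat.pow_le_pow_right two_pos (mem_Icc.1 hj).2).trans hX)
            hX0 (by norm_num) (by linarith)
          have v : (q ^ 2) ^ j ≤ q ^ j := by
            gcongr
            norm_num [q]
          nlinarith
      _ = 4 * X * ∑ j ∈ Ico K (k + 1), q ^ j := by rw [mul_sum]; rfl
      _ ≤ 4 * X * (128 * q ^ K) := by gcongr; exact u2.trans u3.le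
      _ = _ := by ring
  have c2 : (E2.card : ℝ) ≤ 2 * X * z * (q ^ 2) ^ k := tail hX (by omega) hz hY
  have c3 : (E3.card : ℝ) ≤ (Y + 1) * k := by
    exact_mod_cast late hk E3 fun s hs => (mem_filter.1 hs).2
  have c4 : (B.card : ℝ) ≤ 2 * X * K / t := by
    have u1 := sum_dens (visits (B := B) fun a ha => (mem_filter.1 ha).2)
    have u2 := card_nsmul_le_sum B dens (t / (2 * X)) fun a ha => by
      obtain ⟨a1, a2, a3⟩ := hE a (mem_filter.1 ha).1
      refine le_trans ?_ a3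
      have : (0 : ℝ) < a := by exact_mod_cast hX0.trans_le a1
      gcongr
      exact_mod_cast a2.le
    rw [nsmul_eq_mul, ← mul_div_assoc] at u2
    have u3 := u2.trans u1
    rw [div_le_iff₀ (by positivity)] at u3
    rw [le_div_iff₀ ht]
    linarith
  have c5 : (E.card : ℝ) ≤ E1.card + E2.card + E3.card + B.card := by exact_mod_cast c0
  linarith

theorem sharp_main : ∃ C δ : ℝ, 0 < δ ∧ ∀ X : ℕ, 2 ≤ X → ∀ t : ℝ, 2 ≤ t →
    (Set.ncard {a : ℕ | X ≤ a ∧ a < 2 * X ∧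
      ∃ᶠ x : ℝ in atTop, t / a * x < ((pre a x).ncard : ℝ)} : ℝ) ≤
      C * X * (Real.log t / t + (X : ℝ) ^ (-δ)) := by
  classical
  obtain ⟨L, hL⟩ : ∃ L, L = -Real.log q := ⟨_, rfl⟩
  have L0 : 0 < L := by rw [hL]; exact neg_pos.2 (Real.log_neg q_pos q_lt)
  have l2 : 1 / 2 < Real.log 2 := by linarith [Real.log_two_gt_d9]
  have qe : ∀ n : ℕ, q ^ n = Real.exp (-(L * n)) := fun n => by
    rw [hL, neg_mul, neg_neg, mul_comm, Real.exp_nat_mul, Real.exp_log q_pos]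
  refine ⟨1028 + 2 / L, L / Real.log 2, by positivity, fun X hX t ht => ?_⟩
  have X0 : (0 : ℝ) < X := by positivity
  have t0 : 0 < t := by linarith
  have lt : 1 / 2 < Real.log t := l2.trans_le (Real.log_le_log two_pos ht)
  obtain ⟨k, hk⟩ : ∃ k, k = Nat.log 2 X := ⟨_, rfl⟩
  have k0 : 0 < k := hk ▸ Nat.log_pos one_lt_two hX
  have k1 : 2 ^ k ≤ X := hk ▸ Nat.pow_log_le_self 2 (by omega)
  have k2 : X < 2 ^ (k + 1) := hk ▸ Nat.lt_pow_succ_log_self one_lt_two X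
  obtain ⟨p, hp⟩ : ∃ p, p = q ^ k := ⟨_, rfl⟩
  have p0 : 0 < p := hp ▸ pow_pos q_pos k
  have p2 : (q ^ 2) ^ k = p ^ 2 := by rw [hp, ← pow_mul, ← pow_mul, mul_comm]
  have p3 : k * p ≤ 127 := by
    have a := one_add_mul_le_pow (a := (1 / 127 : ℝ)) (by norm_num) k
    have b : (1 + 1 / 127 : ℝ) ^ k * p = 1 := by
      rw [hp, ← mul_pow, show (1 + 1 / 127 : ℝ) * q = 1 by norm_num [q], one_pow]
    nlinarith
  have p4 : 1 ≤ X * p ^ 2 := by
    have a : (2 : ℝ) ^ k ≤ X := by exact_mod_cast k1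
    calc (1 : ℝ) ≤ (2 * q ^ 2) ^ k := one_le_pow₀ (by norm_num [q])
      _ = 2 ^ k * p ^ 2 := by rw [mul_pow, p2]
      _ ≤ _ := by gcongr
  have p5 : p ≤ 2 * (X : ℝ) ^ (-(L / Real.log 2)) := by
    have a : Real.log X ≤ (k + 1 : ℕ) * Real.log 2 := by
      rw [← Real.log_pow]
      exact Real.log_le_log X0 (by exact_mod_cast k2.le)
    have b : q ^ (k + 1) ≤ (X : ℝ) ^ (-(L / Real.log 2)) := by
      rw [qe, Real.rpow_def_of_pos X0, Real.exp_le_exp, mul_neg, neg_le_neg_iff, ← mul_div_assoc,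
        div_le_iff₀ (by linarith)]
      nlinarith
    rw [pow_succ, ← hp, q] at b
    linarith
  obtain ⟨K, hK⟩ : ∃ K, K = ⌈Real.log t / L⌉₊ := ⟨_, rfl⟩
  have K1 : q ^ K ≤ 1 / t := by
    have a : Real.log t / L ≤ K := hK ▸ Nat.le_ceil _
    rw [div_le_iff₀ L0] at a
    rw [qe, one_div, ← Real.exp_log t0, ← Real.exp_neg, Real.exp_le_exp]
    linarith
  have K2 : (K : ℝ) ≤ (1 / L + 2) * Real.log t := by
    have a : (K : ℝ) < Real.log t / L + 1 := hK ▸ Nat.ceil_lt_add_one (by positivity)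
    have b : (1 / L + 2) * Real.log t = Real.log t / L + 2 * Real.log t := by ring
    linarith
  have Y1 : (⌊X * p ^ 2⌋₊ : ℝ) ≤ X * p ^ 2 := Nat.floor_le (by positivity)
  have Y2 : X * p ^ 2 < ⌊X * p ^ 2⌋₊ + 1 := Nat.lt_floor_add_one _
  have e : {a : ℕ | X ≤ a ∧ a < 2 * X ∧
      ∃ᶠ x : ℝ in atTop, t / a * x < ((pre a x).ncard : ℝ)} = ↑((Ico X (2 * X)).filter fun a =>
        ∃ᶠ x : ℝ in atTop, t / a * x < ((pre a x).ncard : ℝ)) := by
    ext a
    simp only [Set.mem_ofPred_eq, coe_filter, mem_Ico, and_assoc]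
  rw [e, Set.ncard_coe_finset]
  refine (core (K := K) (Y := ⌊X * p ^ 2⌋₊) (z := 2 / p) k0 k1 (by positivity) t0 ?_ _
    fun a ha => ?_).trans ?_
  · push_cast
    calc 3 * (X : ℝ) ≤ (2 / p) ^ 2 * (X * p ^ 2) := by field_simp; linarith
      _ ≤ _ := by gcongr
  · obtain ⟨h1, h2⟩ := mem_filter.1 ha
    exact ⟨(mem_Ico.1 h1).1, (mem_Ico.1 h1).2, le_dens h2⟩
  · have s0 : 0 ≤ (X : ℝ) ^ (-(L / Real.log 2)) := by positivity
    generalize (X : ℝ) ^ (-(L / Real.log 2)) = s at p5 s0 ⊢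
    have a1 : 512 * X * q ^ K ≤ 1024 * X * (Real.log t / t) :=
      calc _ ≤ 512 * X * (1 / t) := by gcongr
        _ ≤ 512 * X * (2 * Real.log t / t) := by gcongr; linarith
        _ = _ := by ring
    have a2 : 2 * X * (2 / p) * (q ^ 2) ^ k = 4 * (X * p) := by rw [p2]; field_simp; norm_num
    have a3 : ((⌊X * p ^ 2⌋₊ : ℝ) + 1) * k ≤ 254 * (X * p) :=
      calc _ ≤ 2 * (X * p ^ 2) * k := by gcongr; linarith
        _ = 2 * (X * p) * (k * p) := by ring
        _ ≤ 2 * (X * p) * 127 := by gcongr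
        _ = _ := by ring
    have a4 : 2 * X * K / t ≤ (2 / L + 4) * X * (Real.log t / t) :=
      calc _ ≤ 2 * X * ((1 / L + 2) * Real.log t) / t := by gcongr
        _ = _ := by ring
    have a5 : X * p ≤ 2 * (X * s) := by nlinarith
    have a6 : 0 ≤ 2 / L * (X * s) := by positivity
    have a7 : 0 ≤ X * s := by positivity
    nlinarith

end Pool.Agent.Lib.MP_76ba2b_nt.Sh
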