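import Pool.Agent.Lib.MP_76ba2b_nt.Mixing

set_option autoImplicit false

namespace Pool.Agent.Lib.MP_76ba2b_nt

open Finset

lemma three_pow_le {i L : ℕ} (h : 8 * i ≤ 5 * L) : 3 ^ i ≤ 2 ^ L := by
  have a1 : (3 ^ i) ^ 5 ≤ (2 ^ L) ^ 5 := by
    rw [← pow_mul, ← pow_mul, mul_comm i, pow_mul]
    calc (3 ^ 5) ^ i ≤ (2 ^ 8) ^ i := Nat.pow_le_pow_left (by norm_num) _
      _ = 2 ^ (8 * i) := by rw [pow_mul]
      _ ≤ 2 ^ (L * 5) := Nat.pow_le_pow_right (by norm_num) (by omega)
  exact (Nat.pow_le_pow_iff_left (by norm_num)).mp a1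

/-- The predecessors with given numbers of steps and bounded offset lie in a short interval. -/
lemma meas_bound {L Tt K s : ℕ} {G : Finset (List Bool)} {h : ℕ → ℝ} (hp : Per K h)
    (h0 : ∀ b, 0 ≤ h b)
    (hG : ∀ w ∈ G, w.length = L ∧ off w ≤ Tt * 2 ^ L ∧ 8 * (ones w + K) ≤ 5 * L) :
    ∑ w ∈ G, dl w s * h (endp w s) ≤ 2 ^ L * ((L + 1) * (Tt + 3) * Mean K h) := by
  classical
  have hM := Mean_nonneg K h0
  rw [← sum_fiberwise_of_maps_to (s := G) (t := range (L + 1)) (g := ones)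
    (fun w hw => mem_range.mpr (by have := ones_le w; have := (hG w hw).1; omega))]
  have key : ∀ k ∈ range (L + 1), ∑ w ∈ G with ones w = k, dl w s * h (endp w s) ≤
      2 ^ L * ((Tt + 3) * Mean K h) := by
    intro k _
    by_cases hk : 8 * (k + K) ≤ 5 * L
    swap
    · rw [sum_eq_zero]
      · positivity
      · intro w hw
        rw [mem_filter] at hw
        exact absurd (hw.2 ▸ (hG w hw.1).2.2) hk
    set V := (G.filter (fun w => ones w = k)).filter (fun w => valid w s) with hV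
    have e1 : ∑ w ∈ G with ones w = k, dl w s * h (endp w s) = 3 ^ k * ∑ w ∈ V, h (endp w s) := by
      rw [hV, sum_filter (p := fun w => valid w s), mul_sum]
      apply sum_congr rfl; intro w hw
      split_ifs with hv
      · rw [dl_of_valid hv, (mem_filter.mp hw).2]
      · rw [dl_of_not_valid hv]; simp
    have hVm : ∀ w ∈ V, w ∈ G ∧ ones w = k ∧ valid w s := by
      intro w hw
      simp only [hV, mem_filter] at hw
      exact ⟨hw.1.1, hw.1.2, hw.2⟩
    rw [e1, ← sum_image (f := h) (g := fun w => endp w s) (s := V)]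
    swap
    · intro a ha b hb hab
      have ha := hVm a ha
      have hb := hVm b hb
      exact endp_inj a b s ((hG a ha.1).1.trans (hG b hb.1).1.symm) ha.2.2 hb.2.2 hab
    have h3 : 0 < 3 ^ k := by positivity
    have a1 := hp.sum_le h0 (S := V.image (fun w => endp w s))
      (a := (2 ^ L * s - Tt * 2 ^ L) / 3 ^ k) (D := Tt * 2 ^ L / 3 ^ k + 2) (by
      intro c hc
      obtain ⟨w, hw, rfl⟩ := mem_image.mp hc
      obtain ⟨b1, b2, b3⟩ := hVm w hw
      have b4 := endp_eq w s b3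
      obtain ⟨b5, b6, -⟩ := hG w b1
      rw [b2, b5] at b4
      constructor
      · apply Nat.div_le_of_le_mul; omega
      · apply Nat.lt_of_mul_lt_mul_left (a := 3 ^ k)
        have c1 := Nat.lt_mul_div_succ (2 ^ L * s - Tt * 2 ^ L) h3
        have c2 := Nat.lt_mul_div_succ (Tt * 2 ^ L) h3
        have : 3 ^ k * ((2 ^ L * s - Tt * 2 ^ L) / 3 ^ k + (Tt * 2 ^ L / 3 ^ k + 2)) =
          3 ^ k * ((2 ^ L * s - Tt * 2 ^ L) / 3 ^ k + 1) + 3 ^ k * (Tt * 2 ^ L / 3 ^ k + 1) := by ring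
        omega)
    have a2 : 3 ^ k * ((Tt * 2 ^ L / 3 ^ k + 2) + 3 ^ K) ≤ 2 ^ L * (Tt + 3) := by
      have c1 := Nat.mul_div_le (Tt * 2 ^ L) (3 ^ k)
      have c2 := three_pow_le hk
      have c3 := three_pow_le (i := k) (L := L) (by omega)
      rw [pow_add] at c2
      nlinarith
    have a3 : (3 : ℝ) ^ k * (((Tt * 2 ^ L / 3 ^ k + 2 : ℕ) : ℝ) + 3 ^ K) ≤ 2 ^ L * (Tt + 3) := by
      exact_mod_cast a2
    calc _ ≤ (3 : ℝ) ^ k * ((((Tt * 2 ^ L / 3 ^ k + 2 : ℕ) : ℝ) + 3 ^ K) * Mean K h) := by gcongr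
      _ ≤ 2 ^ L * (Tt + 3) * Mean K h := by rw [← mul_assoc]; gcongr
      _ = _ := by ring
  refine (sum_le_sum key).trans (le_of_eq ?_)
  rw [sum_const, card_range, nsmul_eq_mul]; push_cast; ring

/-- The stage lengths. -/
def LL (L0 : ℕ) : ℕ → ℕ
  | 0 => L0
  | r + 1 => LL L0 r + LL L0 r / 30

/-- Typical number of odd steps. -/
def typ (x L : ℕ) : Prop := 800 * x ≤ 401 * L ∧ 399 * L ≤ 800 * x

instance (x L : ℕ) : Decidable (typ x L) := by unfold typ; infer_instance

/-- The good words at stage `r`. -/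
def GG (L0 : ℕ) : ℕ → Finset (List Bool)
  | 0 => (Str L0).filter (fun w => typ (ones w) L0 ∧ off w ≤ L0 * 2 ^ L0)
  | r + 1 => (Str (LL L0 (r + 1))).filter (fun w => w.take (LL L0 r) ∈ GG L0 r ∧
      typ (ones (w.drop (LL L0 r))) (LL L0 r / 30))

lemma GG_length {L0 r : ℕ} {w : List Bool} (h : w ∈ GG L0 r) : w.length = LL L0 r := by
  cases r <;> exact mem_Str.mp (mem_filter.mp h).1

lemma sum_GG_succ (L0 r : ℕ) (F : List Bool → ℝ) :
    ∑ w ∈ GG L0 (r + 1), F w = ∑ w ∈ GG L0 r, ∑ u ∈ Str (LL L0 r / 30),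
      (if typ (ones u) (LL L0 r / 30) then F (w ++ u) else 0) := by
  rw [GG, sum_filter, LL, sum_Str_add]
  have : GG L0 r = (Str (LL L0 r)).filter (fun w => w ∈ GG L0 r) := by
    ext w; simp only [mem_filter, mem_Str]
    exact ⟨fun h => ⟨GG_length h, h⟩, fun h => h.2⟩
  conv_rhs => rw [this, sum_filter]
  apply sum_congr rfl; intro w hw
  have hl := mem_Str.mp hw
  simp only [List.take_left' hl, List.drop_left' hl]
  split_ifs with h
  · simp only [h, true_and]
  · simp only [h, false_and, if_false, sum_const_zero]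

lemma LL_ge {L0 : ℕ} (h : 900 ≤ L0) (r : ℕ) : L0 + 30 * r ≤ LL L0 r := by
  induction r with
  | zero => simp [LL]
  | succ r ih => rw [LL]; omega

lemma GG_inv {L0 : ℕ} (h : 900 ≤ L0) (r : ℕ) : ∀ w ∈ GG L0 r, typ (ones w) (LL L0 r) ∧
    (off w : ℝ) ≤ (L0 + 1 - (1 / 2) ^ r) * 2 ^ LL L0 r := by
  induction r with
  | zero =>
    intro w hw
    have := (mem_filter.mp hw).2
    refine ⟨this.1, ?_⟩
    simp only [pow_zero, add_sub_cancel_right, LL]
    exact_mod_cast this.2
  | succ r ih =>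
    intro w hw
    obtain ⟨h1, h2, h3⟩ := mem_filter.mp hw
    obtain ⟨i1, i2⟩ := ih _ h2
    have hl := mem_Str.mp h1
    have hL := LL_ge h r
    rw [← List.take_append_drop (LL L0 r) w, ones_append, off_append]
    have hd : (w.drop (LL L0 r)).length = LL L0 r / 30 := by
      rw [List.length_drop, hl, LL]; omega
    set v := w.take (LL L0 r)
    set u := w.drop (LL L0 r)
    set L := LL L0 r with hLdef
    have e : LL L0 (r + 1) = L + L / 30 := rfl
    rw [e]
    unfold typ at *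
    refine ⟨by omega, ?_⟩
    have a1 : 3 ^ ones v * off u ≤ 2 ^ L := by
      have := off_le u
      have c2 := three_pow_le (i := ones v + L / 30) (L := L) (by omega)
      rw [hd] at this
      rw [pow_add] at c2
      exact (Nat.mul_le_mul_left _ (Nat.le_of_add_right_le this)).trans c2
    have a2 : (3 : ℝ) ^ ones v * off u ≤ 2 ^ L := by exact_mod_cast a1
    have a3 : (1 : ℝ) ≤ (1 / 2) ^ (r + 1) * 2 ^ (L / 30) := by
      rw [one_div, inv_pow, ← div_eq_inv_mul, le_div_iff₀ (by positivity), one_mul]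
      exact pow_le_pow_right₀ (by norm_num) (by omega)
    push_cast
    rw [hd, pow_add (2 : ℝ) L]
    have a4 := mul_le_mul_of_nonneg_left i2 (show (0 : ℝ) ≤ 2 ^ (L / 30) by positivity)
    have a5 := mul_le_mul_of_nonneg_left a3 (show (0 : ℝ) ≤ 2 ^ L by positivity)
    rw [pow_succ] at a5 ⊢
    nlinarith

lemma GG_off {L0 : ℕ} (h : 900 ≤ L0) {r : ℕ} {w : List Bool} (hw : w ∈ GG L0 r) :
    off w ≤ (L0 + 1) * 2 ^ LL L0 r := by
  have h1 := (GG_inv h r w hw).2
  have h2 : (0 : ℝ) ≤ (1 / 2) ^ r * 2 ^ LL L0 r := by positivity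
  have : (off w : ℝ) ≤ (L0 + 1) * 2 ^ LL L0 r := by nlinarith
  exact_mod_cast this

lemma dl_mul_gg (u : List Bool) (M b : ℕ) :
    dl u b * gg M (endp u b) = (∑ v ∈ Str M, dl (u ++ v) b) / 2 ^ M := by
  simp only [dl_append, gg, ← mul_sum]; ring

lemma per_dl_gg {u : List Bool} {M K : ℕ} (h : u.length + M ≤ K) :
    Per K (fun b => dl u b * gg M (endp u b)) := by
  intro b
  simp only [dl_mul_gg]
  congr 1
  exact sum_congr rfl (fun v hv => dl_per (by rw [List.length_append, mem_Str.mp hv]; exact h) b)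

lemma mean_dl_gg {u : List Bool} {M K : ℕ} (h : u.length + M ≤ K) :
    Mean K (fun b => dl u b * gg M (endp u b)) = 1 := by
  simp only [dl_mul_gg]
  rw [Mean_div, Mean_sum, sum_congr rfl (fun v hv => mean_dl
    (by rw [List.length_append, mem_Str.mp hv]; exact h)), sum_const, card_Str, nsmul_eq_mul]
  push_cast; field_simp

lemma atyp_le (M : ℕ) :
    Bn M (fun x => if typ x M then 0 else 1) ≤ 2 * Real.exp (-(1 / 320000 * M)) := by
  have h1 : Bn M (fun x => if typ x M then 0 else 1) ≤ Bn M (fun x =>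
      (if 800 * x ≤ 401 * M then (0 : ℝ) else 1) + (if 399 * M ≤ 800 * x then (0 : ℝ) else 1)) := by
    apply Bn_mono
    intro x _
    unfold typ
    by_cases a : 800 * x ≤ 401 * M <;> by_cases b : 399 * M ≤ 800 * x <;> simp [a, b]
  rw [Bn_add] at h1
  have h2 : Bn M (fun x => if 800 * x ≤ 401 * M then (0 : ℝ) else 1) ≤
      Real.exp (-(1 / 320000 * M)) := by
    refine (tail_up M (1 / 400) (M / 400) (by norm_num) _ ?_ ?_).trans (le_of_eq ?_)
    · intro x; split_ifs <;> norm_num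
    · intro x hx
      rw [if_pos]
      have : 800 * (x : ℝ) ≤ 401 * M := by linarith
      exact_mod_cast this
    · congr 1; ring
  have h3 : Bn M (fun x => if 399 * M ≤ 800 * x then (0 : ℝ) else 1) ≤
      Real.exp (-(1 / 320000 * M)) := by
    refine (tail_lo M (1 / 400) (M / 400) (by norm_num) _ ?_ ?_).trans (le_of_eq ?_)
    · intro x; split_ifs <;> norm_num
    · intro x hx
      rw [if_pos]
      have : 399 * (M : ℝ) ≤ 800 * x := by linarith
      exact_mod_cast this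
    · congr 1; ring
  linarith

lemma atyp_poly : ∃ C : ℝ, 0 ≤ C ∧ ∀ M : ℕ, 1 ≤ M →
    Bn M (fun x => if typ x M then 0 else 1) ≤ C / (M : ℝ) ^ 4 := by
  obtain ⟨C, hC0, hC⟩ := poly_exp_bdd 4 (1 / 320000) (by norm_num)
  refine ⟨2 * C, by positivity, fun M hM => (atyp_le M).trans ?_⟩
  have hM' : (0 : ℝ) < M := by exact_mod_cast hM
  rw [le_div_iff₀ (by positivity), mul_assoc]
  apply mul_le_mul_of_nonneg_left _ (by norm_num)
  refine le_trans ?_ (hC M)
  rw [mul_comm]
  gcongr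
  linarith

/-- Mass of the good words at stage `r`, with look-ahead. -/
noncomputable def Phi (L0 r s : ℕ) : ℝ :=
  (∑ w ∈ GG L0 r, dl w s * gg (LL L0 r / 30) (endp w s)) / 2 ^ LL L0 r

lemma Phi_step : ∃ C : ℝ, 0 ≤ C ∧ ∀ L0 r s : ℕ, 6000 ≤ L0 →
    Phi L0 r s - C * L0 / (LL L0 r : ℝ) ^ 3 ≤ Phi L0 (r + 1) s := by
  obtain ⟨C1, hC1, h1⟩ := mixing
  obtain ⟨C2, hC2, h2⟩ := atyp_poly
  refine ⟨4 * 31 ^ 4 * (C1 + C2), by positivity, fun L0 r s hL0 => ?_⟩
  have hL := LL_ge (L0 := L0) (by omega) r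
  set L := LL L0 r with hLdef
  set M := L / 30 with hM
  set M' := LL L0 (r + 1) / 30 with hM'
  have e : LL L0 (r + 1) = L + M := rfl
  let badf : ℕ → ℝ := fun b => (∑ u ∈ Str M, (if typ (ones u) M then (0 : ℝ) else 1) *
    (dl u b * gg M' (endp u b))) / 2 ^ M
  have hb0 : ∀ b, 0 ≤ badf b := by
    intro b
    refine div_nonneg (sum_nonneg (fun u _ => mul_nonneg ?_
      (mul_nonneg (dl_nonneg _ _) (gg_nonneg _ _)))) (by positivity)
    split_ifs <;> norm_num
  have hbp : Per (M + M') badf := by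
    intro b
    simp only [badf]
    congr 1
    apply sum_congr rfl; intro u hu
    have := per_dl_gg (u := u) (M := M') (K := M + M') (by rw [mem_Str.mp hu]) b
    simp only at this
    rw [this]
  have hbm : Mean (M + M') badf ≤ C2 / (M : ℝ) ^ 4 := by
    simp only [badf]
    rw [Mean_div, Mean_sum]
    have : ∀ u ∈ Str M, Mean (M + M') (fun b => (if typ (ones u) M then (0 : ℝ) else 1) *
        (dl u b * gg M' (endp u b))) = (if typ (ones u) M then (0 : ℝ) else 1) := by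
      intro u hu
      rw [Mean_mul, mean_dl_gg (by rw [mem_Str.mp hu]), mul_one]
    rw [sum_congr rfl this, sum_Str_ones M (fun x => if typ x M then 0 else 1),
      mul_div_cancel_left₀ _ (by positivity)]
    exact h2 M (by omega)
  let hh : ℕ → ℝ := fun b => var M (M + M') b + badf b
  have hhp : Per (M + M') hh := by
    intro b; simp only [hh]; rw [var_per, hbp]
  have hh0 : ∀ b, 0 ≤ hh b := fun b => add_nonneg (var_nonneg _ _ _) (hb0 b)
  have hhm : Mean (M + M') hh ≤ (C1 + C2) / (M : ℝ) ^ 4 := by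
    simp only [hh]
    rw [Mean_add, add_div]
    exact add_le_add (h1 M (M + M') (by omega)) hbm
  have a1 := meas_bound (L := L) (Tt := L0 + 1) (s := s) (G := GG L0 r) hhp hh0 (by
    intro w hw
    refine ⟨GG_length hw, GG_off (by omega) hw, ?_⟩
    have := (GG_inv (L0 := L0) (by omega) r w hw).1
    unfold typ at this
    omega)
  have a2 : (∑ w ∈ GG L0 r, dl w s * gg M (endp w s) - ∑ w ∈ GG L0 r, dl w s * hh (endp w s)) /
      2 ^ L ≤ Phi L0 (r + 1) s := by
    unfold Phi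
    rw [sum_GG_succ, e, pow_add, mul_comm ((2 : ℝ) ^ L), ← div_div, ← sum_sub_distrib]
    gcongr
    rw [sum_div]
    apply sum_le_sum
    intro w _
    set b := endp w s with hb
    have c1 : (∑ u ∈ Str M, if typ (ones u) M then
        dl (w ++ u) s * gg ((L + M) / 30) (endp (w ++ u) s) else 0) / 2 ^ M =
        dl w s * (gg (M + M') b - badf b) := by
      rw [gg_add]
      simp only [badf]
      rw [← sub_div, ← sum_sub_distrib, ← mul_div_assoc, mul_sum]
      congr 1
      apply sum_congr rfl; intro u _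
      rw [dl_append, endp_append, ← hb, ← e, ← hM']
      split_ifs <;> ring
    rw [c1, ← mul_sub]
    apply mul_le_mul_of_nonneg_left _ (dl_nonneg _ _)
    have := abs_sub_le_var (M := M) (j := M + M') (K := M + M') (by omega) le_rfl b
    simp only [hh]
    linarith [(abs_le.mp this).1]
  refine le_trans ?_ a2
  rw [sub_div]
  apply sub_le_sub (le_refl _)
  rw [div_le_iff₀ (by positivity), mul_comm _ ((2 : ℝ) ^ L)]
  refine a1.trans (mul_le_mul_of_nonneg_left ?_ (by positivity))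
  have hL0r : (6000 : ℝ) ≤ L0 := by exact_mod_cast hL0
  have hLr : (6000 : ℝ) ≤ L := by exact_mod_cast (show 6000 ≤ L by omega)
  have hMr : (L : ℝ) / 31 ≤ M := by
    rw [div_le_iff₀ (by norm_num)]; exact_mod_cast (show L ≤ M * 31 by omega)
  push_cast
  calc ((L : ℝ) + 1) * (L0 + 1 + 3) * Mean (M + M') hh
      ≤ (2 * L) * (2 * L0) * ((C1 + C2) / ((L : ℝ) / 31) ^ 4) := by
        have := Mean_nonneg (M + M') hh0
        have h4 : (C1 + C2) / (M : ℝ) ^ 4 ≤ (C1 + C2) / ((L : ℝ) / 31) ^ 4 := by gcongr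
        gcongr
        · linarith
        · linarith
        · exact hhm.trans h4
    _ = _ := by field_simp; ring

lemma Phi_lower : ∃ L1 : ℕ, 6000 ≤ L1 ∧ ∀ L0 s : ℕ, L1 ≤ L0 → 1 / 2 ≤ Phi L0 0 s →
    ∀ r, 1 / 4 ≤ Phi L0 r s := by
  obtain ⟨C, hC, h⟩ := Phi_step
  obtain ⟨N, hN⟩ := exists_nat_ge (4 * C)
  refine ⟨max 6000 N, le_max_left _ _, fun L0 s hL0 h0 => ?_⟩
  have h6 : 6000 ≤ L0 := le_of_max_le_left hL0
  have hL0r : (6000 : ℝ) ≤ L0 := by exact_mod_cast h6
  have hNr : (N : ℝ) ≤ L0 := by exact_mod_cast le_of_max_le_right hL0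
  have key : ∀ r, 1 / 4 + C * L0 / (LL L0 r : ℝ) ^ 2 ≤ Phi L0 r s := by
    intro r
    induction r with
    | zero =>
      refine le_trans ?_ h0
      have : C * L0 / (L0 : ℝ) ^ 2 ≤ 1 / 4 := by
        rw [div_le_iff₀ (by positivity)]; nlinarith
      simp only [LL]; linarith
    | succ r ih =>
      refine le_trans ?_ (h L0 r s h6)
      have hL := LL_ge (L0 := L0) (by omega) r
      have a1 : (LL L0 r : ℝ) + 1 ≤ LL L0 (r + 1) := by
        exact_mod_cast (show LL L0 r + 1 ≤ LL L0 (r + 1) by rw [LL]; omega)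
      have a2 : (6000 : ℝ) ≤ LL L0 r := by exact_mod_cast (show 6000 ≤ LL L0 r by omega)
      set L : ℝ := ((LL L0 r : ℕ) : ℝ)
      have a3 : C * L0 / (LL L0 (r + 1) : ℝ) ^ 2 ≤ C * L0 / (L + 1) ^ 2 := by gcongr
      have a4 : 1 / (L + 1) ^ 2 + 1 / L ^ 3 ≤ 1 / L ^ 2 := by
        rw [div_add_div _ _ (by positivity) (by positivity), div_le_div_iff₀ (by positivity)
          (by positivity)]
        have : 0 < L ^ 2 := by positivity
        nlinarith [mul_pos this this, mul_nonneg this.le (show 0 ≤ L ^ 2 - L - 1 by nlinarith)]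
      have a5 := mul_le_mul_of_nonneg_left a4 (show 0 ≤ C * L0 by positivity)
      simp only [mul_add, mul_one_div] at a5
      linarith
  intro r
  have : 0 ≤ C * L0 / (LL L0 r : ℝ) ^ 2 := by positivity
  linarith [key r]

lemma Phi_zero_per (L0 : ℕ) : Per (L0 + L0 / 30) (Phi L0 0) := by
  intro b
  unfold Phi
  congr 1
  apply sum_congr rfl; intro w hw
  exact per_dl_gg (u := w) (M := L0 / 30) (by rw [GG_length hw]; rfl) b

lemma Phi_zero_le (L0 b : ℕ) : Phi L0 0 b ≤ gg (L0 + L0 / 30) b := by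
  rw [gg_add]
  unfold Phi
  simp only [LL]
  gcongr
  · intro w _ _; exact mul_nonneg (dl_nonneg _ _) (gg_nonneg _ _)
  · exact filter_subset _ _

lemma Phi_zero_mean : ∃ L1 : ℕ, ∀ L0, L1 ≤ L0 → 1 / 2 ≤ Mean (L0 + L0 / 30) (Phi L0 0) := by
  obtain ⟨C, hC, h⟩ := atyp_poly
  obtain ⟨N, hN⟩ := exists_nat_ge (4 * C)
  refine ⟨N + 1, fun L0 hL0 => ?_⟩
  have hL0r : (N : ℝ) + 1 ≤ L0 := by exact_mod_cast hL0
  have hN0 : (0 : ℝ) ≤ N := by positivity
  have a0 : Bn L0 (fun x => if typ x L0 then 0 else 1) ≤ 1 / 4 := by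
    refine (h L0 (by omega)).trans ?_
    have hpos : (0 : ℝ) < L0 := by linarith
    rw [div_le_iff₀ (by positivity)]
    have : (L0 : ℝ) ≤ (L0 : ℝ) ^ 4 := le_self_pow₀ (by linarith) (by norm_num)
    linarith
  have e : Mean (L0 + L0 / 30) (Phi L0 0) = (∑ _w ∈ GG L0 0, (1 : ℝ)) / 2 ^ L0 := by
    unfold Phi
    rw [Mean_div, Mean_sum]
    congr 1
    apply sum_congr rfl; intro w hw
    exact mean_dl_gg (u := w) (M := L0 / 30) (by rw [GG_length hw]; rfl)
  rw [e, le_div_iff₀ (by positivity), GG, sum_filter]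
  have a1 : ∑ w ∈ Str L0, (1 - (if typ (ones w) L0 then (0 : ℝ) else 1) - off w / (L0 * 2 ^ L0)) ≤
      ∑ w ∈ Str L0, if typ (ones w) L0 ∧ off w ≤ L0 * 2 ^ L0 then (1 : ℝ) else 0 := by
    apply sum_le_sum; intro w _
    have b0 : (0 : ℝ) ≤ off w / (L0 * 2 ^ L0) := by positivity
    by_cases h2 : off w ≤ L0 * 2 ^ L0
    · by_cases h1 : typ (ones w) L0 <;> simp [h1, h2] <;> linarith
    · have b1 : (1 : ℝ) ≤ off w / (L0 * 2 ^ L0) := by
        rw [le_div_iff₀ (by have : (0 : ℝ) < L0 := by linarith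
                            positivity), one_mul]
        exact_mod_cast (not_le.mp h2).le
      simp only [h2, and_false, if_false]
      split_ifs <;> linarith
  refine le_trans ?_ a1
  rw [sum_sub_distrib, sum_sub_distrib, sum_Str_ones L0 (fun x => if typ x L0 then 0 else 1),
    ← sum_div, sum_const, card_Str, nsmul_eq_mul]
  have a2 : (∑ w ∈ Str L0, (off w : ℝ)) / (L0 * 2 ^ L0) ≤ 2 ^ L0 / 4 := by
    have : (0 : ℝ) < L0 := by linarith
    rw [div_le_iff₀ (by positivity)]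
    refine (sum_Str_off L0).trans (le_of_eq ?_)
    rw [show (4 : ℝ) ^ L0 = 2 ^ L0 * 2 ^ L0 by rw [← mul_pow]; norm_num]; ring
  have a3 := mul_le_mul_of_nonneg_left a0 (show (0 : ℝ) ≤ 2 ^ L0 by positivity)
  push_cast
  linarith

end Pool.Agent.Lib.MP_76ba2b_nt
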