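import Pool.Agent.Lib.MP_76ba2b_nt.Main

set_option autoImplicit false

namespace Pool.Agent.Lib.MP_76ba2b_nt

open Finset

/-- Oscillation at level `M` with a weight depending on the number of odd steps. -/
noncomputable def oscW (φ : ℕ → ℝ) (m M : ℕ) (b : ℕ) : ℝ :=
  |∑ w ∈ Str M, φ (ones w) * (dl w b - dd m w b)| / 2 ^ M

lemma oscW_nonneg (φ : ℕ → ℝ) (m M b : ℕ) : 0 ≤ oscW φ m M b := by
  unfold oscW; positivity

lemma oscW_per (φ : ℕ → ℝ) {m M K : ℕ} (hm : m ≤ K) (hM : M ≤ K) : Per K (oscW φ m M) := by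
  intro b
  unfold oscW
  congr 2
  apply sum_congr rfl; intro w hw
  rw [dl_per ((mem_Str.mp hw).le.trans hM), (dd_per m w).mono hm]

lemma osc_splitW {φ : ℕ → ℝ} (hφ0 : ∀ i, 0 ≤ φ i) (hφ1 : ∀ i, φ i ≤ 1) (t0 L Tt m km im : ℕ)
    (b : ℕ) :
    |∑ w ∈ Str (t0 + L), φ (ones w) * (dl w b - dd m w b)| ≤
      ∑ k ∈ range (km + 1), ∑ i ∈ Icc m im, |piece t0 L Tt m i k b| +
      ∑ w ∈ Str t0, ∑ v ∈ Str L, (if ones w ≤ km ∧ off w ≤ Tt * 2 ^ t0 ∧ m ≤ ones (w ++ v) ∧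
        ones (w ++ v) ≤ im then 0 else 1) * (dl (w ++ v) b + dd m (w ++ v) b) := by
  rw [sum_Str_add]
  have e1 : ∑ w ∈ Str t0, ∑ v ∈ Str L, φ (ones (w ++ v)) * (dl (w ++ v) b - dd m (w ++ v) b) =
      ∑ k ∈ range (km + 1), ∑ i ∈ Icc m im, φ i * piece t0 L Tt m i k b +
      ∑ w ∈ Str t0, ∑ v ∈ Str L, (if ones w ≤ km ∧ off w ≤ Tt * 2 ^ t0 ∧ m ≤ ones (w ++ v) ∧
        ones (w ++ v) ≤ im then 0 else 1) *
          (φ (ones (w ++ v)) * (dl (w ++ v) b - dd m (w ++ v) b)) := by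
    have e2 : ∀ k i, φ i * piece t0 L Tt m i k b = ∑ w ∈ Str t0, ∑ v ∈ Str L,
        if (ones w = k ∧ off w ≤ Tt * 2 ^ t0) ∧ k + ones v = i then
          φ i * (dd i (w ++ v) b - dd m (w ++ v) b) else 0 := by
      intro k i
      unfold piece W1 W2
      rw [sum_filter, mul_sum]
      apply sum_congr rfl; intro w _
      rw [sum_filter]
      split_ifs with h
      · simp only [h, true_and, mul_sum, mul_ite, mul_zero]
      · simp only [h, false_and, if_false, sum_const_zero, mul_zero]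
    simp only [e2]
    rw [sum_comm (s := range (km + 1))]
    have sw : ∀ (A B : Finset ℕ) (F : ℕ → ℕ → List Bool → List Bool → ℝ),
        ∑ i ∈ A, ∑ k ∈ B, ∑ w ∈ Str t0, ∑ v ∈ Str L, F i k w v =
        ∑ w ∈ Str t0, ∑ v ∈ Str L, ∑ i ∈ A, ∑ k ∈ B, F i k w v := by
      intro A B F
      rw [← sum_product', sum_comm]
      apply sum_congr rfl; intro w _
      rw [sum_comm]
      apply sum_congr rfl; intro v _
      rw [sum_product]
    rw [sw]
    rw [← sum_add_distrib]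
    apply sum_congr rfl; intro w _
    rw [← sum_add_distrib]
    apply sum_congr rfl; intro v _
    rw [ones_append]
    split_ifs with h
    · rw [sum_eq_single (ones w + ones v), sum_eq_single (ones w)]
      · simp [h.2.1, dl, ones_append]
      · intro k _ hk; rw [if_neg (fun hc => hk hc.1.1.symm)]
      · intro hc; exact absurd (mem_range.mpr (by omega)) hc
      · intro i _ hi
        apply sum_eq_zero; intro k _
        rw [if_neg]; rintro ⟨⟨h1, -⟩, h2⟩; omega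
      · intro hc; exact absurd (mem_Icc.mpr ⟨h.2.2.1, h.2.2.2⟩) hc
    · rw [sum_eq_zero, zero_add, one_mul]
      intro i hi
      apply sum_eq_zero; intro k hk
      rw [if_neg]; rintro ⟨⟨h1, h3⟩, h2⟩
      rw [mem_Icc] at hi
      rw [mem_range] at hk
      exact h ⟨by omega, h3, by omega, by omega⟩
  rw [e1]
  refine (abs_add_le _ _).trans (add_le_add ?_ ?_)
  · refine (abs_sum_le_sum_abs _ _).trans (sum_le_sum (fun k _ =>
      (abs_sum_le_sum_abs _ _).trans (sum_le_sum (fun i _ => ?_))))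
    rw [abs_mul, abs_of_nonneg (hφ0 i)]
    exact mul_le_of_le_one_left (abs_nonneg _) (hφ1 i)
  · refine (abs_sum_le_sum_abs _ _).trans (sum_le_sum (fun w _ =>
      (abs_sum_le_sum_abs _ _).trans (sum_le_sum (fun v _ => ?_))))
    have h1 := dl_nonneg (w ++ v) b
    have h2 := dd_nonneg m (w ++ v) b
    split_ifs
    · simp
    · rw [one_mul, one_mul, abs_mul, abs_of_nonneg (hφ0 _)]
      refine (mul_le_of_le_one_left (abs_nonneg _) (hφ1 _)).trans ?_
      rw [abs_le]; constructor <;> linarith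

lemma osc_boundW {φ : ℕ → ℝ} (hφ0 : ∀ i, 0 ≤ φ i) (hφ1 : ∀ i, φ i ≤ 1) {t0 L Tt m km im K : ℕ}
    {E e : ℝ} (hT : 0 < Tt) (hE0 : 0 ≤ E) (he : 0 < e)
    (heE : E * (Tt + 2) ≤ e ^ 2) (hk : km ≤ m) (hi : 3 ^ im ≤ 2 ^ t0) (hK : t0 + L ≤ K)
    (hmK : m ≤ K) (him : im ≤ K)
    (hE : ∀ (n : ℕ) (η : ℤ) (κ : ℕ), ¬ (3 : ℤ) ∣ η → m - km ≤ n → n ≤ κ →
      ‖AA n η κ L 0‖ ^ 2 ≤ (2 ^ L) ^ 2 * E) :
    Mean K (oscW φ m (t0 + L)) ≤ (km + 1) * (im + 1) * e +
      2 * (Bn t0 (fun x => if x ≤ km then 0 else 1) + t0 / Tt +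
        Bn (t0 + L) (fun x => if m ≤ x then 0 else 1) +
        Bn (t0 + L) (fun x => if x ≤ im then 0 else 1)) := by
  have h2 : (0 : ℝ) < 2 ^ (t0 + L) := by positivity
  unfold oscW
  rw [Mean_div, div_le_iff₀ h2]
  refine (Mean_mono K (osc_splitW hφ0 hφ1 t0 L Tt m km im)).trans ?_
  rw [Mean_add, Mean_sum, Mean_sum]
  have a1 : ∑ k ∈ range (km + 1), Mean K (fun b => ∑ i ∈ Icc m im, |piece t0 L Tt m i k b|) ≤
      ∑ _k ∈ range (km + 1), ∑ _i ∈ Icc m im, 2 ^ (t0 + L) * e := by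
    apply sum_le_sum; intro k hk'
    rw [Mean_sum]
    apply sum_le_sum; intro i hi'
    rw [mem_range] at hk'
    rw [mem_Icc] at hi'
    apply Mean_abs_le _ _ _ (by positivity)
    have hper : Per i (fun b => piece t0 L Tt m i k b ^ 2) := by
      intro b; simp only [piece_per hi'.1 b]
    rw [hper.mean_eq (hi'.2.trans him), mul_pow]
    refine (piece_sq hE0 (by omega) hi'.1
      ((Nat.pow_le_pow_right (by norm_num) hi'.2).trans hi) ?_).trans (by gcongr)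
    intro n η κ h1 h2 h3
    exact hE n η κ h1 (by omega) h3
  have a2 : ∑ _k ∈ range (km + 1), ∑ _i ∈ Icc m im, 2 ^ (t0 + L) * e ≤
      (km + 1) * (im + 1) * e * 2 ^ (t0 + L) := by
    simp only [sum_const, card_range, Nat.card_Icc, nsmul_eq_mul]
    have : ((im + 1 - m : ℕ) : ℝ) ≤ im + 1 := by exact_mod_cast Nat.sub_le _ _
    push_cast
    calc _ ≤ ((km : ℝ) + 1) * ((im + 1) * (2 ^ (t0 + L) * e)) := by gcongr
      _ = _ := by ring
  have a3 : ∑ w ∈ Str t0, Mean K (fun b => ∑ v ∈ Str L,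
      (if ones w ≤ km ∧ off w ≤ Tt * 2 ^ t0 ∧ m ≤ ones (w ++ v) ∧
        ones (w ++ v) ≤ im then 0 else 1) * (dl (w ++ v) b + dd m (w ++ v) b)) =
      2 * ∑ w ∈ Str t0, ∑ v ∈ Str L, (if ones w ≤ km ∧ off w ≤ Tt * 2 ^ t0 ∧ m ≤ ones (w ++ v) ∧
        ones (w ++ v) ≤ im then (0 : ℝ) else 1) := by
    rw [mul_sum]
    apply sum_congr rfl; intro w hw
    rw [Mean_sum, mul_sum]
    apply sum_congr rfl; intro v hv
    rw [Mean_mul, Mean_add, mean_dd hmK,
      mean_dl (by rw [List.length_append, mem_Str.mp hw, mem_Str.mp hv]; exact hK)]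
    ring
  rw [a3]
  have a4 := bad_count t0 L Tt m km im hT
  nlinarith

theorem osc_decayW (B : ℕ) : ∃ C : ℝ, 0 ≤ C ∧ ∀ (φ : ℕ → ℝ) (M m K : ℕ), (∀ i, 0 ≤ φ i) →
    (∀ i, φ i ≤ 1) → 1 ≤ M → 44 * M ≤ 100 * m →
    100 * m ≤ 46 * M → M ≤ K → Mean K (oscW φ m M) ≤ C / (M : ℝ) ^ B := by
  obtain ⟨C1, hC1, h1⟩ := char_decay (3 * B + 5)
  obtain ⟨C2, hC2, h2⟩ := exp_poly B
  set c := 3 * C1 * 100 ^ (3 * B + 5) + 1 with hc
  have hc1 : 1 ≤ c := by
    have : 0 ≤ 3 * C1 * 100 ^ (3 * B + 5) := by positivity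
    linarith
  refine ⟨4 * c + 2 * (3 * C2 + 1), by positivity, ?_⟩
  intro φ M m K hφ0 hφ1 hM hm1 hm2 hK
  have hM' : (1 : ℝ) ≤ M := by exact_mod_cast hM
  set H := M / 12 with hH
  obtain ⟨t0, ht0⟩ : ∃ t0, M = t0 + 2 * H := ⟨M - 2 * H, by omega⟩
  set km := 43 * M / 100 with hkm
  set im := 5 * t0 / 8 with him
  have hi : 3 ^ im ≤ 2 ^ t0 := by
    have a1 : (3 ^ im) ^ 5 ≤ (2 ^ t0) ^ 5 := by
      rw [← pow_mul, ← pow_mul, mul_comm im, pow_mul]
      calc (3 ^ 5) ^ im ≤ (2 ^ 8) ^ im := Nat.pow_le_pow_left (by norm_num) _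
        _ = 2 ^ (8 * im) := by rw [pow_mul]
        _ ≤ 2 ^ (t0 * 5) := Nat.pow_le_pow_right (by norm_num) (by omega)
    exact (Nat.pow_le_pow_iff_left (by norm_num)).mp a1
  have key := osc_boundW hφ0 hφ1 (t0 := t0) (L := 2 * H) (Tt := M ^ (B + 1)) (m := m) (km := km) (im := im)
    (K := K) (E := C1 * 100 ^ (3 * B + 5) / (M : ℝ) ^ (3 * B + 5)) (e := c / (M : ℝ) ^ (B + 2))
    (by positivity) (by positivity) (by positivity) ?_ (by omega) hi (by omega) (by omega)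
    (by omega) ?_
  · rw [← ht0] at key
    refine key.trans ?_
    have hx := h2 M hM
    have t0r : (M : ℝ) = t0 + 2 * H := by exact_mod_cast ht0
    have hHr : 12 * (H : ℝ) ≤ M := by exact_mod_cast (show 12 * H ≤ M by omega)
    have hHr' : (M : ℝ) ≤ 12 * H + 12 := by exact_mod_cast (show M ≤ 12 * H + 12 by omega)
    have hH0 : (0 : ℝ) ≤ H := by positivity
    have p1 : Bn t0 (fun x => if x ≤ km then 0 else 1) ≤ Real.exp (1 - M / 5000) := by
      refine (tail_up t0 (1 / 50) (M / 40 - 2) (by norm_num) _ ?_ ?_).trans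
        (Real.exp_le_exp.mpr (by linarith))
      · intro x; split_ifs <;> norm_num
      · intro x hx
        rw [if_pos]
        have : 100 * (x : ℝ) ≤ 43 * M := by linarith
        have : 100 * x ≤ 43 * M := by exact_mod_cast this
        omega
    have p3 := tail_m hm2
    have p4 : Bn M (fun x => if x ≤ im then 0 else 1) ≤ Real.exp (1 - M / 5000) := by
      refine (tail_up M (1 / 50) (M / 24) (by norm_num) _ ?_ ?_).trans
        (Real.exp_le_exp.mpr (by linarith))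
      · intro x; split_ifs <;> norm_num
      · intro x hx
        rw [if_pos]
        have : 8 * (x : ℝ) ≤ 5 * t0 := by linarith
        have : 8 * x ≤ 5 * t0 := by exact_mod_cast this
        omega
    have p2 : (t0 : ℝ) / ((M ^ (B + 1) : ℕ) : ℝ) ≤ 1 / (M : ℝ) ^ B := by
      push_cast
      rw [div_le_div_iff₀ (by positivity) (by positivity), pow_succ]
      have : (0 : ℝ) < (M : ℝ) ^ B := by positivity
      nlinarith
    have p5 : ((km : ℝ) + 1) * (im + 1) * (c / (M : ℝ) ^ (B + 2)) ≤ 4 * c / (M : ℝ) ^ B := by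
      have a1 : (km : ℝ) ≤ M := by exact_mod_cast (show km ≤ M by omega)
      have a2 : (im : ℝ) ≤ M := by exact_mod_cast (show im ≤ M by omega)
      calc ((km : ℝ) + 1) * (im + 1) * (c / (M : ℝ) ^ (B + 2))
          ≤ (2 * M) * (2 * M) * (c / (M : ℝ) ^ (B + 2)) := by gcongr <;> linarith
        _ = _ := by field_simp; ring
    have e : (4 * c + 2 * (3 * C2 + 1)) / (M : ℝ) ^ B =
        4 * c / (M : ℝ) ^ B + 2 * (3 * (C2 / (M : ℝ) ^ B) + 1 / (M : ℝ) ^ B) := by ring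
    rw [e]
    linarith
  · push_cast
    have a1 : (1 : ℝ) ≤ (M : ℝ) ^ (B + 1) := one_le_pow₀ hM'
    calc C1 * 100 ^ (3 * B + 5) / (M : ℝ) ^ (3 * B + 5) * ((M : ℝ) ^ (B + 1) + 2)
        ≤ C1 * 100 ^ (3 * B + 5) / (M : ℝ) ^ (3 * B + 5) * (3 * (M : ℝ) ^ (B + 1)) := by
          gcongr; linarith
      _ = (3 * C1 * 100 ^ (3 * B + 5)) / ((M : ℝ) ^ (B + 2)) ^ 2 := by field_simp; ring
      _ ≤ c ^ 2 / ((M : ℝ) ^ (B + 2)) ^ 2 := by gcongr; nlinarith
      _ = _ := by rw [div_pow]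
  · intro n η κ hη hn hκ
    refine (h1 n η κ H hη hκ).trans ?_
    rw [pow_mul 2 2 H, show (2 : ℝ) ^ 2 = 4 by norm_num]
    apply mul_le_mul_of_nonneg_left _ (by positivity)
    have a1 : (M : ℝ) ≤ 100 * (n + 1) := by exact_mod_cast (show M ≤ 100 * (n + 1) by omega)
    rw [div_le_div_iff₀ (by positivity) (by positivity), mul_assoc, ← mul_pow]
    gcongr

end Pool.Agent.Lib.MP_76ba2b_nt
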