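import Pool.Agent.Lib.MP_76ba2b_nt.UOsc

set_option autoImplicit false

namespace Pool.Agent.Lib.MP_76ba2b_nt

open Finset

/-- Indicator that the multiplier `2 ^ t / 3 ^ i` lies in `[y, 2 y)`. -/
noncomputable def win (y : ℝ) (t i : ℕ) : ℝ :=
  if y * 3 ^ i ≤ 2 ^ t ∧ (2 : ℝ) ^ t < 2 * (y * 3 ^ i) then 1 else 0

lemma win_nonneg (y : ℝ) (t i : ℕ) : 0 ≤ win y t i := by unfold win; split_ifs <;> norm_num

lemma win_le_one (y : ℝ) (t i : ℕ) : win y t i ≤ 1 := by unfold win; split_ifs <;> norm_num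

/-- Mass of the words of length at most `K` whose multiplier lies in `[y, 2 y)`. -/
noncomputable def FF (y : ℝ) (K b : ℕ) : ℝ :=
  ∑ t ∈ range (K + 1), (∑ v ∈ Str t, win y t (ones v) * dl v b) / 2 ^ t

lemma dd_append_of_le {m : ℕ} {u : List Bool} (h : m ≤ ones u) (v : List Bool) (b : ℕ) :
    dd m (u ++ v) b = dd m u b := by
  unfold dd
  have c1 : off (u ++ v) ≡ 2 ^ v.length * off u [MOD 3 ^ m] := by
    rw [off_append]
    exact (Nat.modEq_iff_dvd' (by simp)).mpr
      (by simpa using (pow_dvd_pow 3 h).mul_right _) |>.symm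
  have c2 : 2 ^ (u ++ v).length * b ≡ off (u ++ v) [MOD 3 ^ m] ↔
      2 ^ u.length * b ≡ off u [MOD 3 ^ m] := by
    rw [List.length_append, add_comm, pow_add, mul_assoc]
    constructor
    · intro h1
      exact Nat.ModEq.cancel_left_of_coprime (Nat.Coprime.pow _ _ (by norm_num)) (h1.trans c1)
    · intro h1
      exact (h1.mul_left _).trans c1.symm
  simp only [c2]

lemma sum_Str_take {t N : ℕ} (h : t ≤ N) (f : List Bool → ℝ) :
    (∑ w ∈ Str N, f (w.take t)) / 2 ^ N = (∑ w ∈ Str t, f w) / 2 ^ t := by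
  obtain ⟨d, rfl⟩ := Nat.exists_eq_add_of_le h
  rw [sum_Str_add]
  have : ∀ w ∈ Str t, ∑ v ∈ Str d, f ((w ++ v).take t) = 2 ^ d * f w := by
    intro w hw
    simp only [List.take_left' (mem_Str.mp hw), sum_const, card_Str, nsmul_eq_mul]
    push_cast; ring
  rw [sum_congr rfl this, ← mul_sum, pow_add]
  field_simp

lemma ones_take_mono (w : List Bool) {n t : ℕ} (h : n ≤ t) : ones (w.take n) ≤ ones (w.take t) := by
  have e : w.take n = (w.take t).take n := by rw [List.take_take, min_eq_left h]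
  rw [e]
  conv_rhs => rw [← List.take_append_drop n (w.take t), ones_append]
  exact Nat.le_add_right _ _

/-- Mass, seen modulo `3 ^ m`, of the words that are atypical at level `n` or `N`. -/
noncomputable def badW (m n N : ℕ) (b : ℕ) : ℝ :=
  (∑ w ∈ Str N, ((if typ (ones (w.take n)) n then (0 : ℝ) else 1) +
    (if typ (ones w) N then (0 : ℝ) else 1)) * dd m w b) / 2 ^ N

lemma badW_nonneg (m n N b : ℕ) : 0 ≤ badW m n N b := by
  refine div_nonneg (sum_nonneg (fun w _ => mul_nonneg ?_ (dd_nonneg _ _ _))) (by positivity)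
  split_ifs <;> norm_num

lemma badW_per {m K : ℕ} (n N : ℕ) (h : m ≤ K) : Per K (badW m n N) := by
  intro b
  unfold badW
  congr 1
  apply sum_congr rfl; intro w _
  rw [(dd_per m w).mono h]

lemma badW_mean {m n N K : ℕ} (h : m ≤ K) (hn : n ≤ N) :
    Mean K (badW m n N) = Bn n (fun x => if typ x n then 0 else 1) +
      Bn N (fun x => if typ x N then 0 else 1) := by
  unfold badW
  rw [Mean_div, Mean_sum]
  simp only [Mean_mul, mean_dd h, mul_one]
  rw [sum_add_distrib, add_div, sum_Str_take hn (fun w => if typ (ones w) n then (0 : ℝ) else 1),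
    sum_Str_ones n (fun x => if typ x n then 0 else 1),
    sum_Str_ones N (fun x => if typ x N then 0 else 1),
    mul_div_cancel_left₀ _ (by positivity), mul_div_cancel_left₀ _ (by positivity)]

/-- A typical multiplier walk visits the window. -/
lemma visit {y : ℝ} {m n N : ℕ} (hn : n ≤ N) (hm : 100 * m ≤ 46 * n)
    (h1 : ∀ i, typ i n → (2 : ℝ) ^ n < y * 3 ^ i) (h2 : ∀ i, typ i N → y * 3 ^ i ≤ (2 : ℝ) ^ N)
    (b : ℕ) : ff m N b - badW m n N b ≤
      ∑ t ∈ Ioc n N, (∑ v ∈ Str t, win y t (ones v) * dd m v b) / 2 ^ t := by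
  have e : ∑ t ∈ Ioc n N, (∑ v ∈ Str t, win y t (ones v) * dd m v b) / 2 ^ t =
      (∑ w ∈ Str N, ∑ t ∈ Ioc n N, win y t (ones (w.take t)) * dd m (w.take t) b) / 2 ^ N := by
    rw [sum_comm, sum_div]
    apply sum_congr rfl; intro t ht
    exact (sum_Str_take (mem_Ioc.mp ht).2 (fun v => win y t (ones v) * dd m v b)).symm
  rw [e, ff, badW, ← sub_div, ← sum_sub_distrib]
  gcongr with w hw
  have hl := mem_Str.mp hw
  have hnn : ∀ t, 0 ≤ win y t (ones (w.take t)) * dd m (w.take t) b :=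
    fun t => mul_nonneg (win_nonneg _ _ _) (dd_nonneg _ _ _)
  have hd := dd_nonneg m w b
  have hs : 0 ≤ ∑ t ∈ Ioc n N, win y t (ones (w.take t)) * dd m (w.take t) b :=
    sum_nonneg (fun t _ => hnn t)
  by_cases a1 : typ (ones (w.take n)) n
  swap
  · rw [if_neg a1]; split_ifs <;> linarith
  by_cases a2 : typ (ones w) N
  swap
  · rw [if_neg a2, if_pos a1]; linarith
  rw [if_pos a1, if_pos a2]
  obtain ⟨t, ht, c1, c2⟩ := discrete_ivt (fun t => (2 : ℝ) ^ t / 3 ^ ones (w.take t)) y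
    (fun t => by
      rw [pow_succ', mul_div_assoc]
      gcongr
      · norm_num
      · exact ones_take_mono w (Nat.le_succ t)) n
    (by rw [div_lt_iff₀ (by positivity)]; exact h1 _ a1) N hn
    (by rw [le_div_iff₀ (by positivity), List.take_of_length_le hl.le]; exact h2 _ a2)
  refine le_trans (le_of_eq ?_) (single_le_sum
    (f := fun t => win y t (ones (w.take t)) * dd m (w.take t) b) (fun t _ => hnn t) ht)
  rw [le_div_iff₀ (by positivity)] at c1
  rw [div_lt_iff₀ (by positivity), mul_assoc] at c2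
  have c3 : m ≤ ones (w.take t) := by
    have := ones_take_mono w (mem_Ioc.mp ht).1.le
    unfold typ at a1
    omega
  have c4 := dd_append_of_le c3 (w.drop t) b
  rw [List.take_append_drop] at c4
  simp only [win]
  rw [if_pos ⟨c1, c2⟩, c4]; ring

/-- The window mass dominates the look-ahead density up to a small periodic error. -/
theorem window_mass : ∃ C : ℝ, 0 ≤ C ∧ ∀ (y : ℝ) (M n K : ℕ), 200 ≤ M → M ≤ n → n + n / 30 ≤ K →
    (∀ i, typ i n → (2 : ℝ) ^ n < y * 3 ^ i) →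
    (∀ i, typ i (n + n / 30) → y * 3 ^ i ≤ (2 : ℝ) ^ (n + n / 30)) →
    ∃ h : ℕ → ℝ, (∀ b, 0 ≤ h b) ∧ Per K h ∧ Mean K h ≤ C / (M : ℝ) ^ 4 ∧
      ∀ b, gg M b - h b ≤ FF y K b := by
  obtain ⟨C1, hC1, H1⟩ := mixing
  obtain ⟨C2, hC2, H2⟩ := osc_decayW 5
  obtain ⟨C3, hC3, H3⟩ := atyp_poly
  refine ⟨C1 + 2 * C2 + 2 * C3, by positivity, fun y M n K hM hn hK h1 h2 => ?_⟩
  set N := n + n / 30 with hN
  set m := 46 * n / 100 with hm
  have hMr : (200 : ℝ) ≤ M := by exact_mod_cast hM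
  have hnr : (M : ℝ) ≤ n := by exact_mod_cast hn
  have hNr : (n : ℝ) ≤ N := by exact_mod_cast (show n ≤ N by omega)
  have hMN : (M : ℝ) ≤ N := hnr.trans hNr
  have hn0 : (0 : ℝ) < n := by linarith
  refine ⟨fun b => var M K b + oscW (fun _ => 1) m N b + badW m n N b +
    ∑ t ∈ Ioc n N, oscW (win y t) m t b, fun b => ?_, fun b => ?_, ?_, fun b => ?_⟩
  · exact add_nonneg (add_nonneg (add_nonneg (var_nonneg _ _ _) (oscW_nonneg _ _ _ _))
      (badW_nonneg _ _ _ _)) (sum_nonneg (fun t _ => oscW_nonneg _ _ _ _))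
  · simp only
    rw [var_per, oscW_per _ (by omega) hK, badW_per _ _ (by omega)]
    congr 1
    exact sum_congr rfl (fun t ht => oscW_per _ (by omega) ((mem_Ioc.mp ht).2.trans hK) b)
  · rw [Mean_add, Mean_add, Mean_add, Mean_sum, badW_mean (by omega) (by omega)]
    have a1 := H1 M K hM
    have a2 : Mean K (oscW (fun _ => 1) m N) ≤ C2 / (M : ℝ) ^ 4 := by
      refine (H2 _ N m K (fun _ => zero_le_one) (fun _ => le_rfl) (by omega) (by omega) (by omega)
        hK).trans ?_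
      have : (M : ℝ) ^ 4 ≤ (N : ℝ) ^ 5 := by
        calc (M : ℝ) ^ 4 ≤ (N : ℝ) ^ 4 := by gcongr
          _ ≤ (N : ℝ) ^ 5 := pow_le_pow_right₀ (by linarith) (by norm_num)
      gcongr
    have a3 : Bn n (fun x => if typ x n then 0 else 1) ≤ C3 / (M : ℝ) ^ 4 :=
      (H3 n (by omega)).trans (by gcongr)
    have a4 : Bn N (fun x => if typ x N then 0 else 1) ≤ C3 / (M : ℝ) ^ 4 :=
      (H3 N (by omega)).trans (by gcongr)
    have a5 : ∑ t ∈ Ioc n N, Mean K (oscW (win y t) m t) ≤ C2 / (M : ℝ) ^ 4 := by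
      have b1 : ∑ t ∈ Ioc n N, Mean K (oscW (win y t) m t) ≤ ∑ _t ∈ Ioc n N, C2 / (n : ℝ) ^ 5 := by
        apply sum_le_sum; intro t ht
        rw [mem_Ioc] at ht
        refine (H2 _ t m K (win_nonneg y t) (win_le_one y t) (by omega) (by omega) (by omega)
          (by omega)).trans ?_
        have : (n : ℝ) ≤ t := by exact_mod_cast ht.1.le
        gcongr
      refine b1.trans ?_
      rw [sum_const, Nat.card_Ioc, nsmul_eq_mul]
      have b2 : ((N - n : ℕ) : ℝ) ≤ n := by exact_mod_cast (show N - n ≤ n by omega)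
      calc ((N - n : ℕ) : ℝ) * (C2 / (n : ℝ) ^ 5) ≤ n * (C2 / (n : ℝ) ^ 5) := by gcongr
        _ = C2 / (n : ℝ) ^ 4 := by field_simp
        _ ≤ _ := by gcongr
    have e : (C1 + 2 * C2 + 2 * C3) / (M : ℝ) ^ 4 =
        C1 / (M : ℝ) ^ 4 + 2 * (C2 / (M : ℝ) ^ 4) + 2 * (C3 / (M : ℝ) ^ 4) := by ring
    rw [e]; linarith
  · have a1 := (abs_le.mp (abs_sub_le_var (M := M) (j := N) (K := K) (by omega) hK b)).1
    have a2 : gg N b - ff m N b ≤ oscW (fun _ => 1) m N b := by
      rw [gg, ff, oscW, ← sub_div, ← sum_sub_distrib]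
      simp only [one_mul]
      gcongr
      exact le_abs_self _
    have a3 := visit (y := y) (m := m) (n := n) (N := N) (by omega) (by omega) h1 h2 b
    have a4 : ∑ t ∈ Ioc n N, (∑ v ∈ Str t, win y t (ones v) * dd m v b) / 2 ^ t -
        ∑ t ∈ Ioc n N, oscW (win y t) m t b ≤
        ∑ t ∈ Ioc n N, (∑ v ∈ Str t, win y t (ones v) * dl v b) / 2 ^ t := by
      rw [← sum_sub_distrib]
      apply sum_le_sum; intro t _
      rw [oscW, ← sub_div]
      gcongr
      have := neg_abs_le (∑ w ∈ Str t, win y t (ones w) * (dl w b - dd m w b))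
      simp only [mul_sub, sum_sub_distrib] at this ⊢
      linarith
    have a5 : ∑ t ∈ Ioc n N, (∑ v ∈ Str t, win y t (ones v) * dl v b) / 2 ^ t ≤ FF y K b := by
      apply sum_le_sum_of_subset_of_nonneg
      · intro t ht
        rw [mem_Ioc] at ht
        exact mem_range.mpr (by omega)
      · intro t _ _
        exact div_nonneg (sum_nonneg (fun v _ => mul_nonneg (win_nonneg _ _ _) (dl_nonneg _ _)))
          (by positivity)
    simp only
    linarith

lemma two_pow_le_typ {i L : ℕ} (ht : typ i L) :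
    (2 : ℝ) ^ L ≤ 3 ^ i * Real.exp (L * (Real.log 2 - 399 / 800 * Real.log 3)) := by
  have h3 : 0 < Real.log 3 := Real.log_pos (by norm_num)
  have h4 : 399 * (L : ℝ) ≤ 800 * i := by exact_mod_cast ht.2
  rw [← Real.exp_log (show (0 : ℝ) < 2 ^ L by positivity),
    ← Real.exp_log (show (0 : ℝ) < 3 ^ i by positivity), ← Real.exp_add, Real.log_pow,
    Real.log_pow]
  apply Real.exp_le_exp.mpr
  nlinarith

lemma typ_le_two_pow {i L : ℕ} (ht : typ i L) :
    3 ^ i * Real.exp (L * (Real.log 2 - 401 / 800 * Real.log 3)) ≤ (2 : ℝ) ^ L := by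
  have h3 : 0 < Real.log 3 := Real.log_pos (by norm_num)
  have h4 : 800 * (i : ℝ) ≤ 401 * L := by exact_mod_cast ht.1
  rw [← Real.exp_log (show (0 : ℝ) < 2 ^ L by positivity),
    ← Real.exp_log (show (0 : ℝ) < 3 ^ i by positivity), ← Real.exp_add, Real.log_pow,
    Real.log_pow]
  apply Real.exp_le_exp.mpr
  nlinarith

/-- Choice of the level at which the walk starts below the window. -/
lemma exists_level {y : ℝ} {M N : ℕ} (hM : 1200 ≤ M) (hMN : M ≤ N)
    (h1 : Real.exp (M * (Real.log 2 - 399 / 800 * Real.log 3)) < y)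
    (h2 : y ≤ Real.exp (N * (Real.log 2 - 399 / 800 * Real.log 3))) :
    ∃ n, M ≤ n ∧ n ≤ N ∧ (∀ i, typ i n → (2 : ℝ) ^ n < y * 3 ^ i) ∧
      (∀ i, typ i (n + n / 30) → y * 3 ^ i ≤ (2 : ℝ) ^ (n + n / 30)) := by
  set ap := Real.log 2 - 399 / 800 * Real.log 3 with hap
  set am := Real.log 2 - 401 / 800 * Real.log 3 with ham
  have l2 := Real.log_two_gt_d9
  have l2' := Real.log_two_lt_d9
  have l3 : 0 < Real.log 3 := Real.log_pos (by norm_num)
  have l23 := log_three_le
  have key : ∀ N', M ≤ N' → y ≤ Real.exp (N' * ap) →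
      ∃ n, M ≤ n ∧ n ≤ N' ∧ Real.exp (n * ap) < y ∧ y ≤ Real.exp ((n + 1 : ℕ) * ap) := by
    intro N' hN'
    induction N', hN' using Nat.le_induction with
    | base => intro h; linarith
    | succ N' hN' ih =>
      intro h
      by_cases hb : y ≤ Real.exp (N' * ap)
      · obtain ⟨n, a1, a2, a3⟩ := ih hb
        exact ⟨n, a1, by omega, a3⟩
      · exact ⟨N', hN', by omega, not_le.mp hb, h⟩
  obtain ⟨n, a1, a2, a3, a4⟩ := key N hMN h2
  refine ⟨n, a1, a2, fun i hi => ?_, fun i hi => ?_⟩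
  · refine (two_pow_le_typ hi).trans_lt ?_
    rw [mul_comm y]
    exact mul_lt_mul_of_pos_left a3 (by positivity)
  · refine le_trans ?_ (typ_le_two_pow hi)
    rw [mul_comm y]
    refine mul_le_mul_of_nonneg_left (a4.trans (Real.exp_le_exp.mpr ?_)) (by positivity)
    have c2 : 31 * (n : ℝ) ≤ 30 * ((n + n / 30 : ℕ) : ℝ) + 30 := by
      exact_mod_cast (show 31 * n ≤ 30 * (n + n / 30) + 30 by omega)
    have c3 : (1200 : ℝ) ≤ n := by exact_mod_cast hM.trans a1
    have c4 : 0 ≤ am := by rw [ham]; linarith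
    have c5 : (31 / 30 * (n : ℝ) - 1) * am ≤ ((n + n / 30 : ℕ) : ℝ) * am := by gcongr; linarith
    have c6 : 1 / 600 ≤ 31 / 30 * am - ap := by rw [ham, hap]; linarith
    have c7 : am ≤ 1 := by rw [ham]; linarith
    have c8 : ap ≤ 1 := by rw [hap]; linarith
    rw [← ham]
    push_cast at c5 ⊢
    nlinarith

end Pool.Agent.Lib.MP_76ba2b_nt
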