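import Pool.Agent.Lib.MP_76ba2b_nt.Binom

set_option autoImplicit false

namespace Pool.Agent.Lib.MP_76ba2b_nt

open Finset

/-- Weighted iterate of the two-step walk operator. -/
noncomputable def WP (w : ℕ → ℕ → ℝ) : ℕ → ℕ → (ℕ → ℝ) → ℕ → ℝ
  | 0, _, g, i => g i
  | P + 1, t, g, i => w i t * Bn 2 (fun x => WP w P (t + 1) g (i + x))

section
variable {w : ℕ → ℕ → ℝ}

lemma WP_zero (t : ℕ) (g : ℕ → ℝ) (i : ℕ) : WP w 0 t g i = g i := rfl

lemma WP_succ (P t : ℕ) (g : ℕ → ℝ) (i : ℕ) :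
    WP w (P + 1) t g i = w i t * Bn 2 (fun x => WP w P (t + 1) g (i + x)) := rfl

lemma WP_mono (h0 : ∀ i t, 0 ≤ w i t) (P : ℕ) : ∀ (t i : ℕ) {g g' : ℕ → ℝ},
    (∀ x ≤ 2 * P, g (i + x) ≤ g' (i + x)) → WP w P t g i ≤ WP w P t g' i := by
  induction P with
  | zero => intro t i g g' h; simpa [WP_zero] using h 0 le_rfl
  | succ P ih =>
    intro t i g g' h
    rw [WP_succ, WP_succ]
    apply mul_le_mul_of_nonneg_left _ (h0 i t)
    apply Bn_mono
    intro x hx
    apply ih
    intro y hy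
    rw [add_assoc]
    exact h (x + y) (by omega)

lemma WP_mul (c : ℝ) (P : ℕ) : ∀ (t i : ℕ) (g : ℕ → ℝ),
    WP w P t (fun x => c * g x) i = c * WP w P t g i := by
  induction P with
  | zero => intro t i g; rfl
  | succ P ih =>
    intro t i g
    rw [WP_succ, WP_succ]
    simp only [ih]
    rw [Bn_mul]; ring

lemma WP_nonneg (h0 : ∀ i t, 0 ≤ w i t) (P : ℕ) : ∀ (t i : ℕ) {g : ℕ → ℝ},
    (∀ x, 0 ≤ g x) → 0 ≤ WP w P t g i := by
  induction P with
  | zero => intro t i g h; exact h i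
  | succ P ih =>
    intro t i g h
    rw [WP_succ]
    exact mul_nonneg (h0 i t) (Bn_nonneg _ (fun x => ih _ _ h))

lemma WP_le_Bn (h0 : ∀ i t, 0 ≤ w i t) (h1 : ∀ i t, w i t ≤ 1) (P : ℕ) :
    ∀ (t i : ℕ) {g : ℕ → ℝ}, (∀ x, 0 ≤ g x) →
      WP w P t g i ≤ Bn (2 * P) (fun x => g (i + x)) := by
  induction P with
  | zero => intro t i g _; simp [WP_zero, Bn_zero]
  | succ P ih =>
    intro t i g h
    rw [WP_succ, show 2 * (P + 1) = 2 + 2 * P by ring, Bn_add_len]
    have a1 : 0 ≤ Bn 2 (fun x => WP w P (t + 1) g (i + x)) :=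
      Bn_nonneg _ (fun x => WP_nonneg h0 _ _ _ h)
    have a2 : Bn 2 (fun x => WP w P (t + 1) g (i + x)) ≤
        Bn 2 (fun x => Bn (2 * P) (fun y => g (i + (x + y)))) := by
      apply Bn_mono
      intro x _
      have := ih (t + 1) (i + x) h
      simpa only [add_assoc] using this
    have := h1 i t
    nlinarith

lemma WP_le_one (h0 : ∀ i t, 0 ≤ w i t) (h1 : ∀ i t, w i t ≤ 1) (P t i : ℕ) {g : ℕ → ℝ}
    (hg : ∀ x, 0 ≤ g x) (hg1 : ∀ x, g x ≤ 1) : WP w P t g i ≤ 1 :=
  (WP_le_Bn h0 h1 P t i hg).trans (Bn_le_const _ (fun _ _ => hg1 _))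

lemma WP_add (P H : ℕ) : ∀ (t i : ℕ) (g : ℕ → ℝ),
    WP w (P + H) t g i = WP w P t (fun x => WP w H (t + P) g x) i := by
  induction P with
  | zero => intro t i g; simp [WP_zero]
  | succ P ih =>
    intro t i g
    rw [show P + 1 + H = (P + H) + 1 by ring, WP_succ, WP_succ]
    simp only [ih]
    rw [show t + 1 + P = t + (P + 1) by ring]

/-- `Z` is antitone in the length. -/
lemma WP_one_anti (h0 : ∀ i t, 0 ≤ w i t) (h1 : ∀ i t, w i t ≤ 1) {P P' : ℕ} (h : P ≤ P')
    (t i : ℕ) : WP w P' t (fun _ => 1) i ≤ WP w P t (fun _ => 1) i := by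
  obtain ⟨d, rfl⟩ := Nat.exists_eq_add_of_le h
  rw [WP_add]
  apply WP_mono h0
  intro x _
  exact WP_le_one h0 h1 _ _ _ (fun _ => zero_le_one) (fun _ => le_rfl)

/-- Indicator of having passed column `n`. -/
noncomputable def past (n : ℕ) (i : ℕ) : ℝ := if n ≤ i then 1 else 0

lemma past_nonneg (n i : ℕ) : 0 ≤ past n i := by unfold past; split_ifs <;> norm_num

lemma past_le_one (n i : ℕ) : past n i ≤ 1 := by unfold past; split_ifs <;> norm_num

lemma WP_past_mono (h0 : ∀ i t, 0 ≤ w i t) {n : ℕ} (hn : ∀ i t, n ≤ i → w i t = 1) (d H t i : ℕ) :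
    WP w H t (past n) i ≤ WP w (H + d) t (past n) i := by
  rw [WP_add]
  apply WP_mono h0
  intro x _
  generalize i + x = j
  generalize t + H = t'
  by_cases hj : n ≤ j
  · have : ∀ d t' j, n ≤ j → WP w d t' (past n) j = 1 := by
      intro d
      induction d with
      | zero => intro t' j hj; simp [WP_zero, past, hj]
      | succ d ih =>
        intro t' j hj
        rw [WP_succ, hn j t' hj]
        have : (fun x => WP w d (t' + 1) (past n) (j + x)) = fun _ => 1 := by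
          funext x; exact ih _ _ (by omega)
        rw [this, Bn_const]; ring
    rw [this d t' j hj]; exact past_le_one _ _
  · have : past n j = 0 := by simp [past, hj]
    rw [this]
    exact WP_nonneg h0 _ _ _ (past_nonneg n)

/-- The step used twice: walk `τ` blocks, pick up one weight, continue. -/
lemma WP_exit (h0 : ∀ i t, 0 ≤ w i t) (h1 : ∀ i t, w i t ≤ 1) (τ H t i : ℕ) {g : ℕ → ℝ}
    (hg : ∀ x, 0 ≤ g x) :
    WP w (τ + 1 + H) t g i ≤
      Bn (2 * τ) (fun x => w (i + x) (t + τ) *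
        Bn 2 (fun y => WP w H (t + τ + 1) g (i + x + y))) := by
  rw [add_assoc, WP_add]
  refine (WP_le_Bn h0 h1 τ t i (fun x => WP_nonneg h0 _ _ _ hg)).trans (le_of_eq ?_)
  congr 1
  funext x
  rw [add_comm 1 H, WP_succ]

/-- Many exits give a small weight unless a bad point is met. -/
lemma many_white (ρ : ℝ) (hρ : 0 ≤ ρ) (R : ℕ) : ∀ S : ℕ → ℕ, ∃ P : ℕ,
    ∀ (w : ℕ → ℕ → ℝ) (bad : ℕ → ℕ → ℕ → ℝ), (∀ i t, 0 ≤ w i t) → (∀ i t, w i t ≤ 1) →
      (∀ s i t, 0 ≤ bad s i t) →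
      (∀ s i t, bad s i t < 1 → ∃ τ ≤ s + 1, Bn (2 * τ) (fun x => w (i + x) (t + τ)) ≤ ρ) →
      ∀ t i, WP w P t (fun _ => 1) i ≤
        ρ ^ R + ∑ k ∈ range P, Bn (2 * k) (fun x => bad (S k) (i + x) (t + k)) := by
  induction R with
  | zero =>
    intro S
    refine ⟨0, ?_⟩
    intro w bad _ _ _ _ t i
    simp [WP_zero]
  | succ R ih =>
    intro S
    choose Pd hPd using fun d => ih (fun k => S (d + k))
    refine ⟨(range (S 0 + 3)).sup (fun d => d + Pd d) + 1, ?_⟩
    intro w bad h0 h1 hb hex t i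
    set P := (range (S 0 + 3)).sup (fun d => d + Pd d) + 1 with hP
    have hterm : ∀ k, 0 ≤ Bn (2 * k) (fun x => bad (S k) (i + x) (t + k)) :=
      fun k => Bn_nonneg _ (fun x => hb _ _ _)
    by_cases hbad : bad (S 0) i t < 1
    · obtain ⟨τ, hτ, hw⟩ := hex _ _ _ hbad
      have hle : τ + 1 + Pd (τ + 1) ≤ P := by
        have : τ + 1 + Pd (τ + 1) ≤ (range (S 0 + 3)).sup (fun d => d + Pd d) :=
          Finset.le_sup (f := fun d => d + Pd d) (mem_range.mpr (by omega))
        omega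
      refine (WP_one_anti h0 h1 hle t i).trans ?_
      refine (WP_exit h0 h1 τ (Pd (τ + 1)) t i (fun _ => zero_le_one)).trans ?_
      have a1 : Bn (2 * τ) (fun x => w (i + x) (t + τ) *
          Bn 2 (fun y => WP w (Pd (τ + 1)) (t + τ + 1) (fun _ => 1) (i + x + y))) ≤
          Bn (2 * τ) (fun x => ρ ^ R * w (i + x) (t + τ) + ∑ k ∈ range (Pd (τ + 1)),
            Bn 2 (fun y => Bn (2 * k)
              (fun z => bad (S (τ + 1 + k)) (i + x + y + z) (t + τ + 1 + k)))) := by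
        apply Bn_mono
        intro x _
        have b1 : Bn 2 (fun y => WP w (Pd (τ + 1)) (t + τ + 1) (fun _ => 1) (i + x + y)) ≤
            Bn 2 (fun y => ρ ^ R + ∑ k ∈ range (Pd (τ + 1)), Bn (2 * k)
              (fun z => bad (S (τ + 1 + k)) (i + x + y + z) (t + τ + 1 + k))) :=
          Bn_mono _ (fun y _ => hPd (τ + 1) w bad h0 h1 hb hex _ _)
        rw [Bn_add, Bn_const, Bn_sum 2 (range (Pd (τ + 1))) (fun k y => Bn (2 * k)
              (fun z => bad (S (τ + 1 + k)) (i + x + y + z) (t + τ + 1 + k)))] at b1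
        have b2 : 0 ≤ ∑ k ∈ range (Pd (τ + 1)), Bn 2 (fun y => Bn (2 * k)
              (fun z => bad (S (τ + 1 + k)) (i + x + y + z) (t + τ + 1 + k))) :=
          sum_nonneg (fun k _ => Bn_nonneg _ (fun y => Bn_nonneg _ (fun z => hb _ _ _)))
        have b3 := h0 (i + x) (t + τ)
        have b4 := h1 (i + x) (t + τ)
        nlinarith [mul_le_mul_of_nonneg_left b1 b3]
      refine a1.trans ?_
      rw [Bn_add, Bn_mul, Bn_sum (2 * τ) (range (Pd (τ + 1))) (fun k x => Bn 2 (fun y => Bn (2 * k)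
              (fun z => bad (S (τ + 1 + k)) (i + x + y + z) (t + τ + 1 + k))))]
      have a2 : ∀ k, Bn (2 * τ) (fun x => Bn 2 (fun y => Bn (2 * k)
              (fun z => bad (S (τ + 1 + k)) (i + x + y + z) (t + τ + 1 + k)))) =
          Bn (2 * (τ + 1 + k)) (fun x => bad (S (τ + 1 + k)) (i + x) (t + (τ + 1 + k))) := by
        intro k
        rw [show 2 * (τ + 1 + k) = 2 * τ + (2 + 2 * k) by ring, Bn_add_len]
        congr 1; funext x
        rw [Bn_add_len]
        congr 1; funext y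
        congr 1; funext z
        congr 1 <;> ring
      simp only [a2]
      have a3 : ∑ k ∈ range (Pd (τ + 1)),
          Bn (2 * (τ + 1 + k)) (fun x => bad (S (τ + 1 + k)) (i + x) (t + (τ + 1 + k))) ≤
          ∑ k ∈ range P, Bn (2 * k) (fun x => bad (S k) (i + x) (t + k)) := by
        have e := Finset.sum_range_add
          (fun k => Bn (2 * k) (fun x => bad (S k) (i + x) (t + k))) (τ + 1) (Pd (τ + 1))
        have e2 : ∑ k ∈ range (τ + 1 + Pd (τ + 1)), Bn (2 * k) (fun x => bad (S k) (i + x) (t + k)) ≤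
            ∑ k ∈ range P, Bn (2 * k) (fun x => bad (S k) (i + x) (t + k)) :=
          sum_le_sum_of_subset_of_nonneg (range_subset_range.mpr hle) (fun k _ _ => hterm k)
        have e3 : 0 ≤ ∑ k ∈ range (τ + 1), Bn (2 * k) (fun x => bad (S k) (i + x) (t + k)) :=
          sum_nonneg (fun k _ => hterm k)
        linarith
      have a4 : ρ ^ R * Bn (2 * τ) (fun x => w (i + x) (t + τ)) ≤ ρ ^ (R + 1) := by
        rw [pow_succ]; exact mul_le_mul_of_nonneg_left hw (pow_nonneg hρ R)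
      linarith
    · push Not at hbad
      have a1 : WP w P t (fun _ => 1) i ≤ 1 :=
        WP_le_one h0 h1 _ _ _ (fun _ => zero_le_one) (fun _ => le_rfl)
      have a2 : Bn (2 * 0) (fun x => bad (S 0) (i + x) (t + 0)) ≤
          ∑ k ∈ range P, Bn (2 * k) (fun x => bad (S k) (i + x) (t + k)) :=
        single_le_sum (f := fun k => Bn (2 * k) (fun x => bad (S k) (i + x) (t + k)))
          (fun k _ => hterm k) (mem_range.mpr (by omega))
      simp only [mul_zero, Bn_zero, add_zero] at a2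
      have := pow_nonneg hρ (R + 1)
      linarith

end

end Pool.Agent.Lib.MP_76ba2b_nt
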