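import Pool.Agent.Lib.MP_76ba2b_nt.Defs
import Pool.Agent.Lib.MP_76ba2b_nt.Binom

set_option autoImplicit false

namespace Pool.Agent.Lib.MP_76ba2b_nt

open Finset

/-- All words of length `L`. -/
def Str : ℕ → Finset (List Bool)
  | 0 => {[]}
  | L + 1 => (Str L).image (false :: ·) ∪ (Str L).image (true :: ·)

lemma mem_Str {L : ℕ} : ∀ {w : List Bool}, w ∈ Str L ↔ w.length = L := by
  induction L with
  | zero => intro w; simp [Str]
  | succ L ih =>
    intro w
    cases w with
    | nil => simp [Str]
    | cons x w => cases x <;> simp [Str, ih]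

lemma sum_Str_succ {M : Type} [AddCommMonoid M] (L : ℕ) (F : List Bool → M) :
    ∑ w ∈ Str (L + 1), F w = ∑ w ∈ Str L, F (false :: w) + ∑ w ∈ Str L, F (true :: w) := by
  rw [Str, sum_union, sum_image (by intro a _ b _ h; simpa using h),
    sum_image (by intro a _ b _ h; simpa using h)]
  rw [disjoint_left]
  intro w h1 h2
  simp only [mem_image] at h1 h2
  obtain ⟨a, -, rfl⟩ := h1
  obtain ⟨b, -, h⟩ := h2
  simp at h

lemma sum_Str_zero {M : Type} [AddCommMonoid M] (F : List Bool → M) :
    ∑ w ∈ Str 0, F w = F [] := by simp [Str]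

lemma sum_Str_add {M : Type} [AddCommMonoid M] (L K : ℕ) : ∀ F : List Bool → M,
    ∑ w ∈ Str (L + K), F w = ∑ w ∈ Str L, ∑ v ∈ Str K, F (w ++ v) := by
  induction L with
  | zero => intro F; simp [Str]
  | succ L ih =>
    intro F
    rw [show L + 1 + K = (L + K) + 1 by ring, sum_Str_succ, sum_Str_succ, ih, ih]
    simp

lemma card_Str (L : ℕ) : (Str L).card = 2 ^ L := by
  induction L with
  | zero => simp [Str]
  | succ L ih =>
    have := sum_Str_succ L (fun _ => (1 : ℕ))
    simp only [sum_const, smul_eq_mul, mul_one] at this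
    rw [this, ih]; ring

/-- Number of odd steps. -/
def ones : List Bool → ℕ
  | [] => 0
  | false :: w => ones w
  | true :: w => ones w + 1

/-- The additive offset of a word. -/
def off : List Bool → ℕ
  | [] => 0
  | false :: w => off w
  | true :: w => 2 ^ w.length + 3 * off w

/-- The word can be followed backwards from `s`. -/
def valid : List Bool → ℕ → Prop
  | [], _ => True
  | false :: w, s => valid w (2 * s)
  | true :: w, s => s % 3 = 2 ∧ valid w ((2 * s - 1) / 3)

/-- The end of the backward path. -/
def endp : List Bool → ℕ → ℕ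
  | [], s => s
  | false :: w, s => endp w (2 * s)
  | true :: w, s => endp w ((2 * s - 1) / 3)

lemma ones_le (w : List Bool) : ones w ≤ w.length := by
  induction w with
  | nil => simp [ones]
  | cons x w ih => cases x <;> simp [ones] <;> omega

lemma ones_append (w v : List Bool) : ones (w ++ v) = ones w + ones v := by
  induction w with
  | nil => simp [ones]
  | cons x w ih => cases x <;> simp [ones, ih]; omega

lemma off_append (w v : List Bool) :
    off (w ++ v) = 2 ^ v.length * off w + 3 ^ ones w * off v := by
  induction w with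
  | nil => simp [off, ones]
  | cons x w ih => cases x <;> simp [off, ones, ih]; ring

lemma off_le (w : List Bool) : off w + 2 ^ w.length ≤ 3 ^ w.length := by
  induction w with
  | nil => simp [off]
  | cons x w ih =>
    have : 0 < 2 ^ w.length := by positivity
    cases x <;> simp only [off, List.length_cons, pow_succ] <;> omega

lemma sum_Str_ones (L : ℕ) : ∀ g : ℕ → ℝ, ∑ w ∈ Str L, g (ones w) = 2 ^ L * Bn L g := by
  induction L with
  | zero => intro g; simp [Str, ones, Bn_zero]
  | succ L ih =>
    intro g
    rw [sum_Str_succ, Bn_succ]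
    simp only [ones]
    rw [ih g, ih (fun x => g (x + 1))]; ring

lemma sum_Str_three (L : ℕ) : ∑ w ∈ Str L, (3 : ℝ) ^ ones w = 4 ^ L := by
  rw [sum_Str_ones L (fun x => (3 : ℝ) ^ x), Bn_pow, ← mul_pow]; norm_num

lemma sum_Str_off (L : ℕ) : ∑ w ∈ Str L, (off w : ℝ) ≤ L * 4 ^ L / 4 := by
  induction L with
  | zero => simp [Str, off]
  | succ L ih =>
    rw [sum_Str_succ]
    simp only [off]
    have : ∑ w ∈ Str L, ((2 ^ w.length + 3 * off w : ℕ) : ℝ) =
        4 ^ L + 3 * ∑ w ∈ Str L, (off w : ℝ) := by
      rw [mul_sum]
      have e : (4 : ℝ) ^ L = ∑ _w ∈ Str L, (2 : ℝ) ^ L := by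
        rw [sum_const, card_Str, nsmul_eq_mul]; push_cast; rw [← mul_pow]; norm_num
      rw [e, ← sum_add_distrib]
      apply sum_congr rfl
      intro w hw
      rw [mem_Str.mp hw]; push_cast; ring
    rw [this]; push_cast
    rw [pow_succ]; nlinarith

lemma valid_append (w v : List Bool) : ∀ s, valid (w ++ v) s ↔ valid w s ∧ valid v (endp w s) := by
  induction w with
  | nil => intro s; simp [valid, endp]
  | cons x w ih => intro s; cases x <;> simp [valid, endp, ih, and_assoc]

lemma endp_append (w v : List Bool) : ∀ s, endp (w ++ v) s = endp v (endp w s) := by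
  induction w with
  | nil => intro s; simp [endp]
  | cons x w ih => intro s; cases x <;> simp [endp, ih]

lemma endp_eq (w : List Bool) : ∀ s, valid w s →
    3 ^ ones w * endp w s + off w = 2 ^ w.length * s := by
  induction w with
  | nil => intro s _; simp [ones, endp, off]
  | cons x w ih =>
    intro s h
    cases x
    · have := ih _ h
      simp only [ones, endp, off, List.length_cons, pow_succ]
      rw [this]; ring
    · have := ih _ h.2
      obtain ⟨c, hc⟩ : ∃ c, s = 3 * c + 2 := ⟨s / 3, by have := h.1; omega⟩
      have e : (2 * s - 1) / 3 = 2 * c + 1 := by omega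
      simp only [ones, endp, off, List.length_cons, pow_succ]
      rw [e] at this ⊢
      rw [hc]; nlinarith

lemma valid_iff (w : List Bool) : ∀ s,
    valid w s ↔ 2 ^ w.length * s ≡ off w [MOD 3 ^ ones w] := by
  intro s
  constructor
  · intro h
    rw [← endp_eq w s h]
    exact (Nat.modEq_iff_dvd' (Nat.le_add_left _ _)).mpr (by simp) |>.symm
  · induction w generalizing s with
    | nil => intro _; trivial
    | cons x w ih =>
      intro h
      cases x
      · apply ih
        simp only [ones, off, List.length_cons, pow_succ] at h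
        rwa [← mul_assoc]
      · simp only [ones, off, List.length_cons, pow_succ] at h
        have h3 : 2 ^ w.length * 2 * s ≡ 2 ^ w.length + 3 * off w [MOD 3] :=
          h.of_mul_left _
        have h4 : 2 ^ w.length * (2 * s) ≡ 2 ^ w.length * 1 [MOD 3] := by
          rw [← mul_assoc, mul_one]
          refine h3.trans ?_
          exact (Nat.modEq_iff_dvd' (Nat.le_add_right _ _)).mpr (by simp) |>.symm
        have h5 : 2 * s ≡ 1 [MOD 3] :=
          Nat.ModEq.cancel_left_of_coprime (Nat.Coprime.pow_right _ (by norm_num)) h4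
        have hs : s % 3 = 2 := by unfold Nat.ModEq at h5; omega
        refine ⟨hs, ih _ ?_⟩
        obtain ⟨c, hc⟩ : ∃ c, s = 3 * c + 2 := ⟨s / 3, by omega⟩
        have e : (2 * s - 1) / 3 = 2 * c + 1 := by omega
        rw [e]
        rw [hc, show 2 ^ w.length * 2 * (3 * c + 2) =
          2 ^ w.length + 3 * (2 ^ w.length * (2 * c + 1)) by ring, mul_comm _ 3] at h
        exact Nat.ModEq.mul_left_cancel' (by norm_num) (Nat.ModEq.add_left_cancel' _ h)

lemma T_two_mul (s : ℕ) : T (2 * s) = s := by simp [T]

lemma T_odd_step {s : ℕ} (h : s % 3 = 2) : T ((2 * s - 1) / 3) = s := by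
  obtain ⟨c, hc⟩ : ∃ c, s = 3 * c + 2 := ⟨s / 3, by omega⟩
  have e : (2 * s - 1) / 3 = 2 * c + 1 := by omega
  rw [e, T, if_neg (by omega)]; omega

lemma iterate_endp (w : List Bool) : ∀ s, valid w s → T^[w.length] (endp w s) = s := by
  induction w with
  | nil => intro s _; rfl
  | cons x w ih =>
    intro s h
    cases x
    · rw [List.length_cons, Function.iterate_succ_apply', endp, ih _ h, T_two_mul]
    · rw [List.length_cons, Function.iterate_succ_apply', endp, ih _ h.2, T_odd_step h.1]

lemma endp_inj (w : List Bool) : ∀ (w' : List Bool) (s : ℕ), w.length = w'.length → valid w s →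
    valid w' s → endp w s = endp w' s → w = w' := by
  induction w with
  | nil => intro w' s hl _ _ _; exact (List.length_eq_zero_iff.mp hl.symm).symm
  | cons x w ih =>
    intro w' s hl h h' he
    cases w' with
    | nil => simp at hl
    | cons y w' =>
      have hl' : w.length = w'.length := by simpa using hl
      cases x <;> cases y
      · rw [ih w' _ hl' h h' he]
      · exfalso
        have a := iterate_endp w _ h
        have b := iterate_endp w' _ h'.2
        simp only [endp] at he
        rw [he, hl', b] at a
        have := h'.1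
        omega
      · exfalso
        have a := iterate_endp w _ h.2
        have b := iterate_endp w' _ h'
        simp only [endp] at he
        rw [he, hl', b] at a
        have := h.1
        omega
      · rw [ih w' _ hl' h.2 h'.2 he]

lemma exists_solve (a c N : ℕ) (hN : 0 < N) (h : Nat.Coprime a N) :
    ∃ b < N, ∀ b', a * b' ≡ c [MOD N] ↔ b' ≡ b [MOD N] := by
  have : NeZero N := ⟨hN.ne'⟩
  let y : ZMod N := ((ZMod.unitOfCoprime a h)⁻¹ : (ZMod N)ˣ) * (c : ZMod N)
  have hy : (a : ZMod N) * y = c := by
    simp only [y]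
    rw [← mul_assoc, ← ZMod.coe_unitOfCoprime a h, Units.mul_inv, one_mul]
  have h1 : a * y.val ≡ c [MOD N] := by
    rw [← ZMod.natCast_eq_natCast_iff]; push_cast
    rw [ZMod.natCast_zmod_val, hy]
  refine ⟨y.val, ZMod.val_lt y, fun b' => ⟨fun hb => ?_, fun hb => (hb.mul_left a).trans h1⟩⟩
  exact Nat.ModEq.cancel_left_of_coprime h.symm (hb.trans h1.symm)

lemma off_inj {w w' : List Bool} (hl : w.length = w'.length) (ho : ones w = ones w')
    (hc : off w = off w') : w = w' := by
  obtain ⟨s, -, hs⟩ := exists_solve (2 ^ w.length) (off w) (3 ^ ones w) (by positivity)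
    (Nat.Coprime.pow _ _ (by norm_num))
  have h1 : valid w s := (valid_iff w s).mpr ((hs s).mpr rfl)
  have h2 : valid w' s := (valid_iff w' s).mpr (by rw [← hl, ← ho, ← hc]; exact (hs s).mpr rfl)
  apply endp_inj w w' s hl h1 h2
  have a := endp_eq w s h1
  have b := endp_eq w' s h2
  rw [← hl, ← ho, ← hc, ← a] at b
  exact (Nat.eq_of_mul_eq_mul_left (by positivity) (Nat.add_right_cancel b)).symm

lemma endp_snoc_le (w : List Bool) (x : Bool) (s : ℕ) : endp (w ++ [x]) s ≤ 2 * endp w s := by
  rw [endp_append]
  cases x <;> simp only [endp] <;> omega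

end Pool.Agent.Lib.MP_76ba2b_nt
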